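import Pool.Agent.T9h42.DP.SyK
import Pool.Agent.Y69.TK.KDef

/-!
# Definitions for the statement in degree one
-/

namespace Pool.Agent.T9h42

open Pool.Agent.Y778.NK Pool.Agent.Y69.FJK
open Pool.Agent.Y69 (FinSub)

noncomputable section

/-- The matrix `1 - e + e z` over `k[G]`, for `e` an idempotent matrix over `k[H]` and `z` in the
centralizer of `H`. -/
def twMat {k G : Type} [CommRing k] [Group G] (H : FinSub G) (z : Cz H.1) {n : ℕ}
    (e : IdMat (MonoidAlgebra k H.1) n) : Matrix (Fin n) (Fin n) (MonoidAlgebra k G) :=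
  1 - e.1.map (MonoidAlgebra.mapDomainRingHom k H.1.subtype) +
    e.1.map (MonoidAlgebra.mapDomainRingHom k H.1.subtype) *
      Matrix.diagonal (fun _ => MonoidAlgebra.single (z : G) 1)

/-- The class of an idempotent matrix in `K₀(k[H])`. -/
def GK0.mk {k H : Type} [CommRing k] [Group H] {n : ℕ} (e : IdMat (MonoidAlgebra k H) n) :
    GK0 k H := (K0.mk e : K0 (MonoidAlgebra k H))

/-- The class of an invertible matrix in `K₁(k[H])`. -/
def GK1.mk {k H : Type} [CommRing k] [Group H] {n : ℕ}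
    (M : (Matrix (Fin n) (Fin n) (MonoidAlgebra k H))ˣ) : GK1 k H := Pool.Agent.Y69.FJ.K1.mk M

/-- `β [H, z, [e]] = [1 - e + e z]`. -/
def IsTwist {k G : Type} [CommRing k] [Group G] (β : ZK k G →+ GK1 k G) : Prop :=
  ∀ (H : FinSub G) (z : Cz H.1) (n : ℕ) (e : IdMat (MonoidAlgebra k H.1) n),
    ∃ M : (Matrix (Fin n) (Fin n) (MonoidAlgebra k G))ˣ,
      (M : Matrix (Fin n) (Fin n) (MonoidAlgebra k G)) = twMat H z e ∧
        β (ZK.of H z (GK0.mk e)) = GK1.mk M

/-- If `α(x) + β(ξ)` has finite order, where `α` is the assembly map `colim K₁(k[H]) → K₁(k[G])`,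
then a positive multiple of `ξ` is in `S`. -/
def KerIn {k G : Type} [CommRing k] [Group G] (β : ZK k G →+ GK1 k G)
    (S : AddSubgroup (ZK k G)) : Prop :=
  ∀ (x : ColimK1 k G) (ξ : ZK k G) (n : ℕ), 0 < n → n • (assembly k G x + β ξ) = 0 →
    ∃ l : ℕ, 0 < l ∧ l • ξ ∈ S

/-- The map `(x, ξ) ↦ α(x) + β(ξ)` is injective up to torsion. -/
def RatInj {k G : Type} [CommRing k] [Group G] (β : ZK k G →+ GK1 k G) : Prop :=
  ∀ (x : ColimK1 k G) (ξ : ZK k G) (n : ℕ), 0 < n → n • (assembly k G x + β ξ) = 0 →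
    ∃ l : ℕ, 0 < l ∧ l • x = 0 ∧ l • ξ = 0

/-- If `C` is a finite cyclic subgroup of order prime to `p`, then every element of the centralizer
of `C` at which all homomorphisms to the `p`-adic integers vanish has a positive power in the
commutator subgroup of the centralizer. -/
def PSep (G : Type) [Group G] (p : ℕ) [Fact p.Prime] : Prop :=
  ∀ (C : FinSub G) (z : Cz C.1), IsCyclic C.1 → ¬ p ∣ Nat.card C.1 →
    (∀ χ : Cz C.1 →* Multiplicative ℤ_[p], χ z = 1) → ∃ m, 0 < m ∧ z ^ m ∈ commutator (Cz C.1)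

end

end Pool.Agent.T9h42
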