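import Pool.Agent.T9h42.DP.Nu

/-!
# The cocycle of a conjugacy class and a homomorphism on the centralizer; traces of symbols
-/

set_option linter.unusedSectionVars false

namespace Pool.Agent.T9h42

open Matrix H970SH H842 Pool.Agent.Y69 Pool.Agent.Y778.NK

noncomputable section

section coc

variable {G : Type} [Group G] {M : Type} [AddCommGroup M]

open Classical in
/-- an element conjugating `c` to `g` -/
def sel (c g : G) : G := if h : ∃ s, s * c * s⁻¹ = g then h.choose else 1

theorem sel_spec {c g : G} (h : IsConj c g) : sel c g * c * (sel c g)⁻¹ = g := by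
  have h1 : ∃ s, s * c * s⁻¹ = g := isConj_iff.1 h
  unfold sel
  rw [dif_pos h1]
  exact h1.choose_spec

/-- additivity on the centralizer of `c` -/
def AddOnC (c : G) (χ : G → M) : Prop :=
  ∀ a b, a * c = c * a → b * c = c * b → χ (a * b) = χ a + χ b

open Classical in
/-- the cocycle -/
def cocf (c : G) (χ : G → M) (x y : G) : M :=
  if IsConj c (x * y) then χ ((sel c (y * x))⁻¹ * y * sel c (x * y)) else 0

theorem conj_swap (x y : G) : IsConj (x * y) (y * x) := isConj_iff.2 ⟨y, by group⟩

theorem sel_comm {c g h y : G} (hg : IsConj c g) (hh : IsConj c h) (hy : y * g = h * y) :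
    ((sel c h)⁻¹ * y * sel c g) * c = c * ((sel c h)⁻¹ * y * sel c g) := by
  have h1 : sel c g * c = g * sel c g := by
    have := sel_spec hg
    calc sel c g * c = (sel c g * c * (sel c g)⁻¹) * sel c g := by group
      _ = g * sel c g := by rw [this]
  have h2 : (sel c h)⁻¹ * h = c * (sel c h)⁻¹ := by
    have := sel_spec hh
    calc (sel c h)⁻¹ * h = (sel c h)⁻¹ * (sel c h * c * (sel c h)⁻¹) := by rw [this]
      _ = c * (sel c h)⁻¹ := by group
  calc ((sel c h)⁻¹ * y * sel c g) * c = (sel c h)⁻¹ * y * (sel c g * c) := by group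
    _ = (sel c h)⁻¹ * (y * g) * sel c g := by rw [h1]; group
    _ = ((sel c h)⁻¹ * h) * y * sel c g := by rw [hy]; group
    _ = c * ((sel c h)⁻¹ * y * sel c g) := by rw [h2]; group

theorem cocf_coc {c : G} {χ : G → M} (hχ : AddOnC c χ) (x y z : G) :
    cocf c χ (x * y) z - cocf c χ x (y * z) + cocf c χ (z * x) y = 0 := by
  unfold cocf
  have e1 : x * (y * z) = x * y * z := (mul_assoc x y z).symm
  have e2 : y * z * x = y * (z * x) := mul_assoc y z x
  have e3 : z * x * y = z * (x * y) := mul_assoc z x y
  by_cases h : IsConj c (x * y * z)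
  · have h1 : IsConj c (z * (x * y)) := h.trans (conj_swap _ _)
    have h2 : IsConj c (y * (z * x)) := by
      have := conj_swap (z * x) y
      rw [e3] at this
      exact h1.trans this
    rw [e1, if_pos h, if_pos h, e3, if_pos h1, e2]
    have a1 := sel_comm (c := c) (g := x * y * z) (h := z * (x * y)) (y := z) h h1
      (by simp only [mul_assoc])
    have a2 := sel_comm (c := c) (g := z * (x * y)) (h := y * (z * x)) (y := y) h1 h2
      (by simp only [mul_assoc])
    have a3 : (sel c (y * (z * x)))⁻¹ * (y * z) * sel c (x * y * z) =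
        ((sel c (y * (z * x)))⁻¹ * y * sel c (z * (x * y))) *
          ((sel c (z * (x * y)))⁻¹ * z * sel c (x * y * z)) := by group
    rw [a3, hχ _ _ a2 a1]
    abel
  · have h1 : ¬ IsConj c (z * x * y) := by
      rw [e3]
      intro h2
      exact h (h2.trans (conj_swap _ _))
    rw [e1, if_neg h, if_neg h, if_neg h1]
    simp

theorem cocf_supp {c : G} {χ : G → M} (hc : 0 < orderOf c) (x y : G)
    (h : ¬ (0 < orderOf (x * y))) : cocf c χ x y = 0 := by
  unfold cocf
  rw [if_neg]
  intro h1
  apply h
  obtain ⟨s, hs⟩ := isConj_iff.1 h1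
  rw [← hs]
  have : orderOf (s * c * s⁻¹) = orderOf c := (MulAut.conj s).orderOf_eq c
  rw [this]
  exact hc

open Classical in
theorem cocf_val (c : G) (χ : G → M) (h z : G) (hz : z * h = h * z) :
    cocf c χ (h * z⁻¹) z = if IsConj c h then χ ((sel c h)⁻¹ * z * sel c h) else 0 := by
  unfold cocf
  have e1 : h * z⁻¹ * z = h := by group
  have e2 : z * (h * z⁻¹) = h := by rw [← mul_assoc, hz]; group
  rw [e1, e2]

end coc

section tr

variable {G : Type} {R : Type} {M : Type*} [Group G] [CommRing R] [AddCommGroup M] [Module R M]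

/-- a group element as a unit of the group ring -/
def gu (R : Type) [CommRing R] (z : G) : (MonoidAlgebra R G)ˣ where
  val := MonoidAlgebra.single z 1
  inv := MonoidAlgebra.single z⁻¹ 1
  val_inv := by
    rw [MonoidAlgebra.single_mul_single, mul_inv_cancel, one_mul, MonoidAlgebra.one_def]
  inv_val := by
    rw [MonoidAlgebra.single_mul_single, inv_mul_cancel, one_mul, MonoidAlgebra.one_def]

theorem gu_mul (z w : G) : gu R (z * w) = gu R z * gu R w := by
  apply Units.ext
  show MonoidAlgebra.single (z * w) 1 = MonoidAlgebra.single z 1 * MonoidAlgebra.single w 1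
  rw [MonoidAlgebra.single_mul_single, one_mul]

theorem gu_comm {C : Type} [Group C] (φ : C →* G) (z : G) (hz : ∀ c, z * φ c = φ c * z)
    (s : MonoidAlgebra R C) : ((gu R z : (MonoidAlgebra R G)ˣ) : MonoidAlgebra R G) *
      MonoidAlgebra.mapDomainRingHom R φ s = MonoidAlgebra.mapDomainRingHom R φ s *
        ((gu R z : (MonoidAlgebra R G)ˣ) : MonoidAlgebra R G) := by
  show MonoidAlgebra.single z 1 * _ = _ * MonoidAlgebra.single z 1
  induction s using MonoidAlgebra.induction_linear with
  | zero => simp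
  | add x y hx hy => rw [map_add, mul_add, add_mul, hx, hy]
  | single c r =>
    rw [MonoidAlgebra.mapDomainRingHom_apply, MonoidAlgebra.mapDomain_single,
      MonoidAlgebra.single_mul_single, MonoidAlgebra.single_mul_single, hz, one_mul, mul_one]

/-- the symbol map `K₀(R[C]) → K₁(R[G])` -/
def nz {C : Type} [Group C] (φ : C →* G) (z : G) (hz : ∀ c, z * φ c = φ c * z) :
    K0 (MonoidAlgebra R C) →+ K1 (MonoidAlgebra R G) :=
  nu (MonoidAlgebra.mapDomainRingHom R φ) (gu R z) (gu_comm φ z hz)

variable (f : G → G → M) (hf : ∀ x y z, f (x * y) z - f x (y * z) + f (z * x) y = 0)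

include hf

theorem prm_tw {ι : Type} [Fintype ι] [DecidableEq ι]
    (E : Matrix ι ι (MonoidAlgebra R G)) (hE : E * E = E) (Z Z' : Matrix ι ι (MonoidAlgebra R G))
    (hZ : Z * E = E * Z) (hZ' : Z' * E = E * Z') (h1 : Z * Z' = 1) :
    prm f (1 - E + E * Z') (1 - E + E * Z) = prm f (E * Z') Z := by
  have k1 : prm f (1 - E) (1 - E) = 0 := prm_idem f hf _ (by
    rw [Matrix.mul_sub, Matrix.sub_mul, Matrix.sub_mul, hE]
    simp)
  have z1 : (1 - E) * E = 0 := by rw [Matrix.sub_mul, hE, Matrix.one_mul, sub_self]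
  have z2 : E * (1 - E) = 0 := by rw [Matrix.mul_sub, hE, Matrix.mul_one, sub_self]
  have k2 : prm f (1 - E) (E * Z) = 0 := by
    have a := prm_coc f hf (1 - E) E Z
    rw [z1, prm_zero_left, zero_sub] at a
    have b := prm_coc f hf (Z * (1 - E)) E E
    rw [Matrix.mul_assoc, z1, Matrix.mul_zero, prm_zero_left, hE, zero_sub] at b
    have c1 : E * (Z * (1 - E)) = 0 := by
      rw [← Matrix.mul_assoc, ← hZ, Matrix.mul_assoc, z2, Matrix.mul_zero]
    rw [c1, prm_zero_left, add_zero, neg_eq_zero] at b
    rw [b, add_zero, neg_eq_zero] at a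
    exact a
  have k3 : prm f (E * Z') (1 - E) = 0 := by
    have a := prm_coc f hf (E * Z') (1 - E) (1 - E)
    have c1 : E * Z' * (1 - E) = 0 := by
      rw [← hZ', Matrix.mul_assoc, z2, Matrix.mul_zero]
    have c2 : (1 - E) * (E * Z') = 0 := by rw [← Matrix.mul_assoc, z1, Matrix.zero_mul]
    have c3 : (1 - E) * (1 - E) = 1 - E := by
      rw [Matrix.mul_sub, Matrix.mul_one, z1, sub_zero]
    rw [c1, c2, c3, prm_zero_left, zero_sub, add_zero, neg_eq_zero] at a
    exact a
  have k4 : prm f (E * Z') (E * Z) = prm f (E * Z') Z := by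
    have a := prm_coc f hf (E * Z') E Z
    have c1 : E * Z' * E = E * Z' := by rw [Matrix.mul_assoc, hZ', ← Matrix.mul_assoc, hE]
    have c2 : Z * (E * Z') = E := by
      rw [← Matrix.mul_assoc, hZ, Matrix.mul_assoc, h1, Matrix.mul_one]
    rw [c1, c2, prm_idem f hf E hE, add_zero, sub_eq_zero] at a
    exact a.symm
  rw [prm_add_left, prm_add_right, prm_add_right, k1, k2, k3, k4]
  simp

theorem prH_tw {C : Type} [Group C] [Fintype C] (φ : C →* G) (z : G) (b : MonoidAlgebra R C) :
    prH f (MonoidAlgebra.mapDomainRingHom R φ b * MonoidAlgebra.single z⁻¹ 1)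
      (MonoidAlgebra.single z 1) = ∑ c, b.coeff c • f (φ c * z⁻¹) z := by
  classical
  induction b using MonoidAlgebra.induction_linear with
  | zero => simp
  | add x y hx hy =>
    rw [map_add, add_mul, map_add, AddMonoidHom.add_apply, hx, hy, ← Finset.sum_add_distrib]
    refine Finset.sum_congr rfl fun c _ => ?_
    rw [MonoidAlgebra.coeff_add, Finsupp.add_apply, add_smul]
  | single g r =>
    rw [MonoidAlgebra.mapDomainRingHom_apply, MonoidAlgebra.mapDomain_single,
      MonoidAlgebra.single_mul_single, prH_single, Finset.sum_eq_single g]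
    · rw [MonoidAlgebra.coeff_single, Finsupp.single_eq_same, mul_one, mul_one]
    · intro c _ hc
      rw [MonoidAlgebra.coeff_single, Finsupp.single_eq_of_ne hc, zero_smul]
    · intro h; exact absurd (Finset.mem_univ _) h

/-- the trace of a symbol -/
theorem Dn_nz {C : Type} [CommGroup C] [Fintype C] (φ : C →* G) (z : G)
    (hz : ∀ c, z * φ c = φ c * z) (x : K0 (MonoidAlgebra R C)) :
    Dn f hf (nz φ z hz x) = ∑ c, bb R x c • f (φ c * z⁻¹) z := by
  induction x using K0.induction with
  | hadd x y hx hy =>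
    rw [map_add, map_add, hx, hy, ← Finset.sum_add_distrib]
    refine Finset.sum_congr rfl fun c _ => ?_
    unfold bb
    rw [map_add, add_smul]
  | hneg x hx =>
    rw [map_neg, map_neg, hx, ← Finset.sum_neg_distrib]
    refine Finset.sum_congr rfl fun c _ => ?_
    unfold bb
    rw [map_neg, neg_smul]
  | hcl n e he =>
    unfold nz
    rw [nu_cl0, Dn_cl, tw_val, tw_inv]
    have hZ : sc (Fin n) (MonoidAlgebra.single z 1 : MonoidAlgebra R G) *
        e.map (MonoidAlgebra.mapDomainRingHom R φ) =
        e.map (MonoidAlgebra.mapDomainRingHom R φ) * sc (Fin n) (MonoidAlgebra.single z 1) :=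
      sc_mul _ _ (cm _ (gu R z) (gu_comm φ z hz) e)
    have hz' : ∀ c, z⁻¹ * φ c = φ c * z⁻¹ := by
      intro c
      have := hz c
      calc z⁻¹ * φ c = z⁻¹ * (φ c * z) * z⁻¹ := by group
        _ = φ c * z⁻¹ := by rw [← this]; group
    have hZ' : sc (Fin n) (MonoidAlgebra.single z⁻¹ 1 : MonoidAlgebra R G) *
        e.map (MonoidAlgebra.mapDomainRingHom R φ) =
        e.map (MonoidAlgebra.mapDomainRingHom R φ) * sc (Fin n) (MonoidAlgebra.single z⁻¹ 1) :=
      sc_mul _ _ (cm _ (gu R z⁻¹) (gu_comm φ z⁻¹ hz') e)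
    have hZZ : sc (Fin n) (MonoidAlgebra.single z 1 : MonoidAlgebra R G) *
        sc (Fin n) (MonoidAlgebra.single z⁻¹ 1) = 1 := by
      rw [sc_mul_sc, MonoidAlgebra.single_mul_single, mul_inv_cancel, one_mul,
        ← MonoidAlgebra.one_def, sc_one]
    have h1 := prm_tw f hf (e.map (MonoidAlgebra.mapDomainRingHom R φ)) (map_idem _ he) _ _
      hZ hZ' hZZ
    refine h1.trans ?_
    unfold prm
    have h2 : ∀ i j, prH f ((e.map (MonoidAlgebra.mapDomainRingHom R φ) *
        sc (Fin n) (MonoidAlgebra.single z⁻¹ 1) : Matrix (Fin n) (Fin n) (MonoidAlgebra R G)) i j)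
        ((sc (Fin n) (MonoidAlgebra.single z 1) :
          Matrix (Fin n) (Fin n) (MonoidAlgebra R G)) j i) =
        if i = j then ∑ c, (e i i).coeff c • f (φ c * z⁻¹) z else 0 := by
      intro i j
      unfold sc
      rw [Matrix.mul_diagonal, Matrix.diagonal_apply]
      by_cases hij : i = j
      · subst hij
        rw [if_pos rfl, if_pos rfl, Matrix.map_apply, prH_tw f hf]
      · rw [if_neg hij, if_neg (Ne.symm hij), map_zero]
    simp only [h2]
    simp only [Finset.sum_ite_eq, Finset.mem_univ, if_true]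
    rw [Finset.sum_comm]
    refine Finset.sum_congr rfl fun c _ => ?_
    rw [bb_cl0, Finset.sum_smul]

end tr

section fin

variable {G R M : Type} [Group G] [CommRing R] [AddCommGroup M] [Module R M]
  (f : G → G → M) (hf : ∀ x y z, f (x * y) z - f x (y * z) + f (z * x) y = 0)

/-- the functional of a function on the group -/
def evf {G R M : Type} [Group G] [CommRing R] [AddCommGroup M] [Module R M] (φ : G → M) :
    MonoidAlgebra R G →+ M :=
  evm fun g : G => AddMonoidHom.mk' (fun r : R => r • φ g) fun r s => add_smul r s _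

theorem evf_single (φ : G → M) (g : G) (r : R) : evf φ (MonoidAlgebra.single g r) = r • φ g := by
  unfold evf
  rw [evm_single]
  rfl

include hf

/-- traces of `K₁` of finite groups vanish -/
theorem prm_fin [Fintype G] (htf : ∀ (n : ℕ) (x : M), 0 < n → n • x = 0 → x = 0)
    {ι : Type} [Fintype ι] [DecidableEq ι] (B A : Matrix ι ι (MonoidAlgebra R G))
    (hBA : B * A = 1) (hAB : A * B = 1) : prm f B A = 0 := by
  apply htf (Fintype.card G) _ Fintype.card_pos
  let ψ : G → M := fun g => ∑ h, f (g * h⁻¹) h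
  let ψ' : G → M := fun g => ∑ h, f (h⁻¹ * g) h
  have h1 : ∀ x y, Fintype.card G • f x y = ψ (x * y) + ψ' (y * x) := by
    intro x y
    have h2 : ∀ h : G, f (x * h) (h⁻¹ * y) - f x y + f (h⁻¹ * y * x) h = 0 := by
      intro h
      have := hf x h (h⁻¹ * y)
      rwa [mul_inv_cancel_left] at this
    have h3 : ∑ h : G, (f (x * h) (h⁻¹ * y) - f x y + f (h⁻¹ * y * x) h) = 0 :=
      Finset.sum_eq_zero fun h _ => h2 h
    rw [Finset.sum_add_distrib, Finset.sum_sub_distrib, Finset.sum_const, Finset.card_univ] at h3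
    have h4 : ∑ h : G, f (x * h) (h⁻¹ * y) = ψ (x * y) := by
      show _ = ∑ h, f (x * y * h⁻¹) h
      refine Fintype.sum_bijective (fun h : G => h⁻¹ * y)
        ((Equiv.inv G).trans (Equiv.mulRight y)).bijective _ _ ?_
      intro h
      congr 1
      group
    have h5 : ∑ h : G, f (h⁻¹ * y * x) h = ψ' (y * x) :=
      Finset.sum_congr rfl fun h _ => by rw [mul_assoc]
    rw [h4, h5] at h3
    have h6 : Fintype.card G • f x y = ψ (x * y) + ψ' (y * x) -
      (ψ (x * y) - Fintype.card G • f x y + ψ' (y * x)) := by abel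
    rw [h6, h3, sub_zero]
  have h7 : ∀ a b : MonoidAlgebra R G, Fintype.card G • prH f a b =
      evf ψ (a * b) + evf ψ' (b * a) := by
    intro a b
    induction a using MonoidAlgebra.induction_linear with
    | zero => simp
    | add x y hx hy =>
      rw [map_add, AddMonoidHom.add_apply, smul_add, hx, hy, add_mul, mul_add, map_add, map_add]
      abel
    | single g r =>
      induction b using MonoidAlgebra.induction_linear with
      | zero => simp
      | add x y hx hy =>
        rw [map_add, smul_add, hx, hy, add_mul, mul_add, map_add, map_add]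
        abel
      | single h s =>
        rw [prH_single, MonoidAlgebra.single_mul_single, MonoidAlgebra.single_mul_single,
          evf_single, evf_single, smul_comm, h1, smul_add, mul_comm s r]
  unfold prm
  rw [Finset.smul_sum]
  have h8 : ∀ i, Fintype.card G • ∑ j, prH f (B i j) (A j i) =
      ∑ j, evf ψ (B i j * A j i) + ∑ j, evf ψ' (A j i * B i j) := by
    intro i
    rw [Finset.smul_sum, ← Finset.sum_add_distrib]
    exact Finset.sum_congr rfl fun j _ => h7 _ _
  rw [Finset.sum_congr rfl fun i _ => h8 i, Finset.sum_add_distrib]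
  have h9 : ∀ i, ∑ j, evf ψ (B i j * A j i) = evf ψ (1 : MonoidAlgebra R G) := by
    intro i
    rw [← map_sum]
    congr 1
    have := congrFun (congrFun hBA i) i
    rw [Matrix.mul_apply, Matrix.one_apply_eq] at this
    exact this
  have h10 : ∑ i, ∑ j, evf ψ' (A j i * B i j) = ∑ j : ι, evf ψ' (1 : MonoidAlgebra R G) := by
    rw [Finset.sum_comm]
    refine Finset.sum_congr rfl fun j _ => ?_
    rw [← map_sum]
    congr 1
    have := congrFun (congrFun hAB j) j
    rw [Matrix.mul_apply, Matrix.one_apply_eq] at this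
    exact this
  rw [Finset.sum_congr rfl fun i _ => h9 i, h10, ← Finset.sum_add_distrib]
  refine Finset.sum_eq_zero fun i _ => ?_
  rw [MonoidAlgebra.one_def, evf_single, evf_single, one_smul, one_smul]
  have h11 := h1 1 1
  rw [mul_one, f_one_one f hf, smul_zero] at h11
  exact h11.symm

end fin

end

end Pool.Agent.T9h42
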