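import Pool.Agent.Y69.KTr
import Pool.Agent.Y69.ColAsm

/-!
# Lifting elements of the kernel of `K₁(S) → K₁(T)` for a surjection `S → T`
-/

set_option linter.unusedSectionVars false

namespace Pool.Agent.T9h42

open Matrix H970SH H842 Pool.Agent.Y69

noncomputable section

section act

variable {T : Type} [Ring T]

/-- the action of a matrix on the first coordinates of a sequence -/
def ac (n : ℕ) (A : Matrix (Fin n) (Fin n) T) (v : ℕ → T) : ℕ → T :=
  fun i => if h : i < n then ∑ j : Fin n, A ⟨i, h⟩ j * v j else v i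

theorem ac_one (n : ℕ) (v : ℕ → T) : ac n (1 : Matrix (Fin n) (Fin n) T) v = v := by
  funext i
  unfold ac
  split_ifs with h
  · rw [Finset.sum_eq_single (⟨i, h⟩ : Fin n)]
    · rw [Matrix.one_apply_eq, one_mul]
    · intro j _ hj
      rw [Matrix.one_apply_ne (Ne.symm hj), zero_mul]
    · intro h1; exact absurd (Finset.mem_univ _) h1
  · rfl

theorem ac_mul (n : ℕ) (A B : Matrix (Fin n) (Fin n) T) (v : ℕ → T) :
    ac n (A * B) v = ac n A (ac n B v) := by
  funext i
  unfold ac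
  split_ifs with h
  · simp only [Fin.is_lt, dif_pos, Matrix.mul_apply, Finset.sum_mul, Finset.mul_sum]
    rw [Finset.sum_comm]
    refine Finset.sum_congr rfl fun j _ => ?_
    refine Finset.sum_congr rfl fun k _ => ?_
    rw [mul_assoc]
  · rfl

/-- the action as a homomorphism to the group of permutations -/
def acU (n : ℕ) : (Matrix (Fin n) (Fin n) T)ˣ →* Equiv.Perm (ℕ → T) where
  toFun A :=
    { toFun := ac n A.val
      invFun := ac n (A⁻¹).val
      left_inv := fun v => by rw [← ac_mul, A.inv_mul, ac_one]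
      right_inv := fun v => by rw [← ac_mul, A.mul_inv, ac_one] }
  map_one' := by
    ext v : 1
    exact ac_one n v
  map_mul' A B := by
    ext v : 1
    exact ac_mul n A.val B.val v

theorem acU_inj (n : ℕ) : Function.Injective (acU (T := T) n) := by
  intro A B h
  apply Units.ext
  ext i j
  have h1 : ac n A.val (fun k => if k = j then 1 else 0) = ac n B.val (fun k => if k = j then 1 else 0) :=
    DFunLike.congr_fun h _
  have h2 : ∀ A : Matrix (Fin n) (Fin n) T, ac n A (fun k => if k = j then 1 else 0) i = A i j := by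
    intro A
    unfold ac
    rw [dif_pos i.2, Finset.sum_eq_single j]
    · show _ * (if (j : ℕ) = j then (1 : T) else 0) = _
      rw [if_pos rfl, mul_one]
    · intro k _ hk
      show _ * (if (k : ℕ) = j then (1 : T) else 0) = _
      rw [if_neg (fun h => hk (Fin.ext h)), mul_zero]
    · intro h1; exact absurd (Finset.mem_univ _) h1
  rw [← h2 A.val, ← h2 B.val, h1]

/-- stabilization -/
theorem acU_stab (n m : ℕ) (A : (Matrix (Fin n) (Fin n) T)ˣ) :
    acU (n + m) (reindexUnit finSumFinEquiv (diagU A (1 : (Matrix (Fin m) (Fin m) T)ˣ))) =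
      acU n A := by
  ext v i
  show ac (n + m) _ v i = ac n A.val v i
  unfold ac
  rw [reindexUnit_val, diagU_val]
  by_cases h : i < n + m
  · rw [dif_pos h, Fin.sum_univ_add]
    by_cases h1 : i < n
    · rw [dif_pos h1]
      have e1 : (⟨i, h⟩ : Fin (n + m)) = Fin.castAdd m ⟨i, h1⟩ := rfl
      rw [e1]
      simp only [Matrix.reindex_apply, Matrix.submatrix_apply, finSumFinEquiv_symm_apply_castAdd,
        finSumFinEquiv_symm_apply_natAdd, Matrix.fromBlocks_apply₁₁, Matrix.fromBlocks_apply₁₂,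
        Matrix.zero_apply, zero_mul, Finset.sum_const_zero, add_zero]
      rfl
    · rw [dif_neg h1]
      obtain ⟨k, rfl⟩ := Nat.exists_eq_add_of_le (not_lt.1 h1)
      have hk : k < m := by omega
      have e1 : (⟨n + k, h⟩ : Fin (n + m)) = Fin.natAdd n ⟨k, hk⟩ := rfl
      rw [e1]
      simp only [Matrix.reindex_apply, Matrix.submatrix_apply, finSumFinEquiv_symm_apply_castAdd,
        finSumFinEquiv_symm_apply_natAdd, Matrix.fromBlocks_apply₂₁, Matrix.fromBlocks_apply₂₂,
        Matrix.zero_apply, zero_mul, Finset.sum_const_zero, zero_add]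
      rw [Finset.sum_eq_single (⟨k, hk⟩ : Fin m)]
      · rw [Units.val_one, Matrix.one_apply_eq, one_mul]
        rfl
      · intro j _ hj
        rw [Units.val_one, Matrix.one_apply_ne (Ne.symm hj), zero_mul]
      · intro h2; exact absurd (Finset.mem_univ _) h2
  · rw [dif_neg h, dif_neg (by omega)]

end act

section lift

variable {S T : Type} [Ring S] [Ring T] (q : S →+* T)

theorem mapUnit_diagU {ι κ : Type} [Fintype ι] [DecidableEq ι] [Fintype κ] [DecidableEq κ]
    (A : (Matrix ι ι S)ˣ) (D : (Matrix κ κ S)ˣ) :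
    mapUnit q (diagU A D) = diagU (mapUnit q A) (mapUnit q D) := by
  apply Units.ext
  rw [mapUnit_val, diagU_val, diagU_val, Matrix.fromBlocks_map, mapUnit_val, mapUnit_val]
  simp

theorem mapUnit_one {ι : Type} [Fintype ι] [DecidableEq ι] :
    mapUnit q (1 : (Matrix ι ι S)ˣ) = 1 := by
  unfold mapUnit
  rw [map_one]

theorem mapUnit_mul {ι : Type} [Fintype ι] [DecidableEq ι] (A B : (Matrix ι ι S)ˣ) :
    mapUnit q (A * B) = mapUnit q A * mapUnit q B := by
  unfold mapUnit
  rw [map_mul]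

theorem mapUnit_inv {ι : Type} [Fintype ι] [DecidableEq ι] (A : (Matrix ι ι S)ˣ) :
    mapUnit q A⁻¹ = (mapUnit q A)⁻¹ := by
  unfold mapUnit
  rw [map_inv]

/-- stabilization of a unit -/
theorem stab_unit {n N : ℕ} (h : n ≤ N) (A : (Matrix (Fin n) (Fin n) S)ˣ) :
    ∃ A' : (Matrix (Fin N) (Fin N) S)ˣ, cl A' = cl A ∧
      acU N (mapUnit q A') = acU n (mapUnit q A) := by
  obtain ⟨m, rfl⟩ := Nat.exists_eq_add_of_le h
  refine ⟨reindexUnit finSumFinEquiv (diagU A (1 : (Matrix (Fin m) (Fin m) S)ˣ)), ?_, ?_⟩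
  · rw [cl_reindex, cl_stab]
  · rw [mapUnit_reindex, mapUnit_diagU, mapUnit_one, acU_stab]

/-- units with a lift of trivial class -/
def Lf {ι : Type} [Fintype ι] [DecidableEq ι] (Y : (Matrix ι ι T)ˣ) : Prop :=
  ∃ B : (Matrix ι ι S)ˣ, cl B = 0 ∧ mapUnit q B = Y

variable {ι κ : Type} [Fintype ι] [DecidableEq ι] [Fintype κ] [DecidableEq κ] {q}

theorem Lf.mul {Y Z : (Matrix ι ι T)ˣ} (h : Lf q Y) (h' : Lf q Z) : Lf q (Y * Z) := by
  obtain ⟨B, hB, hB'⟩ := h
  obtain ⟨C, hC, hC'⟩ := h'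
  exact ⟨B * C, by rw [cl_mul, hB, hC, add_zero], by rw [mapUnit_mul, hB', hC']⟩

theorem Lf.reindex {Y : (Matrix ι ι T)ˣ} (h : Lf q Y) (e : ι ≃ κ) : Lf q (reindexUnit e Y) := by
  obtain ⟨B, hB, hB'⟩ := h
  exact ⟨reindexUnit e B, by rw [cl_reindex, hB], by rw [mapUnit_reindex, hB']⟩

theorem Lf.stab {Y : (Matrix ι ι T)ˣ} (h : Lf q Y) : Lf q (diagU Y (1 : (Matrix κ κ T)ˣ)) := by
  obtain ⟨B, hB, hB'⟩ := h
  exact ⟨diagU B 1, by rw [cl_stab, hB], by rw [mapUnit_diagU, hB', mapUnit_one]⟩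

theorem Lf.up (hq : Function.Surjective q) (X : Matrix ι κ T) : Lf q (upU X) := by
  choose r hr using hq
  refine ⟨upU (X.map r), cl_upU _, ?_⟩
  apply Units.ext
  rw [mapUnit_val, upU_val, upU_val, Matrix.fromBlocks_map]
  congr 1
  · simp
  · ext i j
    exact hr _
  · simp
  · simp

theorem Lf.lo (hq : Function.Surjective q) (X : Matrix κ ι T) : Lf q (loU X) := by
  choose r hr using hq
  refine ⟨loU (X.map r), cl_loU _, ?_⟩
  apply Units.ext
  rw [mapUnit_val, loU_val, loU_val, Matrix.fromBlocks_map]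
  congr 1
  · simp
  · simp
  · ext i j
    exact hr _
  · simp

/-- Whitehead's lemma -/
theorem whitehead_eq (X : (Matrix ι ι T)ˣ) : diagU X X⁻¹ =
    upU X.val * loU (-(X⁻¹).val) * upU X.val * (upU (-1) * loU 1 * upU (-1)) := by
  apply Units.ext
  simp only [Units.val_mul, diagU_val, upU_val, loU_val, Matrix.fromBlocks_multiply]
  have h1 : X.val * (X⁻¹).val = 1 := X.mul_inv
  have h2 : (X⁻¹).val * X.val = 1 := X.inv_mul
  congr 1
  all_goals simp [Matrix.add_mul, Matrix.mul_add, h1, h2, Matrix.mul_assoc]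

theorem Lf.wh (hq : Function.Surjective q) (X : (Matrix ι ι T)ˣ) : Lf q (diagU X X⁻¹) := by
  rw [whitehead_eq]
  exact (((Lf.up hq _).mul (Lf.lo hq _)).mul (Lf.up hq _)).mul
    (((Lf.up hq _).mul (Lf.lo hq _)).mul (Lf.up hq _))

/-- the interchange of two blocks -/
def e3 (ι : Type) : (ι ⊕ ι) ⊕ ι ≃ (ι ⊕ ι) ⊕ ι :=
  ((Equiv.sumAssoc ι ι ι).trans (Equiv.sumCongr (Equiv.refl ι) (Equiv.sumComm ι ι))).trans
    (Equiv.sumAssoc ι ι ι).symm

theorem comm_blocks (C D : (Matrix ι ι T)ˣ) :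
    diagU (diagU (C * D * C⁻¹ * D⁻¹) 1) 1 =
      diagU (diagU C C⁻¹) 1 * reindexUnit (e3 ι) (diagU (diagU D D⁻¹) 1) *
        diagU (diagU C⁻¹ C⁻¹⁻¹) 1 * reindexUnit (e3 ι) (diagU (diagU D⁻¹ D⁻¹⁻¹) 1) := by
  have h1 : ∀ D : (Matrix ι ι T)ˣ, reindexUnit (e3 ι) (diagU (diagU D D⁻¹) 1) =
      diagU (diagU D 1) D⁻¹ := by
    intro D
    apply Units.ext
    ext ((i | i) | i) ((j | j) | j) <;>
      simp [reindexUnit_val, diagU_val, e3]
  have h2 : ∀ (A B A' B' : (Matrix ι ι T)ˣ) , diagU A B * diagU A' B' = diagU (A * A') (B * B') := by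
    intro A B A' B'
    apply Units.ext
    rw [Units.val_mul, diagU_val, diagU_val, diagU_val, Matrix.fromBlocks_multiply]
    simp
  have h3 : ∀ (A : (Matrix (ι ⊕ ι) (ι ⊕ ι) T)ˣ) (B : (Matrix ι ι T)ˣ)
      (A' : (Matrix (ι ⊕ ι) (ι ⊕ ι) T)ˣ) (B' : (Matrix ι ι T)ˣ),
      diagU A B * diagU A' B' = diagU (A * A') (B * B') := by
    intro A B A' B'
    apply Units.ext
    rw [Units.val_mul, diagU_val, diagU_val, diagU_val, Matrix.fromBlocks_multiply]
    simp
  rw [h1, h1, h3, h2, h3, h2, h3, h2]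
  simp

theorem Lf.comm (hq : Function.Surjective q) (C D : (Matrix ι ι T)ˣ) :
    Lf q (diagU (diagU (C * D * C⁻¹ * D⁻¹) (1 : (Matrix ι ι T)ˣ)) (1 : (Matrix ι ι T)ˣ)) := by
  rw [comm_blocks]
  exact (((Lf.wh hq C).stab.mul ((Lf.wh hq D).stab.reindex _)).mul (Lf.wh hq C⁻¹).stab).mul
    ((Lf.wh hq D⁻¹).stab.reindex _)

variable (T) in
/-- the stable linear group -/
def GG : Subgroup (Equiv.Perm (ℕ → T)) where
  carrier := {g | ∃ (n : ℕ) (A : (Matrix (Fin n) (Fin n) T)ˣ), g = acU n A}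
  one_mem' := ⟨0, 1, by rw [map_one]⟩
  mul_mem' := by
    rintro _ _ ⟨n, A, rfl⟩ ⟨m, B, rfl⟩
    obtain ⟨A', -, hA⟩ := stab_unit (RingHom.id T) (le_max_left n m) A
    obtain ⟨B', -, hB⟩ := stab_unit (RingHom.id T) (le_max_right n m) B
    have e : ∀ (k : ℕ) (X : (Matrix (Fin k) (Fin k) T)ˣ), mapUnit (RingHom.id T) X = X :=
      fun k X => rfl
    rw [e, e] at hA hB
    exact ⟨max n m, A' * B', by rw [map_mul, hA, hB]⟩
  inv_mem' := by
    rintro _ ⟨n, A, rfl⟩
    exact ⟨n, A⁻¹, by rw [map_inv]⟩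

variable (q) in
/-- the stable matrices with a lift of trivial class -/
def NN : Subgroup (Equiv.Perm (ℕ → T)) where
  carrier := {g | ∃ (n : ℕ) (B : (Matrix (Fin n) (Fin n) S)ˣ), cl B = 0 ∧ g = acU n (mapUnit q B)}
  one_mem' := ⟨0, 1, cl_one, by rw [mapUnit_one, map_one]⟩
  mul_mem' := by
    rintro _ _ ⟨n, A, hA0, rfl⟩ ⟨m, B, hB0, rfl⟩
    obtain ⟨A', hA1, hA⟩ := stab_unit q (le_max_left n m) A
    obtain ⟨B', hB1, hB⟩ := stab_unit q (le_max_right n m) B
    exact ⟨max n m, A' * B', by rw [cl_mul, hA1, hB1, hA0, hB0, add_zero],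
      by rw [mapUnit_mul, map_mul, hA, hB]⟩
  inv_mem' := by
    rintro _ ⟨n, A, hA0, rfl⟩
    exact ⟨n, A⁻¹, by rw [cl_inv, hA0, neg_zero], by rw [mapUnit_inv, map_inv]⟩

theorem block3 {N : ℕ} (X : (Matrix (Fin N) (Fin N) T)ˣ) :
    reindexUnit (((Equiv.sumAssoc (Fin N) (Fin N) (Fin N)).trans
      (Equiv.sumCongr (Equiv.refl (Fin N)) finSumFinEquiv)).trans finSumFinEquiv)
      (diagU (diagU X 1) 1) =
    reindexUnit finSumFinEquiv (diagU X (1 : (Matrix (Fin (N + N)) (Fin (N + N)) T)ˣ)) := by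
  apply Units.ext
  ext i j
  obtain ⟨i, rfl⟩ := finSumFinEquiv.surjective i
  obtain ⟨j, rfl⟩ := finSumFinEquiv.surjective j
  simp only [reindexUnit_val, Matrix.reindex_apply, Matrix.submatrix_apply,
    Equiv.symm_trans_apply, Equiv.symm_apply_apply, diagU_val]
  rcases i with i | i
  · rcases j with j | j
    · simp [diagU_val]
    · obtain ⟨j, rfl⟩ := finSumFinEquiv.surjective j
      rw [Equiv.sumCongr_symm, Equiv.sumCongr_apply, Equiv.sumCongr_apply, Sum.map_inl, Sum.map_inr,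
        Equiv.symm_apply_apply]
      rcases j with j | j <;> simp [diagU_val]
  · obtain ⟨i, rfl⟩ := finSumFinEquiv.surjective i
    rcases j with j | j
    · rw [Equiv.sumCongr_symm, Equiv.sumCongr_apply, Equiv.sumCongr_apply, Sum.map_inl, Sum.map_inr,
        Equiv.symm_apply_apply]
      rcases i with i | i <;> simp [diagU_val]
    · obtain ⟨j, rfl⟩ := finSumFinEquiv.surjective j
      rw [Equiv.sumCongr_symm, Equiv.sumCongr_apply, Equiv.sumCongr_apply, Sum.map_inr, Sum.map_inr,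
        Equiv.symm_apply_apply, Equiv.symm_apply_apply]
      rcases i with i | i <;> rcases j with j | j
      · simp [Matrix.one_apply]
      · simp [Matrix.one_apply]
        intro h
        have h1 := congrArg Fin.val h
        simp at h1
        omega
      · simp [Matrix.one_apply]
        intro h
        have h1 := congrArg Fin.val h
        simp at h1
        omega
      · simp [Matrix.one_apply]

theorem comm_le (hq : Function.Surjective q) :
    commutator (GG T) ≤ (NN q).comap (GG T).subtype := by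
  rw [commutator_def, Subgroup.commutator_le]
  rintro ⟨_, n, C, rfl⟩ - ⟨_, m, D, rfl⟩ -
  obtain ⟨C', -, hC⟩ := stab_unit (RingHom.id T) (le_max_left n m) C
  obtain ⟨D', -, hD⟩ := stab_unit (RingHom.id T) (le_max_right n m) D
  have e : ∀ (k : ℕ) (X : (Matrix (Fin k) (Fin k) T)ˣ), mapUnit (RingHom.id T) X = X :=
    fun k X => rfl
  rw [e, e] at hC hD
  show _ ∈ NN q
  rw [commutatorElement_def]
  show acU n C * acU m D * (acU n C)⁻¹ * (acU m D)⁻¹ ∈ NN q
  rw [← hC, ← hD]
  obtain ⟨B, hB, hB'⟩ := ((Lf.comm hq C' D').reindex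
    (((Equiv.sumAssoc (Fin (max n m)) (Fin (max n m)) (Fin (max n m))).trans
      (Equiv.sumCongr (Equiv.refl (Fin (max n m))) finSumFinEquiv)).trans finSumFinEquiv))
  refine ⟨max n m + (max n m + max n m), B, hB, ?_⟩
  rw [hB', ← map_inv, ← map_inv, ← map_mul, ← map_mul, ← map_mul,
    ← acU_stab (max n m) (max n m + max n m), block3]

/-- the classes of the invertible matrices in the abelianized stable linear group -/
theorem cl_ab {n : ℕ} (A : (Matrix (Fin n) (Fin n) T)ˣ) (h : cl A = 0) :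
    (⟨acU n A, n, A, rfl⟩ : GG T) ∈ commutator (GG T) := by
  obtain ⟨Φ, hΦ⟩ := KTr.K1_lift (R := T) (A := Additive (Abelianization (GG T)))
    (fun n A => Additive.ofMul (Abelianization.of (⟨acU n A, n, A, rfl⟩ : GG T)))
    (by
      intro n M N
      rw [← ofMul_mul, ← map_mul]
      congr 2
      apply Subtype.ext
      exact map_mul (acU n) M N)
    (by
      intro n M N hN
      congr 2
      apply Subtype.ext
      show acU (n + 1) N = acU n M
      rw [← acU_stab n 1 M]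
      congr 1
      apply Units.ext
      rw [hN, reindexUnit_val, diagU_val, Units.val_one])
  have h1 := hΦ n A
  rw [← cl_fin, h, map_zero] at h1
  have h2 : Abelianization.of (⟨acU n A, n, A, rfl⟩ : GG T) = 1 := Additive.ofMul.injective h1.symm
  rw [← Abelianization.ker_of]
  exact h2

/-- **Lifting of the kernel.** -/
theorem ker_lift (hq : Function.Surjective q) {n : ℕ} (A : (Matrix (Fin n) (Fin n) S)ˣ)
    (h : cl (mapUnit q A) = 0) :
    ∃ (N : ℕ) (B : (Matrix (Fin N) (Fin N) S)ˣ), cl B = cl A ∧ mapUnit q B = 1 := by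
  obtain ⟨m, B, hB, hB'⟩ := comm_le hq (cl_ab _ h)
  have hB' : acU n (mapUnit q A) = acU m (mapUnit q B) := hB'
  obtain ⟨A1, hA1, hA2⟩ := stab_unit q (le_max_left n m) A
  obtain ⟨B1, hB1, hB2⟩ := stab_unit q (le_max_right n m) B
  refine ⟨max n m, A1 * B1⁻¹, ?_, ?_⟩
  · rw [cl_mul, cl_inv, hA1, hB1, hB, neg_zero, add_zero]
  · rw [mapUnit_mul, mapUnit_inv, mul_inv_eq_one]
    apply acU_inj
    rw [hA2, hB2, hB']

end lift

end

end Pool.Agent.T9h42
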