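import Pool.Agent.T9h42.DP.Lft
import Pool.Agent.T9h42.DP.Cnj
import Pool.Agent.T9h42.DP.Wht
import Pool.Agent.Y69.TP.ModArt

/-!
# Lifting `K₁` of the finite subgroups
-/

set_option linter.unusedSectionVars false

namespace Pool.Agent.T9h42

open MonoidAlgebra H970SH H842 Pool.Agent.Y69 Pool.Agent.Y778.NK

noncomputable section

section loc

variable {p : ℕ} {k R W : Type} [Field k] [CommRing R] [CommRing W] (D : Ld p k R W)
  {C : Type} [CommGroup C] [Finite C]

theorem mapq_single {C : Type} [Group C] (c : C) (r : R) :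
    mapRingHom C D.q (single c r) = single c (D.q r) := by simp

theorem mapq_surj {C : Type} [Group C] : Function.Surjective (mapRingHom C D.q) := by
  intro x
  induction x using MonoidAlgebra.induction_linear with
  | zero => exact ⟨0, map_zero _⟩
  | add x y hx hy =>
    obtain ⟨a, rfl⟩ := hx
    obtain ⟨b, rfl⟩ := hy
    exact ⟨a + b, map_add _ _ _⟩
  | single c r =>
    obtain ⟨s, rfl⟩ := D.hq r
    exact ⟨single c s, mapq_single D c s⟩

theorem mapq_coeff {C : Type} [Group C] (x : MonoidAlgebra R C) (c : C) :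
    (mapRingHom C D.q x).coeff c = D.q (x.coeff c) := by
  induction x using MonoidAlgebra.induction_linear with
  | zero => simp
  | add x y hx hy =>
    rw [map_add, coeff_add, coeff_add, Finsupp.add_apply, Finsupp.add_apply, hx, hy, map_add]
  | single g r =>
    classical
    rw [mapq_single, coeff_single, coeff_single, Finsupp.single_apply, Finsupp.single_apply]
    split_ifs
    · rfl
    · rw [map_zero]

theorem isUnit_mapq (d : MonoidAlgebra R C) (h : IsUnit (mapRingHom C D.q d)) : IsUnit d := by
  by_contra hd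
  obtain ⟨M, hM, hdM⟩ := exists_max_ideal_of_mem_nonunits hd
  have hmax : (M.comap (algebraMap R (MonoidAlgebra R C))).IsMaximal :=
    Ideal.isMaximal_comap_of_isIntegral_of_isMaximal M
  have h1 : ∀ r, D.q r = 0 → algebraMap R (MonoidAlgebra R C) r ∈ M := by
    intro r hr
    by_contra hrM
    have h2 : r ∉ M.comap (algebraMap R (MonoidAlgebra R C)) := hrM
    obtain ⟨s, hs⟩ := hmax.exists_inv h2
    obtain ⟨t, ht, hst⟩ := hs
    have h3 : IsUnit t := by
      apply D.loc
      have h4 : D.q (s * r + t) = 1 := by rw [hst, map_one]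
      rw [map_add, map_mul, hr, mul_zero, zero_add] at h4
      rw [h4]
      exact one_ne_zero
    exact hmax.ne_top (Ideal.eq_top_of_isUnit_mem _ ht h3)
  have h2 : ∀ x : MonoidAlgebra R C, mapRingHom C D.q x = 0 → x ∈ M := by
    intro x hx
    have h3 : x = x.coeff.sum fun c r => single c r := by
      apply coeff_injective
      ext c
      rw [Finsupp.sum, coeff_sum, Finsupp.finsetSum_apply]
      classical
      simp only [coeff_single, Finsupp.single_apply]
      rw [Finset.sum_ite_eq']
      split_ifs with h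
      · rfl
      · simpa using h
    rw [h3, Finsupp.sum]
    refine Ideal.sum_mem _ fun c _ => ?_
    have h4 : single c (x.coeff c) = algebraMap R (MonoidAlgebra R C) (x.coeff c) * single c 1 := by
      rw [MonoidAlgebra.coe_algebraMap]
      show _ = single 1 (x.coeff c) * single c 1
      rw [single_mul_single, one_mul, mul_one]
    rw [h4]
    apply Ideal.mul_mem_right
    apply h1
    rw [← mapq_coeff, hx]
    simp
  obtain ⟨y, hy⟩ := h.exists_right_inv
  obtain ⟨y', rfl⟩ := mapq_surj D y
  have h3 : d * y' - 1 ∈ M := by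
    apply h2
    rw [map_sub, map_mul, hy, map_one, sub_self]
  apply hM.ne_top
  rw [Ideal.eq_top_iff_one]
  have h4 : (1 : MonoidAlgebra R C) = d * y' - (d * y' - 1) := by abel
  rw [h4]
  exact M.sub_mem (M.mul_mem_right _ hdM) h3

theorem lift_unit {n : ℕ} (A : (Matrix (Fin n) (Fin n) (MonoidAlgebra k C))ˣ) :
    ∃ B : (Matrix (Fin n) (Fin n) (MonoidAlgebra R C))ˣ, mapUnit (mapRingHom C D.q) B = A := by
  choose X hX using fun i j => mapq_surj D (C := C) (A.1 i j)
  have h1 : (Matrix.of X).map (mapRingHom C D.q) = A.1 := by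
    ext i j
    rw [Matrix.map_apply, Matrix.of_apply, hX]
  have h2 : IsUnit (Matrix.of X) := by
    rw [Matrix.isUnit_iff_isUnit_det]
    apply isUnit_mapq D
    have h3 : mapRingHom C D.q (Matrix.of X).det = A.1.det := by
      rw [RingHom.map_det]
      congr 1
    rw [h3]
    exact (Matrix.isUnit_iff_isUnit_det _).1 A.isUnit
  obtain ⟨B, hB⟩ := h2
  refine ⟨B, ?_⟩
  apply Units.ext
  rw [mapUnit_val, hB, h1]

end loc

section tr

variable {W : Type} [CommRing W] {C G : Type} [Group C] [Group G]

theorem prH_mapDomain (f : G → G → W) (φ : C →* G) (a b : MonoidAlgebra W C) :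
    prH f (mapDomainRingHom W φ a) (mapDomainRingHom W φ b) =
      prH (fun x y => f (φ x) (φ y)) a b := by
  induction a using MonoidAlgebra.induction_linear with
  | zero => simp
  | add x y hx hy =>
    rw [map_add, map_add, map_add, AddMonoidHom.add_apply, AddMonoidHom.add_apply, hx, hy]
  | single g r =>
    induction b using MonoidAlgebra.induction_linear with
    | zero => simp
    | add x y hx hy => rw [map_add, map_add, map_add, hx, hy]
    | single h s =>
      rw [mapDomainRingHom_apply, mapDomainRingHom_apply, mapDomain_single, mapDomain_single,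
        prH_single, prH_single]

variable (f : G → G → W) (hf : ∀ x y z, f (x * y) z - f x (y * z) + f (z * x) y = 0)

/-- traces of classes from finite groups vanish -/
theorem Dn_fin [Finite C] (htf : ∀ (n : ℕ) (x : W), 0 < n → n • x = 0 → x = 0) (φ : C →* G)
    (x : K1 (MonoidAlgebra W C)) : Dn f hf (K1map (mapDomainRingHom W φ) x) = 0 := by
  classical
  have := Fintype.ofFinite C
  obtain ⟨n, A, rfl⟩ := K1_exists x
  rw [K1map_cl, Dn_cl]
  have h1 : prm f ((mapUnit (mapDomainRingHom W φ) A)⁻¹).val
      (mapUnit (mapDomainRingHom W φ) A).val =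
      prm (fun x y => f (φ x) (φ y)) (A⁻¹).val A.val := by
    unfold prm
    refine Finset.sum_congr rfl fun i _ => ?_
    refine Finset.sum_congr rfl fun j _ => ?_
    exact prH_mapDomain f φ _ _
  rw [h1]
  refine prm_fin (fun x y => f (φ x) (φ y)) ?_ htf _ _ (Units.inv_mul A) (Units.mul_inv A)
  intro x y z
  have := hf (φ x) (φ y) (φ z)
  rwa [← map_mul, ← map_mul, ← map_mul] at this

end tr

section colim

variable {p : ℕ} [hp : Fact p.Prime] {k R W : Type} [Field k] [CharP k p] [CommRing R] [CommRing W]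
  (D : Ld p k R W) (G : Type) [Group G]

/-- the elements with liftings whose traces vanish -/
def Lq : AddSubgroup (K1 (MonoidAlgebra k G)) where
  carrier := {y | ∃ (m : ℕ) (a : K1 (MonoidAlgebra R G)), 0 < m ∧
    K1map (mapRingHom G D.q) a = m • y ∧
    ∀ (f : G → G → W) (hf : ∀ x y z, f (x * y) z - f x (y * z) + f (z * x) y = 0),
      Dn f hf (K1map (mapRingHom G D.i) a) = 0}
  zero_mem' := ⟨1, 0, one_pos, by rw [map_zero, smul_zero], fun f hf => by
    rw [map_zero, map_zero]⟩
  add_mem' := by
    rintro x y ⟨m, a, hm, ha, h⟩ ⟨n, b, hn, hb, h'⟩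
    refine ⟨m * n, n • a + m • b, Nat.mul_pos hm hn, ?_, fun f hf => ?_⟩
    · rw [map_add, map_nsmul, map_nsmul, ha, hb, smul_add, ← mul_smul, ← mul_smul, mul_comm n m]
    · rw [map_add, map_nsmul, map_nsmul, map_add, map_nsmul, map_nsmul, h f hf, h' f hf,
        smul_zero, smul_zero, add_zero]
  neg_mem' := by
    rintro x ⟨m, a, hm, ha, h⟩
    refine ⟨m, -a, hm, ?_, fun f hf => ?_⟩
    · rw [map_neg, ha, smul_neg]
    · rw [map_neg, map_neg, h f hf, neg_zero]

theorem Lq_of {y : K1 (MonoidAlgebra k G)} (m : ℕ) (hm : 0 < m) (h : m • y ∈ Lq D G) :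
    y ∈ Lq D G := by
  obtain ⟨n, a, hn, ha, h⟩ := h
  exact ⟨n * m, a, Nat.mul_pos hn hm, by rw [ha, mul_smul], h⟩

variable {G}

theorem mapi_mapDomain {C C' : Type} [Group C] [Group C'] (f : C →* C') {A B : Type} [CommRing A]
    [CommRing B] (i : A →+* B) : (mapRingHom C' i).comp (mapDomainRingHom A f) =
      (mapDomainRingHom B f).comp (mapRingHom C i) := by
  apply RingHom.coe_addMonoidHom_injective
  apply MonoidAlgebra.addMonoidHom_ext
  intro g r
  show mapRingHom C' i (mapDomainRingHom A f (single g r)) =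
    mapDomainRingHom B f (mapRingHom C i (single g r))
  rw [mapDomainRingHom_apply, mapDomain_single]
  have h2 : ∀ (C : Type) [Group C] (d : C) (b : A),
      mapRingHom C i (single d b) = single d (i b) := fun C _ d b => by simp
  rw [h2, h2, mapDomainRingHom_apply, mapDomain_single]

theorem Lq_fin (htf : ∀ (n : ℕ) (x : W), 0 < n → n • x = 0 → x = 0) {H : Type} [Group H] [Finite H]
    (φ : H →* G) (x : K1 (MonoidAlgebra k H)) : K1map (mapDomainRingHom k φ) x ∈ Lq D G := by
  obtain ⟨m, hm, h⟩ := Pool.Agent.Y69.TP.artinP p (CharP.cast_eq_zero k p) x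
  apply Lq_of D G m hm
  rw [← map_nsmul]
  refine (AddSubgroup.closure_le (K := (Lq D G).comap (K1map (mapDomainRingHom k φ)))).2 ?_ h
  rintro _ ⟨C, hC, n, A, rfl⟩
  let _ : CommGroup C := hC.commGroup
  obtain ⟨B, hB⟩ := lift_unit D A
  refine ⟨1, K1map (mapDomainRingHom R (φ.comp C.subtype)) (cl B), one_pos, ?_, fun f hf => ?_⟩
  · rw [one_smul, K1map_comp, mapi_mapDomain, ← K1map_comp, K1map_cl, hB, ← K1map_cl, K1map_comp]
    congr 2
    rw [← mapDomainRingHom_comp']
  · rw [K1map_comp, mapi_mapDomain, ← K1map_comp]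
    exact Dn_fin f hf htf _ _

theorem Lq_colim (htf : ∀ (n : ℕ) (x : W), 0 < n → n • x = 0 → x = 0) (x : K1Colim k G) :
    K1assembly k G x ∈ Lq D G := by
  induction x using Colim.induction with
  | h0 => rw [map_zero]; exact zero_mem _
  | hadd x y hx hy => rw [map_add]; exact add_mem hx hy
  | hneg x hx => rw [map_neg]; exact neg_mem hx
  | hι H x =>
    have : Finite H.1 := H.2
    rw [K1assembly_ι]
    exact Lq_fin D htf _ x

end colim

end

end Pool.Agent.T9h42
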