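import Pool.Agent.T9h42.DP.Gene
import Pool.Agent.T9h42.DP.K1L

/-!
# The map from the group of symbols to `K₁`
-/

set_option linter.unusedSectionVars false

namespace Pool.Agent.T9h42

open MonoidAlgebra H970SH H842 Pool.Agent.Y69 Pool.Agent.Y69.StepC Pool.Agent.Y778.NK

noncomputable section

section nzz

variable {A B : Type} [CommRing A] [CommRing B] {G : Type} [Group G]

theorem nz_mul {C : Type} [Group C] (φ : C →* G) (z w : G)
    (hz : ∀ c, z * φ c = φ c * z) (hw : ∀ c, w * φ c = φ c * w)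
    (hzw : ∀ c, (z * w) * φ c = φ c * (z * w)) (x : K0 (MonoidAlgebra A C)) :
    nz φ (z * w) hzw x = nz φ z hz x + nz φ w hw x := by
  unfold nz
  rw [← nu_mul (mapDomainRingHom A φ) (gu A z) (gu_comm φ z hz) (gu A w) (gu_comm φ w hw)
    (by rw [← gu_mul]; exact gu_comm φ _ hzw)]
  congr 2
  exact gu_mul z w

theorem nz_conj {C D : Type} [Group C] [Group D] (φ : C →* G) (ψ : D →* G) (f : D →* C) (g : G)
    (h : ∀ x, φ (f x) = g * ψ x * g⁻¹) (z z' : G) (hz : ∀ c, z * φ c = φ c * z)
    (hz' : ∀ c, z' * ψ c = ψ c * z') (hzz : z = g * z' * g⁻¹) (u : K0 (MonoidAlgebra A D)) :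
    nz φ z hz (K0.map (mapDomainRingHom A f) u) = nz ψ z' hz' u := by
  unfold nz
  have h0 : ∀ s, ((gu A z : (MonoidAlgebra A G)ˣ) : MonoidAlgebra A G) *
      ((mapDomainRingHom A φ).comp (mapDomainRingHom A f)) s =
      ((mapDomainRingHom A φ).comp (mapDomainRingHom A f)) s *
        ((gu A z : (MonoidAlgebra A G)ˣ) : MonoidAlgebra A G) := fun s => gu_comm φ z hz _
  rw [nu_comp _ _ _ _ h0]
  apply nu_conj (mapDomainRingHom A ψ) (gu A z') (gu_comm ψ z' hz') _ (gu A g)
  · intro s
    show mapDomainRingHom A φ (mapDomainRingHom A f s) = single g 1 * mapDomainRingHom A ψ s *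
      single g⁻¹ 1
    induction s using MonoidAlgebra.induction_linear with
    | zero => simp
    | add x y hx hy => rw [map_add, map_add, map_add, hx, hy, mul_add, add_mul]
    | single c r =>
      simp only [mapDomainRingHom_apply, mapDomain_single]
      rw [single_mul_single, single_mul_single, one_mul, mul_one, h]
  · show single z 1 = single g 1 * single z' 1 * single g⁻¹ 1
    rw [single_mul_single, single_mul_single, one_mul, mul_one, hzz]

theorem nz_target (h : A →+* B) {C : Type} [Group C] (φ : C →* G) (z : G)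
    (hz : ∀ c, z * φ c = φ c * z) (x : K0 (MonoidAlgebra A C)) :
    K1map (mapRingHom G h) (nz φ z hz x) = nz φ z hz (K0.map (mapRingHom C h) x) := by
  unfold nz
  have e1 : ((gu B z : (MonoidAlgebra B G)ˣ) : MonoidAlgebra B G) =
      mapRingHom G h ((gu A z : (MonoidAlgebra A G)ˣ) : MonoidAlgebra A G) := by
    show single z 1 = mapRingHom G h (single z 1)
    simp
  have h0 : ∀ s, ((gu B z : (MonoidAlgebra B G)ˣ) : MonoidAlgebra B G) *
      ((mapDomainRingHom B φ).comp (mapRingHom C h)) s =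
      ((mapDomainRingHom B φ).comp (mapRingHom C h)) s *
        ((gu B z : (MonoidAlgebra B G)ˣ) : MonoidAlgebra B G) := fun s => gu_comm φ z hz _
  have e2 : (mapRingHom G h).comp (mapDomainRingHom A φ) =
      (mapDomainRingHom B φ).comp (mapRingHom C h) := mapi_mapDomain φ h
  rw [nu_comp _ _ _ _ h0, nu_target _ _ _ (mapRingHom G h) (gu B z) e1 (by
    intro s
    rw [e2]
    exact h0 s)]
  congr 2

end nzz

section beta

variable (k : Type) [Field k] (G : Type) [Group G]

theorem fin_comm (H : FinSub G) (z : Cz H.1) (c : H.1) :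
    (z : G) * H.1.subtype c = H.1.subtype c * z :=
  (Subgroup.mem_centralizer_iff.1 z.2 c c.2).symm

/-- the symbol map on a finite subgroup -/
def bth (H : FinSub G) (z : Cz H.1) : GK0 k H.1 →+ K1 (MonoidAlgebra k G) :=
  nz H.1.subtype (z : G) (fin_comm G H z)

theorem bth_mul (H : FinSub G) (z z' : Cz H.1) (x : GK0 k H.1) :
    bth k G H (z * z') x = bth k G H z x + bth k G H z' x :=
  nz_mul H.1.subtype (z : G) z' (fin_comm G H z) (fin_comm G H z') (fin_comm G H (z * z')) x

theorem bth_conj (H K : FinSub G) (g : G) (φ : H.1 →* K.1) (z : Cz H.1) (z' : Cz K.1)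
    (hφ : ∀ h : H.1, (φ h : G) = g * h * g⁻¹) (hz : (z' : G) = g * z * g⁻¹) (x : GK0 k H.1) :
    bth k G K z' (GK0.map φ x) = bth k G H z x :=
  nz_conj K.1.subtype H.1.subtype φ g hφ z' z (fin_comm G K z') (fin_comm G H z) hz x

/-- the map of the group of symbols to `K₁(k[G])` -/
def bt : ZK k G →+ K1 (MonoidAlgebra k G) := ZK.lift (bth k G) (bth_mul k G) (bth_conj k G)

theorem bt_of (H : FinSub G) (z : Cz H.1) (x : GK0 k H.1) :
    bt k G (ZK.of H z x) = nz H.1.subtype (z : G) (fin_comm G H z) x :=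
  ZK.lift_of _ _ _ H z x

variable {G}

theorem bt_sz {C : Type} [Group C] [Finite C] (φ : C →* G) (z : G)
    (hz : ∀ c, z * φ c = φ c * z) (u : GK0 k C) : bt k G (sz k φ z hz u) = nz φ z hz u := by
  rw [sz_apply, bt_of]
  exact nz_conj (rg φ).1.subtype φ (rrg φ) 1 (fun x => by
    rw [one_mul, inv_one, mul_one]; rfl) z z _ hz (by group) u

end beta

section val

variable {p : ℕ} [hp : Fact p.Prime] {k R W : Type} [Field k] [CommRing R] [CommRing W]
  [IsDomain W] (D : Ld p k R W) (htf : TF R) {G : Type} [Group G]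

/-- the lifting -/
def ZObj.lf (X : ZObj p R G) : K1 (MonoidAlgebra R G) := nz X.φ X.z X.hz (kap (ma_tf htf) X.u)

theorem ZObj.lf_q (X : ZObj p R G) : K1map (mapRingHom G D.q) (X.lf htf) = bt k G (X.val D htf) := by
  show _ = bt k G (sz k X.φ X.z X.hz (gq D X.C (kap (ma_tf htf) X.u)))
  rw [bt_sz]
  exact nz_target D.q X.φ X.z X.hz _

theorem mapi_coeff {A B : Type} [CommRing A] [CommRing B] (i : A →+* B) {C : Type} [Group C]
    (x : MonoidAlgebra A C) (c : C) : (mapRingHom C i x).coeff c = i (x.coeff c) := by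
  induction x using MonoidAlgebra.induction_linear with
  | zero => simp
  | add x y hx hy =>
    rw [map_add, coeff_add, coeff_add, Finsupp.add_apply, Finsupp.add_apply, hx, hy, map_add]
  | single g r =>
    classical
    have h2 : mapRingHom C i (single g r) = single g (i r) := by simp
    rw [h2, coeff_single, coeff_single, Finsupp.single_apply, Finsupp.single_apply]
    split_ifs
    · rfl
    · rw [map_zero]

theorem ZObj.lf_trc (htfW : TF W) (X : ZObj p R G) {c : G} {χ : G → W} (hχ : AddOnC c χ) :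
    Dn (cocf c χ) (cocf_coc hχ) (K1map (mapRingHom G D.i) (X.lf htf)) = X.trc D c χ := by
  have := Fintype.ofFinite X.C
  unfold ZObj.lf
  rw [nz_target, Dn_nz]
  show _ = tau D c χ X.φ X.z X.u
  rw [tau_eq]
  refine Finset.sum_congr rfl fun y _ => ?_
  rw [smul_eq_mul]
  congr 1
  rw [kap_map (ma_tf htf) (ma_tf htfW), bb_kap htfW]
  exact mapi_coeff D.i _ _

end val

end

end Pool.Agent.T9h42
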