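import Pool.Agent.Y69.TP.ModArt
import Pool.Agent.Y43.NK.Artin

/-!
# Artin induction for `K₀(R[G])`, `R` a commutative ring of characteristic `p`

The proof is that of `Pool.Agent.Y69.TP.ModArt` (for `K₁`).
-/

set_option linter.unusedSectionVars false

namespace Pool.Agent.T9h42

open Matrix Pool.Agent.Y778.NK
open H842 (XX artin_matrix)
open Pool.Agent.Y69.TP (rth rth_single rth_intertwine bd bd_mul bd_one rth_zero blk rth_blk spl
  spl_symm_inl spl_symm_inr blk_congr rd rd_apply exists_conj smith conjR pm rth_pm isUnit_int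
  sum_split)
open Pool.Agent.Y43.NK (bl bl_idem yy yy_eq yy_XX yy_point yy_induced cl0_compare)

noncomputable section

section tri

variable {S : Type} [Ring S] {α β : Type} [Fintype α] [DecidableEq α] [Fintype β] [DecidableEq β]

/-- upper triangular idempotents -/
theorem cl0_upper {A : Matrix α α S} {D : Matrix β β S} (hA : A * A = A) (hD : D * D = D)
    (B : Matrix α β S) (h : fromBlocks A B 0 D * fromBlocks A B 0 D = fromBlocks A B 0 D) :
    cl0 (fromBlocks A B 0 D) h = cl0 A hA + cl0 D hD := by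
  rw [← cl0_blocks hA hD]
  have h1 : A * B + B * D = B := by
    have h2 := congrArg Matrix.toBlocks₁₂ h
    rw [fromBlocks_multiply, toBlocks_fromBlocks₁₂, toBlocks_fromBlocks₁₂] at h2
    exact h2
  have h3 : A * B * D = 0 := by
    have h4 := congrArg (fun M => A * M) h1
    simp only [Matrix.mul_add, ← Matrix.mul_assoc, hA] at h4
    exact left_eq_add.1 h4.symm
  apply cl0_conj (blocks_idem hA hD) h (fromBlocks 1 (-(A * B - B * D)) 0 1)
    (fromBlocks 1 (A * B - B * D) 0 1)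
  · simp [fromBlocks_multiply]
  · simp only [fromBlocks_multiply]
    congr 1
    · simp
    · simp only [Matrix.one_mul, Matrix.mul_zero, add_zero, Matrix.zero_mul, zero_add,
        Matrix.mul_sub, Matrix.sub_mul, Matrix.neg_mul, Matrix.mul_one, ← Matrix.mul_assoc, hA,
        h3]
      rw [Matrix.mul_assoc B D D, hD]
      have h5 : A * B - 0 + -(0 - B * D) = A * B + B * D := by abel
      rw [h5, h1]
    · simp
    · simp

/-- lower triangular idempotents -/
theorem cl0_lower {A : Matrix α α S} {D : Matrix β β S} (hA : A * A = A) (hD : D * D = D)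
    (B : Matrix β α S) (h : fromBlocks A 0 B D * fromBlocks A 0 B D = fromBlocks A 0 B D) :
    cl0 (fromBlocks A 0 B D) h = cl0 A hA + cl0 D hD := by
  have h1 : fromBlocks D B 0 A * fromBlocks D B 0 A = fromBlocks D B 0 A := by
    have h2 : B * A + D * B = B := by
      have h2 := congrArg Matrix.toBlocks₂₁ h
      rw [fromBlocks_multiply, toBlocks_fromBlocks₂₁, toBlocks_fromBlocks₂₁] at h2
      exact h2
    rw [fromBlocks_multiply, hA, hD, add_comm (D * B), h2]
    simp
  rw [add_comm, ← cl0_upper hD hA B h1]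
  apply cl0_congr (Equiv.sumComm α β)
  rintro (i | i) (j | j) <;> rfl

end tri

section rep

variable {R : Type} [CommRing R] {G : Type} [Group G] {N N' : Type} [Fintype N] [DecidableEq N]
  [Fintype N'] [DecidableEq N'] {ι : Type} [Fintype ι] [DecidableEq ι]
  {w : Matrix ι ι (MonoidAlgebra R G)} (hw : w * w = w)

/-- the twisted class -/
def zz0 (ρ : G →* Matrix N N R) : K0 (MonoidAlgebra R G) :=
  cl0 (bl (rth ρ) w) (bl_idem _ hw)

theorem zz0_sim (ρ : G →* Matrix N N R) (σ : G →* Matrix N' N' R) (A : Matrix N N' R)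
    (A' : Matrix N' N R) (h1 : A * A' = 1) (h2 : A' * A = 1) (h3 : ∀ g, ρ g * A = A * σ g) :
    zz0 hw ρ = zz0 hw σ := by
  unfold zz0
  apply cl0_compare _ _ (bd ι G A) (bd ι G A') (1 : R) isUnit_one
  · rw [bd_mul, h1, bd_one, one_smul]
  · rw [bd_mul, h2, bd_one, one_smul]
  · ext ⟨i, x⟩ ⟨j, y⟩ : 1
    rw [Matrix.mul_apply, Matrix.mul_apply, Fintype.sum_prod_type, Fintype.sum_prod_type,
      Finset.sum_eq_single j, Finset.sum_eq_single i]
    · simp only [bd, bl, Matrix.of_apply, if_true]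
      exact rth_intertwine ρ σ A h3 _ _ _
    · intro k _ hk
      simp [bd, Ne.symm hk]
    · simp
    · intro k _ hk
      simp [bd, hk]
    · simp

variable (e : N → Prop) [DecidablePred e]

/-- lower block triangular representations -/
theorem zz0_lower (ρ : G →* Matrix N N R) (h0 : ∀ g x y, e x → ¬ e y → ρ g x y = 0) (hm) (hm') :
    zz0 hw ρ = zz0 hw (blk ρ e hm) + zz0 hw (blk ρ (fun x => ¬ e x) hm') := by
  unfold zz0
  have hM : ∀ p q, (bl (rth ρ) w) p q = (fromBlocks (bl (rth (blk ρ e hm)) w) 0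
      (Matrix.of fun (p : ι × {x // ¬ e x}) (q : ι × {x // e x}) => rth ρ (w p.1 q.1) p.2 q.2)
      (bl (rth (blk ρ (fun x => ¬ e x) hm')) w)) (spl ι e p) (spl ι e q) := by
    intro p q
    obtain ⟨p, rfl⟩ := (spl ι e).symm.surjective p
    obtain ⟨q, rfl⟩ := (spl ι e).symm.surjective q
    rw [Equiv.apply_symm_apply, Equiv.apply_symm_apply]
    rcases p with ⟨i, x⟩ | ⟨i, x⟩ <;> rcases q with ⟨j, y⟩ | ⟨j, y⟩
    · rw [spl_symm_inl, spl_symm_inl, Matrix.fromBlocks_apply₁₁]
      exact (rth_blk ρ e hm _ _ _).symm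
    · rw [spl_symm_inl, spl_symm_inr, Matrix.fromBlocks_apply₁₂]
      exact rth_zero ρ _ _ (fun g => h0 g x y x.2 y.2) _
    · rw [spl_symm_inl, spl_symm_inr, Matrix.fromBlocks_apply₂₁]
      rfl
    · rw [spl_symm_inr, spl_symm_inr, Matrix.fromBlocks_apply₂₂]
      exact (rth_blk ρ (fun x => ¬ e x) hm' _ _ _).symm
  have hI : (fromBlocks (bl (rth (blk ρ e hm)) w) 0
      (Matrix.of fun (p : ι × {x // ¬ e x}) (q : ι × {x // e x}) => rth ρ (w p.1 q.1) p.2 q.2)
      (bl (rth (blk ρ (fun x => ¬ e x) hm')) w)) = (bl (rth ρ) w).submatrix (spl ι e).symm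
        (spl ι e).symm := by
    ext p q : 1
    rw [Matrix.submatrix_apply, hM, Equiv.apply_symm_apply, Equiv.apply_symm_apply]
  have hII : (fromBlocks (bl (rth (blk ρ e hm)) w) 0
      (Matrix.of fun (p : ι × {x // ¬ e x}) (q : ι × {x // e x}) => rth ρ (w p.1 q.1) p.2 q.2)
      (bl (rth (blk ρ (fun x => ¬ e x) hm')) w)) * (fromBlocks (bl (rth (blk ρ e hm)) w) 0
      (Matrix.of fun (p : ι × {x // ¬ e x}) (q : ι × {x // e x}) => rth ρ (w p.1 q.1) p.2 q.2)
      (bl (rth (blk ρ (fun x => ¬ e x) hm')) w)) = (fromBlocks (bl (rth (blk ρ e hm)) w) 0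
      (Matrix.of fun (p : ι × {x // ¬ e x}) (q : ι × {x // e x}) => rth ρ (w p.1 q.1) p.2 q.2)
      (bl (rth (blk ρ (fun x => ¬ e x) hm')) w)) := by
    rw [hI, Matrix.submatrix_mul_equiv, bl_idem _ hw]
  rw [← cl0_lower (bl_idem _ hw) (bl_idem _ hw) _ hII]
  exact cl0_congr (spl ι e) _ _ hM

/-- upper block triangular representations -/
theorem zz0_upper (ρ : G →* Matrix N N R) (h0 : ∀ g x y, ¬ e x → e y → ρ g x y = 0) (hm) (hm') :
    zz0 hw ρ = zz0 hw (blk ρ e hm) + zz0 hw (blk ρ (fun x => ¬ e x) hm') := by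
  unfold zz0
  have hM : ∀ p q, (bl (rth ρ) w) p q = (fromBlocks (bl (rth (blk ρ e hm)) w)
      (Matrix.of fun (p : ι × {x // e x}) (q : ι × {x // ¬ e x}) => rth ρ (w p.1 q.1) p.2 q.2) 0
      (bl (rth (blk ρ (fun x => ¬ e x) hm')) w)) (spl ι e p) (spl ι e q) := by
    intro p q
    obtain ⟨p, rfl⟩ := (spl ι e).symm.surjective p
    obtain ⟨q, rfl⟩ := (spl ι e).symm.surjective q
    rw [Equiv.apply_symm_apply, Equiv.apply_symm_apply]
    rcases p with ⟨i, x⟩ | ⟨i, x⟩ <;> rcases q with ⟨j, y⟩ | ⟨j, y⟩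
    · rw [spl_symm_inl, spl_symm_inl, Matrix.fromBlocks_apply₁₁]
      exact (rth_blk ρ e hm _ _ _).symm
    · rw [spl_symm_inl, spl_symm_inr, Matrix.fromBlocks_apply₁₂]
      rfl
    · rw [spl_symm_inl, spl_symm_inr, Matrix.fromBlocks_apply₂₁]
      exact rth_zero ρ _ _ (fun g => h0 g x y x.2 y.2) _
    · rw [spl_symm_inr, spl_symm_inr, Matrix.fromBlocks_apply₂₂]
      exact (rth_blk ρ (fun x => ¬ e x) hm' _ _ _).symm
  have hI : (fromBlocks (bl (rth (blk ρ e hm)) w)
      (Matrix.of fun (p : ι × {x // e x}) (q : ι × {x // ¬ e x}) => rth ρ (w p.1 q.1) p.2 q.2) 0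
      (bl (rth (blk ρ (fun x => ¬ e x) hm')) w)) = (bl (rth ρ) w).submatrix (spl ι e).symm
        (spl ι e).symm := by
    ext p q : 1
    rw [Matrix.submatrix_apply, hM, Equiv.apply_symm_apply, Equiv.apply_symm_apply]
  have hII : (fromBlocks (bl (rth (blk ρ e hm)) w)
      (Matrix.of fun (p : ι × {x // e x}) (q : ι × {x // ¬ e x}) => rth ρ (w p.1 q.1) p.2 q.2) 0
      (bl (rth (blk ρ (fun x => ¬ e x) hm')) w)) * (fromBlocks (bl (rth (blk ρ e hm)) w)
      (Matrix.of fun (p : ι × {x // e x}) (q : ι × {x // ¬ e x}) => rth ρ (w p.1 q.1) p.2 q.2) 0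
      (bl (rth (blk ρ (fun x => ¬ e x) hm')) w)) = (fromBlocks (bl (rth (blk ρ e hm)) w)
      (Matrix.of fun (p : ι × {x // e x}) (q : ι × {x // ¬ e x}) => rth ρ (w p.1 q.1) p.2 q.2) 0
      (bl (rth (blk ρ (fun x => ¬ e x) hm')) w)) := by
    rw [hI, Matrix.submatrix_mul_equiv, bl_idem _ hw]
  rw [← cl0_upper (bl_idem _ hw) (bl_idem _ hw) _ hII]
  exact cl0_congr (spl ι e) _ _ hM

end rep

section chain

variable (R : Type) [CommRing R] {G : Type} [Group G] {N N' : Type} [Fintype N] [DecidableEq N]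
  [Fintype N'] [DecidableEq N'] {ι : Type} [Fintype ι] [DecidableEq ι]
  {w : Matrix ι ι (MonoidAlgebra R G)} (hw : w * w = w)

theorem zz0_step (p : ℕ) (hp : (p : R) = 0) (hp0 : (p : ℤ) ≠ 0) (ρ τ : G →* Matrix N N ℤ)
    (e : N → Prop) [DecidablePred e]
    (h : ∀ g x y, ρ g x y * (if e y then (p : ℤ) else 1) = (if e x then (p : ℤ) else 1) * τ g x y) :
    zz0 hw (rd R ρ) = zz0 hw (rd R τ) := by
  have hpi : ((p : ℤ) : R) = 0 := by rw [Int.cast_natCast, hp]
  have ha : ∀ g x y, e x → ¬ e y → rd R ρ g x y = 0 := by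
    intro g x y hx hy
    have h1 := h g x y
    rw [if_neg hy, if_pos hx, mul_one] at h1
    rw [rd_apply, h1, Int.cast_mul, hpi, zero_mul]
  have hb : ∀ g x y, ¬ e x → e y → rd R τ g x y = 0 := by
    intro g x y hx hy
    have h1 := h g x y
    rw [if_pos hy, if_neg hx, one_mul] at h1
    rw [rd_apply, ← h1, Int.cast_mul, hpi, mul_zero]
  have hc : ∀ g x y, e x → e y → rd R ρ g x y = rd R τ g x y := by
    intro g x y hx hy
    have h1 := h g x y
    rw [if_pos hy, if_pos hx, mul_comm] at h1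
    rw [rd_apply, rd_apply, mul_left_cancel₀ hp0 h1]
  have hd : ∀ g x y, ¬ e x → ¬ e y → rd R ρ g x y = rd R τ g x y := by
    intro g x y hx hy
    have h1 := h g x y
    rw [if_neg hy, if_neg hx, mul_one, one_mul] at h1
    rw [rd_apply, rd_apply, h1]
  have m1 : ∀ (g g' : G) (x z : {x // e x}),
      (rd R ρ (g * g')) x z = ∑ y : {x // e x}, rd R ρ g x y * rd R ρ g' y z := by
    intro g g' x z
    rw [map_mul, Matrix.mul_apply]
    exact sum_split e _ fun y hy => by rw [ha g x y x.2 hy, zero_mul]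
  have m2 : ∀ (g g' : G) (x z : {x // ¬ e x}),
      (rd R ρ (g * g')) x z = ∑ y : {x // ¬ e x}, rd R ρ g x y * rd R ρ g' y z := by
    intro g g' x z
    rw [map_mul, Matrix.mul_apply]
    exact sum_split (fun x => ¬ e x) _ fun y hy => by rw [ha g' y z (not_not.1 hy) z.2, mul_zero]
  have m3 : ∀ (g g' : G) (x z : {x // e x}),
      (rd R τ (g * g')) x z = ∑ y : {x // e x}, rd R τ g x y * rd R τ g' y z := by
    intro g g' x z
    rw [map_mul, Matrix.mul_apply]
    exact sum_split e _ fun y hy => by rw [hb g' y z hy z.2, mul_zero]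
  have m4 : ∀ (g g' : G) (x z : {x // ¬ e x}),
      (rd R τ (g * g')) x z = ∑ y : {x // ¬ e x}, rd R τ g x y * rd R τ g' y z := by
    intro g g' x z
    rw [map_mul, Matrix.mul_apply]
    exact sum_split (fun x => ¬ e x) _ fun y hy => by rw [hb g x y x.2 (not_not.1 hy), zero_mul]
  rw [zz0_lower hw e (rd R ρ) ha m1 m2, zz0_upper hw e (rd R τ) hb m3 m4,
    blk_congr (rd R ρ) (rd R τ) e m1 m3 (fun g x z => hc g x z x.2 z.2),
    blk_congr (rd R ρ) (rd R τ) (fun x => ¬ e x) m2 m4 (fun g x z => hd g x z x.2 z.2)]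

theorem zz0_chain (p : ℕ) [hpp : Fact p.Prime] (hp : (p : R) = 0)
    (hunit : ∀ m : ℤ, ¬ (p : ℤ) ∣ m → IsUnit (m : R)) :
    ∀ (M : ℕ) (ρ σ : G →* Matrix N N ℤ) (e : N → ℕ) (m : N → ℤ), (∀ x, e x ≤ M) →
      (∀ x, ¬ (p : ℤ) ∣ m x) →
      (∀ g x y, ρ g x y * ((p : ℤ) ^ e y * m y) = ((p : ℤ) ^ e x * m x) * σ g x y) →
      zz0 hw (rd R ρ) = zz0 hw (rd R σ) := by
  have hpZ : Prime (p : ℤ) := Nat.prime_iff_prime_int.1 hpp.out
  intro M
  induction M with
  | zero =>
    intro ρ σ e m he hm h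
    choose u hu using fun x => hunit (m x) (hm x)
    apply zz0_sim hw (rd R ρ) (rd R σ) (Matrix.diagonal fun x => ((u x : Rˣ) : R))
      (Matrix.diagonal fun x => (((u x)⁻¹ : Rˣ) : R))
    · rw [Matrix.diagonal_mul_diagonal]
      simp
    · rw [Matrix.diagonal_mul_diagonal]
      simp
    · intro g
      ext x y
      rw [Matrix.mul_diagonal, Matrix.diagonal_mul, hu, hu, rd_apply, rd_apply]
      have h1 := h g x y
      rw [Nat.le_zero.1 (he x), Nat.le_zero.1 (he y), pow_zero, one_mul, one_mul] at h1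
      rw [← Int.cast_mul, h1, Int.cast_mul]
  | succ M ih =>
    intro ρ σ e m he hm h
    let q : N → ℤ := fun x => if 1 ≤ e x then (p : ℤ) else 1
    have hq : ∀ x, q x ≠ 0 := by
      intro x
      simp only [q]
      split_ifs
      · exact hpZ.ne_zero
      · exact one_ne_zero
    have hqe : ∀ x, (p : ℤ) ^ e x = q x * (p : ℤ) ^ (e x - 1) := by
      intro x
      simp only [q]
      split_ifs with h1
      · rw [← pow_succ', Nat.sub_add_cancel h1]
      · have : e x = 0 := by omega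
        rw [this, one_mul]
    have hd : ∀ g x y, q x ∣ ρ g x y * q y := by
      intro g x y
      by_cases hx : 1 ≤ e x
      · have hqx : q x = p := if_pos hx
        rw [hqx]
        by_cases hy : 1 ≤ e y
        · have hqy : q y = p := if_pos hy
          rw [hqy]
          exact dvd_mul_left _ _
        · have h1 := h g x y
          have hy0 : e y = 0 := by omega
          rw [hy0, pow_zero, one_mul] at h1
          have h2 : (p : ℤ) ∣ ρ g x y * m y := by
            rw [h1, hqe x, hqx, mul_assoc, mul_assoc]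
            exact dvd_mul_right _ _
          exact Dvd.dvd.mul_right ((hpZ.dvd_or_dvd h2).resolve_right (hm y)) _
      · have hqx : q x = 1 := if_neg hx
        rw [hqx]
        exact one_dvd _
    obtain ⟨τ, hτ⟩ := exists_conj ρ q hq hd
    rw [zz0_step R hw p hp hpZ.ne_zero ρ τ (fun x => 1 ≤ e x) hτ]
    apply ih τ σ (fun x => e x - 1) m (fun x => by have := he x; omega) hm
    intro g x y
    apply mul_left_cancel₀ (hq x)
    have h1 := h g x y
    rw [hqe x, hqe y] at h1
    calc q x * (τ g x y * ((p : ℤ) ^ (e y - 1) * m y))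
        = (q x * τ g x y) * ((p : ℤ) ^ (e y - 1) * m y) := by ring
      _ = ρ g x y * (q y * (p : ℤ) ^ (e y - 1) * m y) := by rw [← hτ]; ring
      _ = q x * ((p : ℤ) ^ (e x - 1) * m x * σ g x y) := by rw [h1]; ring

theorem zz0_sim_int (ρ : G →* Matrix N N ℤ) (σ : G →* Matrix N' N' ℤ) (A : Matrix N N' ℤ)
    (A' : Matrix N' N ℤ) (h1 : A * A' = 1) (h2 : A' * A = 1) (h3 : ∀ g, ρ g * A = A * σ g) :
    zz0 hw (rd R ρ) = zz0 hw (rd R σ) := by
  apply zz0_sim hw (rd R ρ) (rd R σ) (A.map (Int.castRingHom R)) (A'.map (Int.castRingHom R))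
  · rw [← Matrix.map_mul, h1, Matrix.map_one _ (map_zero _) (map_one _)]
  · rw [← Matrix.map_mul, h2, Matrix.map_one _ (map_zero _) (map_one _)]
  · intro g
    show (ρ g).map (Int.castRingHom R) * _ = _ * (σ g).map (Int.castRingHom R)
    rw [← Matrix.map_mul, h3, Matrix.map_mul]

theorem zz0_intertwine (p : ℕ) [hpp : Fact p.Prime] (hp : (p : R) = 0)
    (hunit : ∀ m : ℤ, ¬ (p : ℤ) ∣ m → IsUnit (m : R))
    (ρ : G →* Matrix N N ℤ) (σ : G →* Matrix N' N' ℤ) (P : Matrix N N' ℤ) (Q : Matrix N' N ℤ)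
    (δ : ℤ) (hδ : δ ≠ 0) (h1 : P * Q = δ • (1 : Matrix N N ℤ)) (h2 : Q * P = δ • (1 : Matrix N' N' ℤ))
    (h3 : ∀ g, ρ g * P = P * σ g) : zz0 hw (rd R ρ) = zz0 hw (rd R σ) := by
  obtain ⟨A, A', C, C', a, hA, hA', hC, hC', ha, hP⟩ := smith P Q δ hδ h1 h2
  have hpZ : Prime (p : ℤ) := Nat.prime_iff_prime_int.1 hpp.out
  have hfm : ∀ x, FiniteMultiplicity (p : ℤ) (a x) := by
    intro x
    rw [Int.finiteMultiplicity_iff]
    exact ⟨by rw [Int.natAbs_natCast]; exact hpp.out.ne_one, ha x⟩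
  choose m hm1 hm2 using fun x => (hfm x).exists_eq_pow_mul_and_not_dvd
  rw [zz0_sim_int R hw ρ (conjR ρ A A' hA hA') A A' hA hA' (fun g => by
      show ρ g * A = A * (A' * ρ g * A)
      rw [← Matrix.mul_assoc, ← Matrix.mul_assoc, hA, Matrix.one_mul]),
    zz0_sim_int R hw σ (conjR σ C C' hC hC') C C' hC hC' (fun g => by
      show σ g * C = C * (C' * σ g * C)
      rw [← Matrix.mul_assoc, ← Matrix.mul_assoc, hC, Matrix.one_mul])]
  apply zz0_chain R hw p hp hunit (Finset.univ.sup fun x => multiplicity (p : ℤ) (a x)) _ _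
    (fun x => multiplicity (p : ℤ) (a x)) m (fun x => Finset.le_sup (f := fun x =>
      multiplicity (p : ℤ) (a x)) (Finset.mem_univ x)) hm2
  intro g x y
  rw [← hm1, ← hm1]
  have h4 : (A' * ρ g * A) * Matrix.diagonal a = Matrix.diagonal a * (C' * σ g * C) := by
    calc (A' * ρ g * A) * Matrix.diagonal a = A' * ρ g * (A * Matrix.diagonal a) := by
          simp only [Matrix.mul_assoc]
      _ = A' * (ρ g * P) * C := by rw [← hP]; simp only [Matrix.mul_assoc]
      _ = A' * P * (1 : Matrix N' N' ℤ) * σ g * C := by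
          rw [h3]; simp only [Matrix.mul_assoc, Matrix.one_mul]
      _ = A' * (P * C) * C' * σ g * C := by rw [← hC]; simp only [Matrix.mul_assoc]
      _ = (A' * A) * Matrix.diagonal a * (C' * σ g * C) := by
          rw [hP]; simp only [Matrix.mul_assoc]
      _ = _ := by rw [hA', Matrix.one_mul]
  have h5 := congrFun (congrFun h4 x) y
  rw [Matrix.mul_diagonal, Matrix.diagonal_mul] at h5
  exact h5

end chain

section artin

variable {R : Type} [CommRing R] {G : Type} [Group G]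

theorem yy_zz0 (X : Type) [MulAction G X] [Fintype X] [DecidableEq X] {ι : Type} [Fintype ι]
    [DecidableEq ι] {w : Matrix ι ι (MonoidAlgebra R G)} (hw : w * w = w) :
    yy X hw = zz0 hw (rd R (pm G X)) := by
  rw [yy_eq]
  unfold zz0
  apply cl0_eq
  rw [rth_pm]

theorem yy0_compareP (p : ℕ) [hpp : Fact p.Prime] (hp : (p : R) = 0)
    (hunit : ∀ m : ℤ, ¬ (p : ℤ) ∣ m → IsUnit (m : R)) {X Y : Type} [MulAction G X] [Fintype X]
    [DecidableEq X] [MulAction G Y] [Fintype Y] [DecidableEq Y] {ι : Type} [Fintype ι]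
    [DecidableEq ι] {w : Matrix ι ι (MonoidAlgebra R G)} (hw : w * w = w) (P : Matrix X Y ℤ)
    (Q : Matrix Y X ℤ)
    (δ : ℕ) (hδ : 0 < δ) (h1 : P * Q = (δ : Matrix X X ℤ)) (h2 : Q * P = (δ : Matrix Y Y ℤ))
    (h3 : ∀ (g : G) x y, P (g • x) (g • y) = P x y) :
    yy X hw = yy Y hw := by
  rw [yy_zz0, yy_zz0]
  apply zz0_intertwine R hw p hp hunit (pm G X) (pm G Y) P Q δ (by exact_mod_cast hδ.ne')
  · rw [h1, natCast_zsmul, nsmul_eq_mul, mul_one]
  · rw [h2, natCast_zsmul, nsmul_eq_mul, mul_one]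
  · intro g
    ext x y
    rw [Matrix.mul_apply, Matrix.mul_apply, Finset.sum_eq_single (g⁻¹ • x),
      Finset.sum_eq_single (g • y)]
    · show (if g • g⁻¹ • x = x then (1 : ℤ) else 0) * _ = _ * (if g • y = g • y then (1 : ℤ) else 0)
      rw [if_pos (smul_inv_smul g x), if_pos rfl, one_mul, mul_one, ← h3 g (g⁻¹ • x) y,
        smul_inv_smul]
    · intro z _ hz
      show _ * (if g • y = z then (1 : ℤ) else 0) = 0
      rw [if_neg (Ne.symm hz), mul_zero]
    · intro h; exact absurd (Finset.mem_univ _) h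
    · intro z _ hz
      show (if g • z = x then (1 : ℤ) else 0) * _ = 0
      rw [if_neg, zero_mul]
      intro h
      apply hz
      rw [← h, inv_smul_smul]
    · intro h; exact absurd (Finset.mem_univ _) h

/-- Artin induction for `K₀(R[G])`, `R` a commutative ring of characteristic `p`. -/
theorem artin0 (p : ℕ) [hpp : Fact p.Prime] (hp : (p : R) = 0) [Finite G]
    (x : K0 (MonoidAlgebra R G)) : ∃ k : ℕ, 0 < k ∧
      k • x ∈ AddSubgroup.closure {y | ∃ (C : Subgroup G) (_ : IsCyclic C)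
        (z : K0 (MonoidAlgebra R C)), y = K0.map (MonoidAlgebra.mapDomainRingHom R C.subtype) z} := by
  let S : AddSubgroup (K0 (MonoidAlgebra R G)) :=
    AddSubgroup.closure {y | ∃ (C : Subgroup G) (_ : IsCyclic C)
        (z : K0 (MonoidAlgebra R C)), y = K0.map (MonoidAlgebra.mapDomainRingHom R C.subtype) z}
  show ∃ k : ℕ, 0 < k ∧ k • x ∈ S
  induction x using K0.induction with
  | hadd x y hx hy =>
    obtain ⟨k, hk, hx⟩ := hx
    obtain ⟨l, hl, hy⟩ := hy
    refine ⟨k * l, Nat.mul_pos hk hl, ?_⟩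
    rw [nsmul_add]
    apply S.add_mem
    · rw [mul_comm, mul_nsmul']
      exact S.nsmul_mem hx l
    · rw [mul_nsmul']
      exact S.nsmul_mem hy k
  | hneg x hx =>
    obtain ⟨k, hk, hx⟩ := hx
    refine ⟨k, hk, ?_⟩
    rw [smul_neg]
    exact S.neg_mem hx
  | hcl N m hm =>
    obtain ⟨n, n', B, B', s, hs, ⟨l₁, l₂, hl₁, hl₂, hB, hB'⟩, f1, d1, f2, d2, P, Q, δ, hδ, h1, h2,
      h3⟩ := artin_matrix G
    have h := yy0_compareP p hp (isUnit_int p hp) hm P Q δ hδ h1 h2 h3
    refine ⟨s, hs, ?_⟩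
    have hmem : ∀ C : Subgroup G, IsCyclic C → yy (G ⧸ C) hm ∈ S := by
      intro C hC
      obtain ⟨z, hz⟩ := yy_induced C hm
      rw [hz]
      exact AddSubgroup.subset_closure ⟨C, hC, z, rfl⟩
    have hlist : ∀ l : List (Subgroup G), (∀ C ∈ l, IsCyclic C) →
        (l.map fun C => yy (G ⧸ C) hm).sum ∈ S := by
      intro l hl
      apply AddSubgroup.list_sum_mem
      intro y hy
      obtain ⟨C, hC, rfl⟩ := List.mem_map.1 hy
      exact hmem C (hl C hC)
    have e1 : ∀ (n : ℕ) (B : Fin n → Subgroup G), yy (XX B) hm =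
        ((List.ofFn B).map fun C => yy (G ⧸ C) hm).sum := by
      intro n B
      rw [yy_XX, List.map_ofFn, List.sum_ofFn]
      rfl
    rw [e1, e1, hB, hB'] at h
    rw [List.map_append, List.sum_append, List.map_replicate, List.sum_replicate] at h
    have e2 : yy (G ⧸ (⊤ : Subgroup G)) hm = cl0 m hm := by
      have : Subsingleton (G ⧸ (⊤ : Subgroup G)) := QuotientGroup.subsingleton_quotient_top
      let _ : Unique (G ⧸ (⊤ : Subgroup G)) :=
        ⟨⟨((1 : G) : G ⧸ (⊤ : Subgroup G))⟩, fun _ => Subsingleton.elim _ _⟩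
      exact yy_point hm
    rw [e2] at h
    have h4 : s • cl0 m hm = (l₂.map fun C => yy (G ⧸ C) hm).sum -
        (l₁.map fun C => yy (G ⧸ C) hm).sum := by
      rw [← h]
      abel
    rw [h4]
    exact S.sub_mem (hlist l₂ hl₂) (hlist l₁ hl₁)

end artin

end

end Pool.Agent.T9h42
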