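import Pool.Agent.Y350.NK.Gen
import Pool.Agent.Y69.ColAsm

/-!
# `K₀(k[C])`, `C` a finite abelian group, `k` a field of characteristic `p`
-/

set_option linter.unusedSectionVars false

namespace Pool.Agent.T9h42

open Matrix MonoidAlgebra Pool.Agent.Y778.NK Pool.Agent.Y69

noncomputable section

section nil

variable {A : Type} [CommRing A] {ι : Type} [Fintype ι] [DecidableEq ι]

theorem isUnit_of_sub_nil (V : Matrix ι ι A) (h : ∀ i j, IsNilpotent ((V - 1) i j)) :
    IsUnit V := by
  rw [Matrix.isUnit_iff_isUnit_det]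
  let q := Ideal.Quotient.mk (nilradical A)
  have h1 : V.map q = 1 := by
    ext i j
    have h2 : q ((V - 1) i j) = 0 := Ideal.Quotient.eq_zero_iff_mem.2 (mem_nilradical.2 (h i j))
    rw [Matrix.sub_apply, map_sub, sub_eq_zero] at h2
    rw [Matrix.map_apply, h2, Matrix.one_apply, Matrix.one_apply]
    split_ifs <;> simp
  have h2 : q (V.det - 1) = 0 := by
    rw [map_sub, RingHom.map_det, map_one]
    have : q.mapMatrix V = V.map q := rfl
    rw [this, h1, Matrix.det_one, sub_self]
  have h3 : IsNilpotent (V.det - 1) := mem_nilradical.1 (Ideal.Quotient.eq_zero_iff_mem.1 h2)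
  have h4 := h3.isUnit_add_one
  rwa [sub_add_cancel] at h4

/-- idempotents congruent modulo the nilradical have the same class -/
theorem cl0_nil {E F : Matrix ι ι A} (hE : E * E = E) (hF : F * F = F)
    (h : ∀ i j, IsNilpotent ((F - E) i j)) : cl0 F hF = cl0 E hE := by
  let V : Matrix ι ι A := F * E + (1 - F) * (1 - E)
  have hV1 : V - 1 = -((F - E) * (1 - (E + E))) := by
    show F * E + (1 - F) * (1 - E) - 1 = _
    have : (F - E) * (1 - (E + E)) = F - E - (F * E + F * E) + (E * E + E * E) := by noncomm_ring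
    rw [this, hE]
    noncomm_ring
  have hV : IsUnit V := by
    apply isUnit_of_sub_nil
    intro i j
    rw [hV1, Matrix.neg_apply, Matrix.mul_apply, ← mem_nilradical]
    apply neg_mem
    apply Ideal.sum_mem
    intro k _
    exact Ideal.mul_mem_right _ _ (mem_nilradical.2 (h i k))
  obtain ⟨U, hU⟩ := hV
  have h1 : F * V = V * E := by
    show F * (F * E + (1 - F) * (1 - E)) = (F * E + (1 - F) * (1 - E)) * E
    have e1 : F * (F * E + (1 - F) * (1 - E)) = F * F * E + (F - F * F) * (1 - E) := by noncomm_ring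
    have e2 : (F * E + (1 - F) * (1 - E)) * E = F * (E * E) + (1 - F) * (E - E * E) := by
      noncomm_ring
    rw [e1, e2, hE, hF]
    simp
  apply cl0_conj hE hF U.val (U⁻¹).val U.inv_mul
  rw [hU, ← h1, Matrix.mul_assoc, ← hU, U.mul_inv, Matrix.mul_one]

end nil

section pred

variable {k : Type} [Field k] (p : ℕ) [hp : Fact p.Prime] [CharP k p] {C : Type} [CommGroup C]

instance charP_ma : CharP (MonoidAlgebra k C) p :=
  charP_of_injective_algebraMap (algebraMap k (MonoidAlgebra k C)).injective p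

theorem pi_pow (π : C →* C) (n : ℕ) (hπ : ∀ c, π c ^ p ^ n = c ^ p ^ n) (a : MonoidAlgebra k C) :
    (mapDomainRingHom k π a) ^ p ^ n = a ^ p ^ n := by
  induction a using MonoidAlgebra.induction_linear with
  | zero => simp
  | add x y hx hy => rw [map_add, add_pow_char_pow, add_pow_char_pow, hx, hy]
  | single g r =>
    rw [mapDomainRingHom_apply, mapDomain_single, single_pow, single_pow, hπ]

theorem pi_nil (π : C →* C) (n : ℕ) (hπ : ∀ c, π c ^ p ^ n = c ^ p ^ n) (a : MonoidAlgebra k C) :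
    IsNilpotent (mapDomainRingHom k π a - a) := by
  refine ⟨p ^ n, ?_⟩
  rw [sub_pow_char_pow, pi_pow p π n hπ, sub_self]

theorem K0_pi_pow (π : C →* C) (n : ℕ) (hπ : ∀ c, π c ^ p ^ n = c ^ p ^ n)
    (x : K0 (MonoidAlgebra k C)) : K0.map (mapDomainRingHom k π) x = x := by
  induction x using K0.induction with
  | hadd x y hx hy => rw [map_add, hx, hy]
  | hneg x hx => rw [map_neg, hx]
  | hcl m e he =>
    rw [K0map_cl0]
    apply cl0_nil
    intro i j
    rw [Matrix.sub_apply, Matrix.map_apply]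
    exact pi_nil p π n hπ _

/-- the projection to the `p`-regular part -/
theorem exists_proj (C : Type) [CommGroup C] [Finite C] : ∃ (t n m : ℕ), ¬ p ∣ m ∧
    (∀ c : C, (c ^ t) ^ p ^ n = c ^ p ^ n) ∧ ∀ c : C, (c ^ t) ^ m = 1 := by
  obtain ⟨a, m, hm, hn⟩ := Nat.exists_eq_pow_mul_and_not_dvd (Nat.card_pos (α := C)).ne' p
    hp.out.ne_one
  have hco : (p ^ a).Coprime m := Nat.Coprime.pow_left a ((hp.out.coprime_iff_not_dvd).2 hm)
  obtain ⟨t, h1, h2⟩ := Nat.chineseRemainder hco 0 1
  refine ⟨t, a, m, hm, ?_, ?_⟩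
  · intro c
    rw [← pow_mul]
    apply pow_eq_pow_of_modEq _ (pow_card_eq_one' (x := c))
    rw [hn]
    have h3 := h2.mul_left' (p ^ a)
    rw [mul_one, mul_comm (p ^ a) t] at h3
    exact h3
  · intro c
    rw [← pow_mul]
    have h3 : Nat.card C ∣ t * m := by
      rw [hn]
      exact Nat.mul_dvd_mul_right ((Nat.modEq_zero_iff_dvd).1 h1) m
    obtain ⟨l, hl⟩ := h3
    rw [hl, pow_mul, pow_card_eq_one', one_pow]

/-- classes come from the `p`-regular part -/
theorem K0_preg (C : Type) [CommGroup C] [Finite C] (x : K0 (MonoidAlgebra k C)) :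
    ∃ D : Subgroup C, ¬ p ∣ Nat.card D ∧ ∃ y : K0 (MonoidAlgebra k D),
      x = K0.map (mapDomainRingHom k D.subtype) y := by
  obtain ⟨t, n, m, hm, h1, h2⟩ := exists_proj p C
  refine ⟨(powMonoidHom t : C →* C).range, ?_, K0.map (mapDomainRingHom k
    (powMonoidHom t : C →* C).rangeRestrict) x, ?_⟩
  · intro h
    obtain ⟨d, hd⟩ := exists_prime_orderOf_dvd_card' p h
    obtain ⟨c, hc⟩ := d.2
    have h3 : (d : C) ^ m = 1 := by
      rw [← hc]
      exact h2 c
    apply hm
    rw [← hd, ← Subgroup.orderOf_coe]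
    exact orderOf_dvd_of_pow_eq_one h3
  · rw [K0map_comp, mapDomainRingHom_comp']
    exact (K0_pi_pow p (powMonoidHom t : C →* C) n h1 x).symm

/-- `K₀` of a `p`-regular group is generated by idempotents -/
theorem K0_idem (D : Type) [CommGroup D] [Finite D] (hD : ¬ p ∣ Nat.card D)
    (x : K0 (MonoidAlgebra k D)) : x ∈ AddSubgroup.closure {y | ∃ (e : MonoidAlgebra k D)
      (he : e * e = e), y = cl1 e he} := by
  have : NeZero (Nat.card D : k) := ⟨fun h => hD ((CharP.cast_eq_zero_iff k p _).1 h)⟩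
  have h1 : IsSemisimpleRing (MonoidAlgebra k D) := inferInstance
  obtain ⟨I, _, d, hd, -, -, h⟩ := Pool.Agent.Y350.NK.K0_semisimple (MonoidAlgebra k D)
  obtain ⟨n, rfl⟩ := h x
  apply AddSubgroup.sum_mem
  intro i _
  apply AddSubgroup.zsmul_mem
  exact AddSubgroup.subset_closure ⟨d i, hd i, rfl⟩

end pred

end

end Pool.Agent.T9h42
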