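import Pool.Agent.T9h42.DP.Gold
import Pool.Agent.Y350.NK.Gen
import Pool.Agent.Y778.NK.Inj2

/-!
# Combinations of idempotents and `K₀`
-/

namespace Pool.Agent.T9h42

open Matrix MonoidAlgebra Pool.Agent.Y69 Pool.Agent.Y69.StepC Pool.Agent.Y778.NK

noncomputable section

section cl1

variable {A : Type} [CommRing A]

theorem cl1_zero : cl1 (0 : A) (mul_zero 0) = 0 := by
  unfold cl1
  rw [← cl0_zero (R := A) (ι := Unit)]
  exact cl0_eq _ _ (by ext; rfl)

theorem cl1_eq {e f : A} (he : e * e = e) (hf : f * f = f) (h : e = f) : cl1 e he = cl1 f hf := by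
  subst h; rfl

theorem cl1_sum {I : Type*} [DecidableEq I] (s : Finset I) (f : I → A)
    (hf : ∀ i, f i * f i = f i) (ho : ∀ i j, i ≠ j → f i * f j = 0)
    (h : (∑ i ∈ s, f i) * (∑ i ∈ s, f i) = ∑ i ∈ s, f i) :
    cl1 (∑ i ∈ s, f i) h = ∑ i ∈ s, cl1 (f i) (hf i) := by
  have hm : ∀ i, (Matrix.of fun _ _ : Unit => f i) * (Matrix.of fun _ _ : Unit => f i) =
      (Matrix.of fun _ _ : Unit => f i) := by
    intro i
    ext a b
    rw [Matrix.mul_apply]
    simp [hf]
  obtain ⟨h1, h2⟩ := Pool.Agent.Y350.NK.cl0_sum s (fun i => (Matrix.of fun _ _ : Unit => f i)) hm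
    (by
      intro i j hij
      ext a b
      rw [Matrix.mul_apply]
      simp [ho i j hij])
  unfold cl1
  rw [← h2]
  apply cl0_eq
  ext a b
  rw [Matrix.sum_apply]
  rfl

end cl1

section kap

/-- torsion-free -/
def TF (A : Type) [CommRing A] : Prop := ∀ (n : ℤ) (a : A), n ≠ 0 → n • a = 0 → a = 0

variable {A : Type} [CommRing A]

/-- idempotents -/
abbrev Idm (A : Type) [CommRing A] : Type := {e : A // e * e = e}

/-- the value in the ring -/
def pA (A : Type) [CommRing A] : FreeAbelianGroup (Idm A) →+ A :=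
  FreeAbelianGroup.lift fun e => e.1

/-- the value in `K₀` -/
def pK (A : Type) [CommRing A] : FreeAbelianGroup (Idm A) →+ K0 A :=
  FreeAbelianGroup.lift fun e => cl1 e.1 e.2

theorem free_exists (w : FreeAbelianGroup (Idm A)) : ∃ (N : ℕ) (e : Fin N → Idm A)
    (n : Fin N → ℤ), w = ∑ i, n i • FreeAbelianGroup.of (e i) := by
  induction w using FreeAbelianGroup.induction_on with
  | zero => exact ⟨0, Fin.elim0, Fin.elim0, by simp⟩
  | of e => exact ⟨1, fun _ => e, fun _ => 1, by simp⟩
  | neg e h => exact ⟨1, fun _ => e, fun _ => -1, by simp⟩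
  | add x y hx hy =>
    obtain ⟨N, e, n, rfl⟩ := hx
    obtain ⟨M, f, m, rfl⟩ := hy
    refine ⟨N + M, Fin.append e f, Fin.append n m, ?_⟩
    rw [Fin.sum_univ_add]
    simp only [Fin.append_left, Fin.append_right]

theorem pK_zero (htf : TF A)
    (w : FreeAbelianGroup (Idm A)) (h : pA A w = 0) : pK A w = 0 := by
  classical
  obtain ⟨N, e, n, rfl⟩ := free_exists w
  have he : ∀ i, (e i).1 * (e i).1 = (e i).1 := fun i => (e i).2
  have h1 : ∑ i, n i • (e i).1 = 0 := by
    rw [← h, map_sum]
    refine Finset.sum_congr rfl fun i _ => ?_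
    rw [map_zsmul]
    unfold pA
    rw [FreeAbelianGroup.lift_apply_of]
  have h2 : ∀ i, n i • (e i).1 = ∑ S : Finset (Fin N),
      if i ∈ S then n i • atm (fun i => (e i).1) S else 0 := by
    intro i
    conv_lhs => rw [eq_sum_atm (fun i => (e i).1) he i, Finset.smul_sum, Finset.sum_filter]
  have h3 : ∑ S : Finset (Fin N), (∑ i ∈ S, n i) • atm (fun i => (e i).1) S = 0 := by
    rw [← h1, Finset.sum_congr rfl fun i _ => h2 i, Finset.sum_comm]
    refine Finset.sum_congr rfl fun S _ => ?_
    rw [← Finset.sum_filter, Finset.filter_mem_eq_inter, Finset.univ_inter, Finset.sum_smul]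
  have h4 : ∀ S : Finset (Fin N), (∑ i ∈ S, n i) •
      cl1 (atm (fun i => (e i).1) S) (atm_idem _ he S) = 0 := by
    intro S
    have h5 : (∑ i ∈ S, n i) • atm (fun i => (e i).1) S = 0 := by
      have h6 := congrArg (fun x => x * atm (fun i => (e i).1) S) h3
      simp only [zero_mul] at h6
      rw [Finset.sum_mul, Finset.sum_eq_single S] at h6
      · rwa [smul_mul_assoc, atm_idem _ he] at h6
      · intro T _ hT
        rw [smul_mul_assoc, atm_orth _ he hT, smul_zero]
      · intro h; exact absurd (Finset.mem_univ _) h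
    by_cases h7 : ∑ i ∈ S, n i = 0
    · rw [h7, zero_smul]
    · have h8 := htf _ _ h7 h5
      rw [cl1_eq _ (mul_zero 0) h8, cl1_zero, smul_zero]
  rw [map_sum]
  have h5 : ∀ i, pK A (n i • FreeAbelianGroup.of (e i)) = ∑ S : Finset (Fin N),
      if i ∈ S then n i • cl1 (atm (fun i => (e i).1) S) (atm_idem _ he S) else 0 := by
    intro i
    rw [map_zsmul]
    unfold pK
    rw [FreeAbelianGroup.lift_apply_of, ← Finset.sum_filter, ← Finset.smul_sum]
    congr 1
    have h6 := eq_sum_atm (fun i => (e i).1) he i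
    rw [← cl1_sum (Finset.univ.filter fun S : Finset (Fin N) => i ∈ S)
      (atm fun i => (e i).1) (atm_idem _ he) (fun S T hST => atm_orth _ he hST) (by
        rw [← h6]; exact he i)]
    exact cl1_eq _ _ h6
  rw [Finset.sum_congr rfl fun i _ => h5 i, Finset.sum_comm]
  refine Finset.sum_eq_zero fun S _ => ?_
  rw [← Finset.sum_filter, Finset.filter_mem_eq_inter, Finset.univ_inter, ← Finset.sum_smul]
  exact h4 S

theorem pA_surj {x : A} (hx : x ∈ Hn A) : ∃ w, pA A w = x := by
  have h : Hn A ≤ (pA A).range := by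
    unfold Hn
    rw [AddSubgroup.closure_le]
    intro e he
    refine ⟨FreeAbelianGroup.of ⟨e, he⟩, ?_⟩
    unfold pA
    rw [FreeAbelianGroup.lift_apply_of]
  exact h hx

variable (htf : TF A)

/-- the map from the combinations of idempotents to `K₀` -/
def kap : Hn A →+ K0 A :=
  AddMonoidHom.mk' (fun x => pK A (pA_surj x.2).choose) (by
    intro x y
    rw [← map_add, ← sub_eq_zero, ← map_sub]
    apply pK_zero htf
    rw [map_sub, map_add, (pA_surj x.2).choose_spec, (pA_surj y.2).choose_spec,
      (pA_surj (x + y).2).choose_spec]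
    exact sub_self _)

theorem kap_cl1 (e : A) (he : e * e = e) : kap htf ⟨e, Hn_idem he⟩ = cl1 e he := by
  show pK A (pA_surj (Hn_idem he)).choose = _
  have h1 : pK A (FreeAbelianGroup.of ⟨e, he⟩) = cl1 e he := by
    unfold pK
    rw [FreeAbelianGroup.lift_apply_of]
  rw [← h1, ← sub_eq_zero, ← map_sub]
  apply pK_zero htf
  rw [map_sub, (pA_surj (Hn_idem he)).choose_spec]
  unfold pA
  rw [FreeAbelianGroup.lift_apply_of, sub_self]

/-- induction on the combinations of idempotents -/
theorem Hn_induction {P : Hn A → Prop} (h0 : P 0) (hadd : ∀ x y, P x → P y → P (x + y))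
    (hneg : ∀ x, P x → P (-x)) (he : ∀ (e : A) (he : e * e = e), P ⟨e, Hn_idem he⟩)
    (x : Hn A) : P x := by
  obtain ⟨x, hx⟩ := x
  unfold Hn at hx
  induction hx using AddSubgroup.closure_induction with
  | mem x hx => exact he x hx
  | zero => exact h0
  | add x y hx' hy' hx hy => exact hadd ⟨x, hx'⟩ ⟨y, hy'⟩ hx hy
  | neg x hx' hx => exact hneg ⟨x, hx'⟩ hx

/-- functoriality -/
def Hmap {B : Type} [CommRing B] (f : A →+* B) : Hn A →+ Hn B where
  toFun x := ⟨f x.1, by
    have h : Hn A ≤ (Hn B).comap f.toAddMonoidHom := by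
      unfold Hn
      rw [AddSubgroup.closure_le]
      intro e he
      apply AddSubgroup.subset_closure
      show f e * f e = f e
      rw [← map_mul]
      exact congrArg f he
    exact h x.2⟩
  map_zero' := Subtype.ext (map_zero f)
  map_add' x y := Subtype.ext (map_add f x.1 y.1)

theorem kap_map {B : Type} [CommRing B] (htf' : TF B)
    (f : A →+* B) (x : Hn A) : K0.map f (kap htf x) = kap htf' (Hmap f x) := by
  induction x using Hn_induction with
  | h0 => simp
  | hadd x y hx hy => rw [map_add, map_add, map_add, map_add, hx, hy]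
  | hneg x hx => rw [map_neg, map_neg, map_neg, map_neg, hx]
  | he e he =>
    rw [kap_cl1 htf e he]
    have he' : f e * f e = f e := by rw [← map_mul, he]
    have h1 : Hmap f ⟨e, Hn_idem he⟩ = ⟨f e, Hn_idem he'⟩ := rfl
    rw [h1, kap_cl1 htf' _ he']
    unfold cl1
    rw [K0map_cl0]
    rfl

end kap

section thy

variable {R : Type} [CommRing R]

theorem ma_tf (htf : TF R) {C : Type} [CommGroup C] : TF (MonoidAlgebra R C) := by
  intro n a hn h
  apply MonoidAlgebra.coeff_injective
  ext c
  apply htf n _ hn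
  let F : MonoidAlgebra R C →+ R := AddMonoidHom.mk' (fun x => x.coeff c) fun x y => by
    rw [coeff_add, Finsupp.add_apply]
  have h1 : F (n • a) = n • F a := map_zsmul F n a
  rw [h, map_zero] at h1
  exact h1.symm

theorem bb_kap (htf : TF R) {C : Type} [CommGroup C]
    (x : Hn (MonoidAlgebra R C)) (c : C) :
    bb R (kap (ma_tf htf) x) c = x.1.coeff c := by
  induction x using Hn_induction with
  | h0 =>
    unfold bb
    rw [map_zero, map_zero]
    rfl
  | hadd x y hx hy =>
    unfold bb at hx hy ⊢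
    rw [map_add, map_add, hx, hy]
    rfl
  | hneg x hx =>
    unfold bb at hx ⊢
    rw [map_neg, map_neg, hx]
    rfl
  | he e he =>
    rw [kap_cl1 (ma_tf htf) e he]
    unfold cl1
    rw [bb_cl0, Fintype.sum_unique]
    rfl

theorem coeff_map {C D : Type} [Group C] [Group D] (f : C →* D) (hf : Function.Injective f)
    (x : MonoidAlgebra R C) (c : C) : (mapDomainRingHom R f x).coeff (f c) = x.coeff c := by
  classical
  induction x using MonoidAlgebra.induction_linear with
  | zero => simp
  | add x y hx hy => rw [map_add, coeff_add, Finsupp.add_apply, hx, hy, coeff_add, Finsupp.add_apply]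
  | single g r =>
    rw [mapDomainRingHom_apply, mapDomain_single, coeff_single, coeff_single, Finsupp.single_apply,
      Finsupp.single_apply]
    by_cases h : g = c
    · rw [if_pos h, if_pos (congrArg f h)]
    · rw [if_neg h, if_neg fun h' => h (hf h')]

theorem coeff_map_not {C D : Type} [Group C] [Group D] (f : C →* D)
    (x : MonoidAlgebra R C) (d : D) (hd : d ∉ Set.range f) :
    (mapDomainRingHom R f x).coeff d = 0 := by
  classical
  induction x using MonoidAlgebra.induction_linear with
  | zero => simp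
  | add x y hx hy => rw [map_add, coeff_add, Finsupp.add_apply, hx, hy, add_zero]
  | single g r =>
    rw [mapDomainRingHom_apply, mapDomain_single, coeff_single, Finsupp.single_apply, if_neg]
    intro h
    exact hd ⟨g, h⟩

/-- restriction to a subgroup -/
theorem Hres {C : Type} [CommGroup C] [Finite C] (D : Subgroup C)
    (u : Hn (MonoidAlgebra R C)) : ∃ (k : ℕ) (v : Hn (MonoidAlgebra R D)), 0 < k ∧
      ∀ d : D, v.1.coeff d = k * u.1.coeff (d : C) := by
  classical
  have : Fintype (C ⧸ D) := Fintype.ofFinite _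
  refine ⟨Fintype.card (C ⧸ D), ?_⟩
  suffices h : ∃ v : Hn (MonoidAlgebra R D), ∀ d : D, v.1.coeff d =
      (Fintype.card (C ⧸ D) : ℕ) * u.1.coeff (d : C) by
    obtain ⟨v, hv⟩ := h
    exact ⟨v, Fintype.card_pos, hv⟩
  induction u using Hn_induction with
  | h0 =>
    refine ⟨0, fun d => ?_⟩
    show (0 : MonoidAlgebra R D).coeff d = _ * (0 : MonoidAlgebra R C).coeff (d : C)
    simp
  | hadd x y hx hy =>
    obtain ⟨v, hv⟩ := hx
    obtain ⟨w, hw⟩ := hy
    refine ⟨v + w, fun d => ?_⟩
    show (v.1 + w.1).coeff d = _ * (x.1 + y.1).coeff (d : C)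
    rw [coeff_add, Finsupp.add_apply, hv, hw, coeff_add, Finsupp.add_apply, mul_add]
  | hneg x hx =>
    obtain ⟨v, hv⟩ := hx
    refine ⟨-v, fun d => ?_⟩
    show (-v.1).coeff d = _ * (-x.1).coeff (d : C)
    rw [coeff_neg, Finsupp.neg_apply, hv, coeff_neg, Finsupp.neg_apply, mul_neg]
  | he e he =>
    have h1 : (TK.ArtK.ps D e) * (TK.ArtK.ps D e) = TK.ArtK.ps D e := by
      rw [← map_mul, he]
    refine ⟨⟨_, trace_mem (TK.ArtK.ps D e) h1⟩, fun d => ?_⟩
    show (∑ x, (TK.ArtK.ps D e).diag x).coeff d = _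
    rw [MonoidAlgebra.coeff_sum, Finsupp.finset_sum_apply]
    have h2 : ∀ x : C ⧸ D, ((TK.ArtK.ps D e).diag x).coeff d = e.coeff (d : C) :=
      fun x => ps_diag D e x d
    rw [Finset.sum_congr rfl fun x _ => h2 x, Finset.sum_const, Finset.card_univ, nsmul_eq_mul]

/-- the theory of the combinations of idempotents -/
def thy (R : Type) [CommRing R] (E : ℕ) : Theory R E where
  U C _ := Hn (MonoidAlgebra R C)
  grp C _ := inferInstance
  map f := Hmap (mapDomainRingHom R f)
  b u c := u.1.coeff c
  b_add := by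
    intro C _ _ _ u v
    funext c
    show (u.1 + v.1).coeff c = _
    rw [coeff_add]
    rfl
  b_map := by
    intro C D _ _ _ _ _ f hf u c
    exact coeff_map f hf u.1 c
  b_map_not := by
    intro C D _ _ _ _ _ f _ u d hd
    exact coeff_map_not f u.1 d hd
  res := by
    intro C _ _ _ D u
    exact Hres D u
  tors := by
    intro C _ _ _ u hu
    refine ⟨1, one_pos, ?_⟩
    rw [one_smul]
    apply Subtype.ext
    apply MonoidAlgebra.coeff_injective
    ext c
    exact congrFun hu c

end thy

end

end Pool.Agent.T9h42
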