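import Pool.Agent.Y69.TP.Wit
import Mathlib

/-!
# Lifting idempotents of `k[C]` to Witt vectors
-/

set_option linter.unusedSectionVars false

namespace Pool.Agent.T9h42

open MonoidAlgebra

noncomputable section

/-- Lifting data. -/
structure Ld (p : ℕ) (k R W : Type) [Field k] [CommRing R] [CommRing W] where
  q : R →+* k
  i : R →+* W
  hq : Function.Surjective q
  hi : Function.Injective i
  ker : ∀ r, q r = 0 → ∃ s, i r = (p : W) * s
  loc : ∀ r, q r ≠ 0 → IsUnit r
  lift : ∀ (C : Type) [CommGroup C] [Finite C], ¬ p ∣ Nat.card C → ∀ e : MonoidAlgebra k C,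
    e * e = e → ∃ e' : MonoidAlgebra R C, e' * e' = e' ∧ mapRingHom C q e' = e

section fourier

variable {F : Type} [CommRing F] {C : Type} [CommGroup C] {X : Type} [Fintype X] (a : X → (C →* F))

/-- evaluation at a character -/
def lam (χ : C →* F) : MonoidAlgebra F C →+* F := (MonoidAlgebra.lift F F C χ).toRingHom

theorem lam_single (χ : C →* F) (c : C) (r : F) : lam χ (single c r) = r * χ c := by
  show MonoidAlgebra.lift F F C χ (single c r) = _
  rw [MonoidAlgebra.lift_single, smul_eq_mul]

theorem fourier (ha : ∀ c, c ≠ 1 → ∑ x, a x c = 0) (y : MonoidAlgebra F C) (d : C) :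
    ∑ x, a x d⁻¹ * lam (a x) y = Fintype.card X * y.coeff d := by
  classical
  induction y using MonoidAlgebra.induction_linear with
  | zero => simp
  | add y z hy hz =>
    simp only [map_add, mul_add, Finset.sum_add_distrib, hy, hz]
    rw [coeff_add, Finsupp.add_apply, mul_add]
  | single c r =>
    simp only [lam_single]
    rw [coeff_single, Finsupp.single_apply]
    have h1 : ∀ x, a x d⁻¹ * (r * a x c) = r * a x (c * d⁻¹) := by
      intro x
      rw [map_mul]; ring
    rw [Finset.sum_congr rfl fun x _ => h1 x, ← Finset.mul_sum]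
    by_cases h : c = d
    · subst h
      rw [if_pos rfl, mul_inv_cancel]
      simp only [map_one, Finset.sum_const, Finset.card_univ, nsmul_eq_mul, mul_one]
      ring
    · rw [if_neg h, ha _ (fun h2 => h (mul_inv_eq_one.1 h2)), mul_zero, mul_zero]

end fourier

section witt

variable (p : ℕ) [hp : Fact p.Prime] (κ : Type) [Field κ] [CharP κ p]
  (C : Type) [CommGroup C] [Finite C]

/-- the lift of a character -/
def teiC {C : Type} [CommGroup C] (χ : C →* κˣ) : C →* WittVector p κ :=
  (WittVector.teichmuller p).comp ((Units.coeHom κ).comp χ)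

theorem teiC_coeff {C : Type} [CommGroup C] (χ : C →* κˣ) (c : C) :
    WittVector.constantCoeff (teiC p κ χ c) = (χ c : κ) :=
  WittVector.teichmuller_coeff_zero p _

theorem teiC_mul {C : Type} [CommGroup C] (χ ψ : C →* κˣ) (c : C) :
    teiC p κ (χ * ψ) c = teiC p κ χ c * teiC p κ ψ c := by
  show WittVector.teichmuller p ((((χ * ψ) c : κˣ)) : κ) = WittVector.teichmuller p _ *
    WittVector.teichmuller p _
  rw [← map_mul]
  rfl

theorem teiC_inv {C : Type} [CommGroup C] (χ : C →* κˣ) (c : C) :
    teiC p κ χ⁻¹ c = teiC p κ χ c⁻¹ := by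
  show WittVector.teichmuller p _ = WittVector.teichmuller p _
  congr 1
  show ((χ⁻¹ c : κˣ) : κ) = ((χ c⁻¹ : κˣ) : κ)
  rw [map_inv]
  rfl

theorem teiC_ne {C : Type} [CommGroup C] (χ : C →* κˣ) (c : C) (h : χ c ≠ 1) :
    teiC p κ χ c - 1 ≠ 0 := by
  intro h1
  apply h
  have h2 := congrArg WittVector.constantCoeff h1
  rw [map_sub, map_one, map_zero, teiC_coeff, sub_eq_zero] at h2
  exact Units.ext h2

variable {C} in
theorem orth1 [Fintype C] (χ : C →* κˣ) (h : χ ≠ 1) : ∑ c, teiC p κ χ c = 0 := by
  obtain ⟨d, hd⟩ : ∃ d, χ d ≠ 1 := by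
    by_contra h1
    push Not at h1
    exact h (MonoidHom.ext h1)
  have h1 : teiC p κ χ d * ∑ c, teiC p κ χ c = ∑ c, teiC p κ χ c := by
    rw [Finset.mul_sum]
    simp only [← map_mul]
    exact Fintype.sum_equiv (Equiv.mulLeft d) _ _ fun c => rfl
  have h2 : (teiC p κ χ d - 1) * ∑ c, teiC p κ χ c = 0 := by rw [sub_mul, h1, one_mul, sub_self]
  exact (mul_eq_zero.1 h2).resolve_left (teiC_ne p κ χ d hd)

variable [IsAlgClosed κ]

theorem enough (hC : ¬ p ∣ Nat.card C) : HasEnoughRootsOfUnity κ (Monoid.exponent C) := by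
  have h1 : ¬ p ∣ Monoid.exponent C := by
    intro h
    apply hC
    exact h.trans Group.exponent_dvd_nat_card
  have : NeZero ((Monoid.exponent C : ℕ) : κ) :=
    ⟨fun h => h1 ((CharP.cast_eq_zero_iff κ p _).1 h)⟩
  infer_instance

variable {C}

theorem exists_chi (hC : ¬ p ∣ Nat.card C) (c : C) (hc : c ≠ 1) : ∃ χ : C →* κˣ, χ c ≠ 1 := by
  have := enough p κ C hC
  exact CommGroup.exists_apply_ne_one_of_hasEnoughRootsOfUnity C κ hc

theorem card_chi (hC : ¬ p ∣ Nat.card C) [Fintype (C →* κˣ)] :
    Fintype.card (C →* κˣ) = Nat.card C := by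
  have := enough p κ C hC
  rw [← Nat.card_eq_fintype_card]
  exact CommGroup.card_monoidHom_of_hasEnoughRootsOfUnity C κ

theorem orth2 (hC : ¬ p ∣ Nat.card C) [Fintype (C →* κˣ)] (c : C) (hc : c ≠ 1) :
    ∑ χ : C →* κˣ, teiC p κ χ c = 0 := by
  obtain ⟨ψ, hψ⟩ := exists_chi p κ hC c hc
  have h1 : teiC p κ ψ c * ∑ χ : C →* κˣ, teiC p κ χ c = ∑ χ : C →* κˣ, teiC p κ χ c := by
    rw [Finset.mul_sum]
    simp only [← teiC_mul]
    exact Fintype.sum_equiv (Equiv.mulLeft ψ) _ _ fun χ => rfl
  have h2 : (teiC p κ ψ c - 1) * ∑ χ : C →* κˣ, teiC p κ χ c = 0 := by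
    rw [sub_mul, h1, one_mul, sub_self]
  exact (mul_eq_zero.1 h2).resolve_left (teiC_ne p κ ψ c hψ)

theorem orth3 (hC : ¬ p ∣ Nat.card C) [Fintype (C →* κˣ)] (c : C) (hc : c ≠ 1) :
    ∑ χ : C →* κˣ, ((Units.coeHom κ).comp χ) c = 0 := by
  have h := congrArg WittVector.constantCoeff (orth2 p κ hC c hc)
  rw [map_sum, map_zero] at h
  rw [← h]
  exact Finset.sum_congr rfl fun χ _ => (teiC_coeff p κ χ c).symm

/-- idempotents lift -/
theorem witt_lift (hC : ¬ p ∣ Nat.card C) (e : MonoidAlgebra κ C) (he : e * e = e) :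
    ∃ e' : MonoidAlgebra (WittVector p κ) C, e' * e' = e' ∧
      mapRingHom C WittVector.constantCoeff e' = e := by
  classical
  have := Fintype.ofFinite C
  have hfin : Finite (C →* κˣ) := by
    have := enough p κ C hC
    have h := (CommGroup.monoidHom_mulEquiv_of_hasEnoughRootsOfUnity C κ).some
    exact Finite.of_equiv C h.symm.toEquiv
  have := Fintype.ofFinite (C →* κˣ)
  let χκ : (C →* κˣ) → (C →* κ) := fun χ => (Units.coeHom κ).comp χ
  have hcard : Fintype.card C = Nat.card C := Nat.card_eq_fintype_card.symm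
  have hunit : IsUnit ((Fintype.card C : ℕ) : WittVector p κ) := by
    apply WittVector.isUnit_of_coeff_zero_ne_zero
    intro h
    apply hC
    have h1 : WittVector.constantCoeff ((Fintype.card C : ℕ) : WittVector p κ) = (0 : κ) := h
    rw [map_natCast, hcard] at h1
    exact (CharP.cast_eq_zero_iff κ p _).1 h1
  obtain ⟨u, hu⟩ := hunit
  let S : Finset (C →* κˣ) := Finset.univ.filter fun χ => lam (χκ χ) e = 1
  let b : C → WittVector p κ := fun c => (u⁻¹).val * ∑ χ ∈ S, teiC p κ χ c⁻¹
  let E : MonoidAlgebra (WittVector p κ) C := ∑ c, single c (b c)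
  have hEc : ∀ c, E.coeff c = b c := by
    intro c
    show (∑ d, single d (b d) : MonoidAlgebra (WittVector p κ) C).coeff c = _
    rw [coeff_sum, Finsupp.finset_sum_apply, Finset.sum_eq_single c]
    · rw [coeff_single, Finsupp.single_eq_same]
    · intro d _ hd
      rw [coeff_single, Finsupp.single_eq_of_ne (Ne.symm hd)]
    · intro h; exact absurd (Finset.mem_univ _) h
  have hcc : ((Fintype.card C : ℕ) : WittVector p κ) ≠ 0 := by rw [← hu]; exact u.ne_zero
  -- values
  have hlam : ∀ ψ : C →* κˣ, lam (teiC p κ ψ) E = if ψ ∈ S then 1 else 0 := by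
    intro ψ
    show lam (teiC p κ ψ) (∑ c, single c (b c)) = _
    rw [map_sum]
    simp only [lam_single]
    have h1 : ∀ c, b c * teiC p κ ψ c = ∑ χ ∈ S, (u⁻¹).val * teiC p κ (ψ * χ⁻¹) c := by
      intro c
      show ((u⁻¹).val * ∑ χ ∈ S, teiC p κ χ c⁻¹) * teiC p κ ψ c = _
      rw [mul_assoc, Finset.sum_mul, Finset.mul_sum]
      refine Finset.sum_congr rfl fun χ _ => ?_
      rw [teiC_mul, teiC_inv, mul_comm (teiC p κ χ c⁻¹)]
    rw [Finset.sum_congr rfl fun c _ => h1 c, Finset.sum_comm]
    simp only [← Finset.mul_sum]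
    have h2 : ∀ χ : C →* κˣ, ∑ c, teiC p κ (ψ * χ⁻¹) c = if χ = ψ then
        ((Fintype.card C : ℕ) : WittVector p κ) else 0 := by
      intro χ
      split_ifs with h
      · subst h
        have h3 : ∀ c, teiC p κ (χ * χ⁻¹) c = teiC p κ (1 : C →* κˣ) c := by
          intro c
          rw [teiC_mul, teiC_inv, ← map_mul, mul_inv_cancel, map_one]
          show (1 : WittVector p κ) = WittVector.teichmuller p (((1 : κˣ)) : κ)
          rw [Units.val_one, map_one]
        rw [Finset.sum_congr rfl fun c _ => h3 c]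
        have : ∀ c, teiC p κ (1 : C →* κˣ) c = 1 := by
          intro c
          show WittVector.teichmuller p _ = 1
          show WittVector.teichmuller p (((1 : κˣ)) : κ) = 1
          rw [Units.val_one, map_one]
        rw [Finset.sum_congr rfl fun c _ => this c]
        simp
      · apply orth1
        intro h2
        exact h (mul_inv_eq_one.1 h2).symm
    rw [Finset.sum_congr rfl fun χ _ => by rw [h2 χ]]
    rw [Finset.sum_ite_eq' S ψ]
    split_ifs with h
    · rw [← hu]
      exact u.inv_mul
    · rw [mul_zero]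
  have hinj : ∀ x : MonoidAlgebra (WittVector p κ) C, (∀ ψ : C →* κˣ, lam (teiC p κ ψ) x = 0) →
      x = 0 := by
    intro x hx
    apply coeff_injective
    ext1 d
    have h1 := fourier (fun ψ : C →* κˣ => teiC p κ ψ) (orth2 p κ hC) x d
    simp only [hx, mul_zero, Finset.sum_const_zero] at h1
    rw [card_chi p κ hC, ← hcard] at h1
    exact (mul_eq_zero.1 h1.symm).resolve_left hcc
  refine ⟨E, ?_, ?_⟩
  · rw [← sub_eq_zero]
    apply hinj
    intro ψ
    rw [map_sub, map_mul, hlam]
    split_ifs <;> simp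
  · have hmap : ∀ (x : MonoidAlgebra (WittVector p κ) C) (c : C),
        (mapRingHom C WittVector.constantCoeff x).coeff c = WittVector.constantCoeff (x.coeff c) := by
      intro x c
      simp
    apply coeff_injective
    ext1 d
    rw [hmap, hEc]
    have h1 := fourier χκ (orth3 p κ hC) e d
    have h2 : ∀ χ : C →* κˣ, χκ χ d⁻¹ * lam (χκ χ) e = if χ ∈ S then χκ χ d⁻¹ else 0 := by
      intro χ
      have h3 : lam (χκ χ) e * lam (χκ χ) e = lam (χκ χ) e := by rw [← map_mul, he]
      have h4 : χ ∈ S ↔ lam (χκ χ) e = 1 := by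
        simp only [S, Finset.mem_filter, Finset.mem_univ, true_and]
      by_cases h5 : lam (χκ χ) e = 1
      · rw [if_pos (h4.2 h5), h5, mul_one]
      · rw [if_neg fun h6 => h5 (h4.1 h6)]
        have h7 : lam (χκ χ) e = 0 := by
          have h8 : lam (χκ χ) e * (lam (χκ χ) e - 1) = 0 := by rw [mul_sub, h3, mul_one, sub_self]
          exact (mul_eq_zero.1 h8).resolve_right (sub_ne_zero.2 h5)
        rw [h7, mul_zero]
    rw [Finset.sum_congr rfl fun χ _ => h2 χ, Finset.sum_ite_mem, Finset.univ_inter,
      card_chi p κ hC, ← hcard] at h1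
    have h3 : WittVector.constantCoeff (b d) * ((Fintype.card C : ℕ) : κ) =
        ((Fintype.card C : ℕ) : κ) * e.coeff d := by
      rw [← h1]
      have h4 : ((Fintype.card C : ℕ) : κ) = WittVector.constantCoeff u.val := by
        rw [hu, map_natCast]
      rw [h4, ← map_mul]
      have h5 : b d * u.val = ∑ χ ∈ S, teiC p κ χ d⁻¹ := by
        show (u⁻¹).val * (∑ χ ∈ S, teiC p κ χ d⁻¹) * u.val = _
        rw [mul_comm, ← mul_assoc, u.mul_inv, one_mul]
      rw [h5, map_sum]
      exact Finset.sum_congr rfl fun χ _ => teiC_coeff p κ χ _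
    have h4 : ((Fintype.card C : ℕ) : κ) ≠ 0 := by
      rw [hcard]
      intro h
      exact hC ((CharP.cast_eq_zero_iff κ p _).1 h)
    rw [mul_comm] at h3
    exact mul_left_cancel₀ h4 h3

end witt

section datum

variable (p : ℕ) [hp : Fact p.Prime] (k : Type) [Field k] [CharP k p]

/-- the algebraic closure -/
abbrev Kb : Type := AlgebraicClosure k

instance charP_Kb : CharP (Kb k) p := charP_of_injective_algebraMap (algebraMap k (Kb k)).injective p

/-- the Witt vectors -/
abbrev Wb : Type := WittVector p (Kb k)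

/-- the Witt vectors with residue in `k` -/
def Rk : Subring (Wb p k) := (algebraMap k (Kb k)).range.comap WittVector.constantCoeff

/-- the residue map -/
def qk : Rk p k →+* k :=
  ((RingEquiv.ofBijective (algebraMap k (Kb k)).rangeRestrict
    ⟨fun x y h => (algebraMap k (Kb k)).injective (congrArg Subtype.val h),
      (algebraMap k (Kb k)).rangeRestrict_surjective⟩).symm :
      (algebraMap k (Kb k)).range →+* k).comp
    ((WittVector.constantCoeff.comp (Rk p k).subtype).codRestrict (algebraMap k (Kb k)).range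
      fun x => x.2)

theorem qk_spec (r : Rk p k) : algebraMap k (Kb k) (qk p k r) = WittVector.constantCoeff r.1 := by
  have h := (RingEquiv.ofBijective (algebraMap k (Kb k)).rangeRestrict
    ⟨fun x y h => (algebraMap k (Kb k)).injective (congrArg Subtype.val h),
      (algebraMap k (Kb k)).rangeRestrict_surjective⟩).apply_symm_apply
      ((WittVector.constantCoeff.comp (Rk p k).subtype).codRestrict (algebraMap k (Kb k)).range
      (fun x => x.2) r)
  exact congrArg Subtype.val h

/-- the lifting data of a field -/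
def ldk : Ld p k (Rk p k) (Wb p k) where
  q := qk p k
  i := (Rk p k).subtype
  hq := by
    intro x
    obtain ⟨w, hw⟩ := WittVector.constantCoeff_surjective p (R := Kb k) (algebraMap k (Kb k) x)
    refine ⟨⟨w, x, hw.symm⟩, ?_⟩
    apply (algebraMap k (Kb k)).injective
    rw [qk_spec]
    exact hw
  hi := Subtype.val_injective
  ker := by
    intro r hr
    have h1 : WittVector.constantCoeff r.1 = (0 : Kb k) := by rw [← qk_spec, hr, map_zero]
    have h2 : r.1 ∈ RingHom.ker (WittVector.constantCoeff (p := p) (R := Kb k)) := h1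
    rw [WittVector.ker_constantCoeff] at h2
    obtain ⟨b, hb⟩ := Ideal.mem_span_singleton.1 h2
    exact ⟨b, hb⟩
  loc := by
    intro r hr
    have h1 : WittVector.constantCoeff r.1 ≠ (0 : Kb k) := by
      rw [← qk_spec]
      intro h
      apply hr
      apply (algebraMap k (Kb k)).injective
      rw [h, map_zero]
    obtain ⟨u, hu⟩ := WittVector.isUnit_of_coeff_zero_ne_zero r.1 h1
    have h2 : WittVector.constantCoeff (u⁻¹).val = algebraMap k (Kb k) (qk p k r)⁻¹ := by
      have h3 : WittVector.constantCoeff (u.val * (u⁻¹).val) = (1 : Kb k) := by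
        rw [u.mul_inv, map_one]
      rw [map_mul, hu, ← qk_spec] at h3
      rw [map_inv₀]
      exact (inv_eq_of_mul_eq_one_right h3).symm
    refine ⟨⟨r, ⟨(u⁻¹).val, _, h2.symm⟩, ?_, ?_⟩, rfl⟩
    · apply Subtype.ext
      show r.1 * (u⁻¹).val = 1
      rw [← hu, u.mul_inv]
    · apply Subtype.ext
      show (u⁻¹).val * r.1 = 1
      rw [← hu, u.inv_mul]
  lift := by
    intro C _ _ hC e he
    have := Fintype.ofFinite C
    obtain ⟨E, hE, hE'⟩ := witt_lift p (Kb k) hC (mapRingHom C (algebraMap k (Kb k)) e)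
      (by rw [← map_mul, he])
    have hco : ∀ {A B : Type} [CommRing A] [CommRing B] (f : A →+* B) (x : MonoidAlgebra A C)
        (c : C), (mapRingHom C f x).coeff c = f (x.coeff c) := by
      intro A B _ _ f x c
      simp
    have hmem : ∀ c, E.coeff c ∈ Rk p k := by
      intro c
      refine ⟨e.coeff c, ?_⟩
      rw [← hco, ← hE', hco]
    let E' : MonoidAlgebra (Rk p k) C := ∑ c, single c ⟨E.coeff c, hmem c⟩
    have hE'' : mapRingHom C (Rk p k).subtype E' = E := by
      show mapRingHom C (Rk p k).subtype (∑ c, single c ⟨E.coeff c, hmem c⟩) = E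
      rw [map_sum]
      have h1 : ∀ c, mapRingHom C (Rk p k).subtype (single c ⟨E.coeff c, hmem c⟩) =
          single c (E.coeff c) := by
        intro c
        simp
      rw [Finset.sum_congr rfl fun c _ => h1 c]
      conv_rhs => rw [← MonoidAlgebra.sum_coeff_single E]
      rw [Finsupp.sum_fintype]
      intro c
      exact single_zero c
    have hinj : Function.Injective (mapRingHom C (Rk p k).subtype) := by
      intro x y h
      apply coeff_injective
      ext1 c
      have h1 := congrArg (fun z => z.coeff c) h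
      simp only [hco] at h1
      exact Subtype.val_injective h1
    refine ⟨E', ?_, ?_⟩
    · apply hinj
      rw [map_mul, hE'', hE]
    · apply coeff_injective
      ext1 c
      rw [hco]
      apply (algebraMap k (Kb k)).injective
      rw [qk_spec, ← hco (algebraMap k (Kb k)), ← hE', hco, ← hE'', hco]
      rfl

end datum

end

end Pool.Agent.T9h42
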