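import Pool.Agent.Y69.ColDef
import Pool.Agent.Y778.NK.K0Def

/-!
# The group of the symbols `[H, z, x]`, `x ∈ K₀(k[H])`, `z` in the centralizer of `H`

`H` runs through the finite subgroups of a group `G`.
-/

namespace Pool.Agent.T9h42

open Pool.Agent.Y69 (FinSub)
open Pool.Agent.Y778.NK

noncomputable section

/-- The centralizer of a subgroup. -/
abbrev Cz {G : Type} [Group G] (H : Subgroup G) : Subgroup G := Subgroup.centralizer (H : Set G)

/-- The group `K₀(k[H])`. -/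
def GK0 (k H : Type) [CommRing k] [Group H] : Type := K0 (MonoidAlgebra k H)

instance (k H : Type) [CommRing k] [Group H] : AddCommGroup (GK0 k H) :=
  (inferInstance : AddCommGroup (K0 (MonoidAlgebra k H)))

/-- The map `K₀(k[φ]) : K₀(k[H]) → K₀(k[K])` induced by a group homomorphism `φ : H → K`. -/
def GK0.map {k H K : Type} [CommRing k] [Group H] [Group K] (φ : H →* K) : GK0 k H →+ GK0 k K :=
  K0.map (MonoidAlgebra.mapDomainRingHom k φ)

/-- The set of the symbols `[H, z, x]`, for `H` a finite subgroup of `G`, `z` in the centralizer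
of `H` and `x ∈ K₀(k[H])`. -/
def ZSym (k G : Type) [CommRing k] [Group G] : Type := Σ H : FinSub G, Cz H.1 × GK0 k H.1

/-- The symbol `[H, z, x]` as an element of the free abelian group on the symbols. -/
def zsym {k G : Type} [CommRing k] [Group G] (H : FinSub G) (z : Cz H.1) (x : GK0 k H.1) :
    FreeAbelianGroup (ZSym k G) :=
  FreeAbelianGroup.of ⟨H, z, x⟩

/-- The relations between the symbols: `[H, z, x]` is additive in `x` and in `z`, and
`[K, g z g⁻¹, K₀(k[φ])(x)] = [H, z, x]` if `φ : H → K` is given by conjugation with `g` and `g z g⁻¹`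
is in the centralizer of `K`. -/
def ZRel (k G : Type) [CommRing k] [Group G] : Set (FreeAbelianGroup (ZSym k G)) :=
  {w | (∃ (H : FinSub G) (z : Cz H.1) (x y : GK0 k H.1),
      w = zsym H z (x + y) - (zsym H z x + zsym H z y)) ∨
    (∃ (H : FinSub G) (z z' : Cz H.1) (x : GK0 k H.1),
      w = zsym H (z * z') x - (zsym H z x + zsym H z' x)) ∨
    ∃ (H K : FinSub G) (g : G) (φ : H.1 →* K.1) (z : Cz H.1) (z' : Cz K.1) (x : GK0 k H.1),
      (∀ h : H.1, (φ h : G) = g * h * g⁻¹) ∧ (z' : G) = g * z * g⁻¹ ∧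
        w = zsym K z' (GK0.map φ x) - zsym H z x}

/-- The abelian group generated by the symbols `[H, z, x]` with the above relations. -/
def ZK (k G : Type) [CommRing k] [Group G] : Type :=
  FreeAbelianGroup (ZSym k G) ⧸ AddSubgroup.closure (ZRel k G)

instance (k G : Type) [CommRing k] [Group G] : AddCommGroup (ZK k G) :=
  QuotientAddGroup.Quotient.addCommGroup (AddSubgroup.closure (ZRel k G))

/-- The symbol `[H, z, x]`. -/
def ZK.of {k G : Type} [CommRing k] [Group G] (H : FinSub G) (z : Cz H.1) (x : GK0 k H.1) :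
    ZK k G := QuotientAddGroup.mk (zsym H z x)

/-- The subgroup generated by the symbols `[C, z, x]`, where `C` is cyclic of order prime to `p` and
all homomorphisms from the centralizer of `C` to the `p`-adic integers vanish at `z`. -/
def Dv (k : Type) [CommRing k] (G : Type) [Group G] (p : ℕ) [Fact p.Prime] :
    AddSubgroup (ZK k G) :=
  AddSubgroup.closure {y | ∃ (H : FinSub G) (z : Cz H.1) (x : GK0 k H.1),
    IsCyclic H.1 ∧ ¬ p ∣ Nat.card H.1 ∧ (∀ χ : Cz H.1 →* Multiplicative ℤ_[p], χ z = 1) ∧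
      y = ZK.of H z x}

section api

variable {k G : Type} [CommRing k] [Group G]

theorem ZK.mk_rel {w : FreeAbelianGroup (ZSym k G)} (h : w ∈ ZRel k G) :
    (QuotientAddGroup.mk w : ZK k G) = 0 :=
  (QuotientAddGroup.eq_zero_iff w).2 (AddSubgroup.subset_closure h)

theorem ZK.of_add (H : FinSub G) (z : Cz H.1) (x y : GK0 k H.1) :
    ZK.of H z (x + y) = ZK.of H z x + ZK.of H z y :=
  sub_eq_zero.1 (ZK.mk_rel (Or.inl ⟨H, z, x, y, rfl⟩))

theorem ZK.of_mul (H : FinSub G) (z z' : Cz H.1) (x : GK0 k H.1) :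
    ZK.of H (z * z') x = ZK.of H z x + ZK.of H z' x :=
  sub_eq_zero.1 (ZK.mk_rel (Or.inr (Or.inl ⟨H, z, z', x, rfl⟩)))

theorem ZK.of_rel (H K : FinSub G) (g : G) (φ : H.1 →* K.1) (z : Cz H.1) (z' : Cz K.1)
    (hφ : ∀ h : H.1, (φ h : G) = g * h * g⁻¹) (hz : (z' : G) = g * z * g⁻¹) (x : GK0 k H.1) :
    ZK.of K z' (GK0.map φ x) = ZK.of H z x :=
  sub_eq_zero.1 (ZK.mk_rel (Or.inr (Or.inr ⟨H, K, g, φ, z, z', x, hφ, hz, rfl⟩)))

/-- additivity in `x` -/
def ZK.hom (H : FinSub G) (z : Cz H.1) : GK0 k H.1 →+ ZK k G where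
  toFun := ZK.of H z
  map_zero' := by
    have h := ZK.of_add H z (0 : GK0 k H.1) 0
    rw [add_zero] at h
    exact left_eq_add.1 h
  map_add' := ZK.of_add H z

/-- additivity in `z` -/
def ZK.zhom (H : FinSub G) (x : GK0 k H.1) : Cz H.1 →* Multiplicative (ZK k G) where
  toFun z := Multiplicative.ofAdd (ZK.of H z x)
  map_one' := by
    have h := ZK.of_mul H 1 1 x
    rw [mul_one] at h
    exact congrArg Multiplicative.ofAdd (left_eq_add.1 h)
  map_mul' z z' := congrArg Multiplicative.ofAdd (ZK.of_mul H z z' x)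

theorem ZK.of_pow (H : FinSub G) (z : Cz H.1) (n : ℕ) (x : GK0 k H.1) :
    ZK.of H (z ^ n) x = n • ZK.of H z x :=
  congrArg Multiplicative.toAdd (map_pow (ZK.zhom H x) z n)

/-- the map on the free abelian group -/
def ZK.pre {B : Type*} [AddCommGroup B] (f : ∀ H : FinSub G, Cz H.1 → (GK0 k H.1 →+ B)) :
    FreeAbelianGroup (ZSym k G) →+ B :=
  FreeAbelianGroup.lift fun s => f s.1 s.2.1 s.2.2

theorem ZK.pre_sym {B : Type*} [AddCommGroup B] (f : ∀ H : FinSub G, Cz H.1 → (GK0 k H.1 →+ B))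
    (H : FinSub G) (z : Cz H.1) (x : GK0 k H.1) : ZK.pre f (zsym H z x) = f H z x :=
  FreeAbelianGroup.lift_apply_of _ _

theorem ZK.pre_aux {B : Type*} [AddCommGroup B] (f : ∀ H : FinSub G, Cz H.1 → (GK0 k H.1 →+ B))
    (hmul : ∀ (H : FinSub G) (z z' : Cz H.1) (x), f H (z * z') x = f H z x + f H z' x)
    (hf : ∀ (H K : FinSub G) (g : G) (φ : H.1 →* K.1) (z : Cz H.1) (z' : Cz K.1),
      (∀ h : H.1, (φ h : G) = g * h * g⁻¹) → (z' : G) = g * z * g⁻¹ →
      ∀ x, f K z' (GK0.map φ x) = f H z x) : AddSubgroup.closure (ZRel k G) ≤ (ZK.pre f).ker := by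
  rw [AddSubgroup.closure_le]
  rintro w (⟨H, z, x, y, rfl⟩ | ⟨H, z, z', x, rfl⟩ | ⟨H, K, g, φ, z, z', x, hφ, hz, rfl⟩)
  · show ZK.pre f _ = 0
    rw [map_sub, map_add, ZK.pre_sym, ZK.pre_sym, ZK.pre_sym, sub_eq_zero, map_add]
  · show ZK.pre f _ = 0
    rw [map_sub, map_add, ZK.pre_sym, ZK.pre_sym, ZK.pre_sym, sub_eq_zero]
    exact hmul H z z' x
  · show ZK.pre f _ = 0
    rw [map_sub, ZK.pre_sym, ZK.pre_sym, sub_eq_zero]
    exact hf H K g φ z z' hφ hz x

/-- the universal property -/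
def ZK.lift {B : Type*} [AddCommGroup B] (f : ∀ H : FinSub G, Cz H.1 → (GK0 k H.1 →+ B))
    (hmul : ∀ (H : FinSub G) (z z' : Cz H.1) (x), f H (z * z') x = f H z x + f H z' x)
    (hf : ∀ (H K : FinSub G) (g : G) (φ : H.1 →* K.1) (z : Cz H.1) (z' : Cz K.1),
      (∀ h : H.1, (φ h : G) = g * h * g⁻¹) → (z' : G) = g * z * g⁻¹ →
      ∀ x, f K z' (GK0.map φ x) = f H z x) : ZK k G →+ B :=
  QuotientAddGroup.lift (AddSubgroup.closure (ZRel k G)) (ZK.pre f) (ZK.pre_aux f hmul hf)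

theorem ZK.lift_of {B : Type*} [AddCommGroup B] (f : ∀ H : FinSub G, Cz H.1 → (GK0 k H.1 →+ B))
    (hmul : ∀ (H : FinSub G) (z z' : Cz H.1) (x), f H (z * z') x = f H z x + f H z' x)
    (hf : ∀ (H K : FinSub G) (g : G) (φ : H.1 →* K.1) (z : Cz H.1) (z' : Cz K.1),
      (∀ h : H.1, (φ h : G) = g * h * g⁻¹) → (z' : G) = g * z * g⁻¹ →
      ∀ x, f K z' (GK0.map φ x) = f H z x) (H : FinSub G) (z : Cz H.1) (x : GK0 k H.1) :
    ZK.lift f hmul hf (ZK.of H z x) = f H z x := by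
  show QuotientAddGroup.lift _ _ _ (QuotientAddGroup.mk _) = _
  rw [QuotientAddGroup.lift_mk, ZK.pre_sym]

theorem ZK.induction {P : ZK k G → Prop} (h0 : P 0)
    (hadd : ∀ x y, P x → P y → P (x + y)) (hneg : ∀ x, P x → P (-x))
    (hι : ∀ (H : FinSub G) (z : Cz H.1) (x : GK0 k H.1), P (ZK.of H z x)) (w : ZK k G) : P w := by
  let q : FreeAbelianGroup (ZSym k G) →+ ZK k G :=
    QuotientAddGroup.mk' (AddSubgroup.closure (ZRel k G))
  obtain ⟨y, rfl⟩ : ∃ y, q y = w := QuotientAddGroup.mk'_surjective _ w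
  induction y using FreeAbelianGroup.induction_on with
  | zero => rw [map_zero]; exact h0
  | of y => exact hι y.1 y.2.1 y.2.2
  | neg y h => rw [map_neg]; exact hneg _ h
  | add y z hy hz => rw [map_add]; exact hadd _ _ hy hz

end api

end

end Pool.Agent.T9h42
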