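import Pool.Agent.T9h42.DP.Bt
import Pool.Agent.Y69.TP.Wit
import Pool.Agent.Y69.TP.KFinP

/-!
# Degree one in characteristic `p`
-/

set_option linter.unusedSectionVars false

namespace Pool.Agent.T9h42

open MonoidAlgebra H970SH H842 Pool.Agent.Y69 Pool.Agent.Y69.StepC Pool.Agent.Y778.NK

noncomputable section

section fin

variable {p : ℕ} [hp : Fact p.Prime] {k R W : Type} [Field k] [CharP k p] [CommRing R] [CommRing W]
  [IsDomain W] (D : Ld p k R W) {G : Type} [Group G]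

theorem tf_nat {A : Type} [CommRing A] (h : TF A) (n : ℕ) (x : A) (hn : 0 < n)
    (hx : n • x = 0) : x = 0 :=
  h n x (by exact_mod_cast hn.ne') (by rw [natCast_zsmul]; exact hx)

/-- traces of matrices congruent to `1` vanish -/
theorem Dn_cong (htfW : TF W) (hsep : ∀ x : W, (∀ n : ℕ, ∃ y, x = p ^ n • y) → x = 0)
    (f : G → G → W) (hf : ∀ x y z, f (x * y) z - f x (y * z) + f (z * x) y = 0)
    (hX : ∀ x y, ¬ (0 < orderOf (x * y)) → f x y = 0) {n : ℕ}
    (B : (Matrix (Fin n) (Fin n) (MonoidAlgebra R G))ˣ) (hB : mapUnit (mapRingHom G D.q) B = 1) :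
    Dn f hf (K1map (mapRingHom G D.i) (cl B)) = 0 := by
  rw [K1map_cl, Dn_cl, ← prg_prm]
  have key : ∀ (B : (Matrix (Fin n) (Fin n) (MonoidAlgebra R G))ˣ),
      mapUnit (mapRingHom G D.q) B = 1 → ∀ g, g ≠ 1 →
      ∃ Q, cf (mapUnit (mapRingHom G D.i) B).val g = p • Q := by
    intro B hB g hg
    have h1 : ∀ i j, ∃ s, D.i ((B.val i j).coeff g) = (p : W) * s := by
      intro i j
      apply D.ker
      have h2 := congrArg (fun U : (Matrix (Fin n) (Fin n) (MonoidAlgebra k G))ˣ =>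
        (U.val i j).coeff g) hB
      have h3 : ((mapUnit (mapRingHom G D.q) B).val i j).coeff g =
          D.q ((B.val i j).coeff g) := by
        rw [mapUnit_val, Matrix.map_apply, mapi_coeff]
      rw [← h3]
      refine h2.trans ?_
      show ((1 : Matrix (Fin n) (Fin n) (MonoidAlgebra k G)) i j).coeff g = 0
      rw [Matrix.one_apply]
      split_ifs
      · rw [one_def, coeff_single, Finsupp.single_eq_of_ne hg]
      · rfl
    choose Q hQ using h1
    refine ⟨Matrix.of Q, ?_⟩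
    ext i j
    rw [Matrix.smul_apply, Matrix.of_apply, nsmul_eq_mul, ← hQ]
    show ((mapUnit (mapRingHom G D.i) B).val i j).coeff g = _
    rw [mapUnit_val, Matrix.map_apply, mapi_coeff]
  refine prg_cong f hf (fun n x hn hx => tf_nat htfW n x hn hx) hp.out hsep hX
    (Units.mul_inv _) (Units.inv_mul _) (key B hB) ?_
  have h1 := key B⁻¹ (by rw [mapUnit_inv, hB, inv_one])
  rwa [mapUnit_inv] at h1

include D in
/-- **Main theorem.** -/
theorem main_p (htf : TF R) (htfW : TF W)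
    (hsep : ∀ x : W, (∀ n : ℕ, ∃ y, x = p ^ n • y) → x = 0)
    (j : ℤ_[p] →+* W) (hj : Function.Injective j) (x : K1Colim k G) (ξ : ZK k G) (n : ℕ)
    (hn : 0 < n) (h : n • (K1assembly k G x + bt k G ξ) = 0) :
    ∃ l : ℕ, 0 < l ∧ l • ξ ∈ Dv k G p := by
  obtain ⟨m, hm, N, X, hX⟩ := ZK_mem D htf ξ
  obtain ⟨m', a, hm', ha, ha0⟩ := Lq_colim D (tf_nat htfW) x
  obtain ⟨b, hb⟩ : ∃ b, b = ∑ i, (X i).lf htf := ⟨_, rfl⟩
  have hb1 : K1map (mapRingHom G D.q) b = m • bt k G ξ := by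
    rw [hb, map_sum, Finset.sum_congr rfl fun i _ => (X i).lf_q D htf, ← map_sum, ← hX, map_nsmul]
  obtain ⟨n', A, hA⟩ := K1_exists (n • (m • a) + n • (m' • b))
  have h1 : cl (mapUnit (mapRingHom G D.q) A) = 0 := by
    rw [← K1map_cl, ← hA, map_add, map_nsmul, map_nsmul, map_nsmul, map_nsmul, ha, hb1]
    have h2 : n • m • m' • K1assembly k G x + n • m' • m • bt k G ξ =
        (m * m') • (n • (K1assembly k G x + bt k G ξ)) := by
      rw [smul_add, smul_add, ← mul_smul, ← mul_smul, ← mul_smul, ← mul_smul, ← mul_smul,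
        ← mul_smul]
      congr 2 <;> ring
    rw [h2, h, smul_zero]
  obtain ⟨N', B, hB, hB1⟩ := ker_lift (mapq_surj D) A h1
  have h0 : ∀ c : G, 0 < orderOf c → ∀ χ : G → W, AddOnC c χ →
      ∑ i, (X i).trc D c χ = 0 := by
    intro c hc χ hχ
    have h2 := Dn_cong D htfW hsep (cocf c χ) (cocf_coc hχ) (cocf_supp hc) B hB1
    rw [hB, ← hA, map_add, map_nsmul, map_nsmul, map_nsmul, map_nsmul, map_add, map_nsmul,
      map_nsmul, map_nsmul, map_nsmul, ha0, smul_zero, smul_zero, zero_add] at h2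
    have h3 := tf_nat htfW _ _ hm' (tf_nat htfW _ _ hn h2)
    rw [hb, map_sum, map_sum] at h3
    rw [← h3]
    exact Finset.sum_congr rfl fun i _ => ((X i).lf_trc D htf htfW hχ).symm
  obtain ⟨l, hl, h2⟩ := global_dv D htf j hj Finset.univ X h0
  refine ⟨l * m, Nat.mul_pos hl hm, ?_⟩
  rw [mul_smul, hX]
  exact h2

end fin

section inst

variable (p : ℕ) [hp : Fact p.Prime] (k : Type) [Field k] [CharP k p] (G : Type) [Group G]

theorem tf_witt : TF (Wb p k) := by
  intro n a hn h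
  rw [zsmul_eq_mul] at h
  refine (mul_eq_zero.1 h).resolve_left ?_
  intro h1
  apply Pool.Agent.Y69.TP.witt_natCast_ne_zero p (Kb k) n.natAbs (Int.natAbs_ne_zero.2 hn)
  rcases Int.natAbs_eq n with h2 | h2
  · rw [h2, Int.cast_natCast] at h1
    exact h1
  · rw [h2, Int.cast_neg, neg_eq_zero, Int.cast_natCast] at h1
    exact h1

theorem tf_Rk : TF (Rk p k) := by
  intro n a hn h
  apply Subtype.ext
  apply tf_witt p k n _ hn
  have := congrArg Subtype.val h
  exact this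

theorem sep_witt (x : Wb p k) (h : ∀ n : ℕ, ∃ y, x = p ^ n • y) : x = 0 := by
  apply WittVector.ext
  intro n
  obtain ⟨y, hy⟩ := h (n + 1)
  rw [hy, nsmul_eq_mul, Nat.cast_pow, mul_comm, WittVector.mul_pow_charP_coeff_zero y
    (Nat.lt_succ_self n), WittVector.zero_coeff]

/-- the embedding of the `p`-adic integers -/
def jw : ℤ_[p] →+* Wb p k :=
  (WittVector.map (ZMod.castHom dvd_rfl (Kb k))).comp (WittVector.fromPadicInt p)

theorem jw_inj : Function.Injective (jw p k) := by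
  have h1 : Function.Injective (WittVector.fromPadicInt p) :=
    Function.LeftInverse.injective (g := WittVector.toPadicInt p) fun x => by
      have := WittVector.toPadicInt_comp_fromPadicInt_ext p x
      exact this
  exact (WittVector.map_injective _ (ZMod.castHom dvd_rfl (Kb k)).injective).comp h1

theorem main_k (x : K1Colim k G) (ξ : ZK k G) (n : ℕ)
    (hn : 0 < n) (h : n • (K1assembly k G x + bt k G ξ) = 0) :
    ∃ l : ℕ, 0 < l ∧ l • ξ ∈ Dv k G p :=
  main_p (ldk p k) (tf_Rk p k) (tf_witt p k) (sep_witt p k) (jw p k) (jw_inj p k) x ξ n hn h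

variable {k G}

theorem dv_tors (hyp : ∀ (H : FinSub G) (z : Cz H.1), IsCyclic H.1 → ¬ p ∣ Nat.card H.1 →
      (∀ χ : Cz H.1 →* Multiplicative ℤ_[p], χ z = 1) →
        ∃ m, 0 < m ∧ z ^ m ∈ commutator (Cz H.1)) {y : ZK k G} (hy : y ∈ Dv k G p) :
    ∃ l : ℕ, 0 < l ∧ l • y = 0 := by
  unfold Dv at hy
  induction hy using AddSubgroup.closure_induction with
  | mem y hy =>
    obtain ⟨H, z, x, hH, hp', hz, rfl⟩ := hy
    obtain ⟨m, hm, h⟩ := hyp H z hH hp' hz
    refine ⟨m, hm, ?_⟩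
    rw [← ZK.of_pow]
    have h1 : ZK.zhom H x (z ^ m) = 1 := by
      have h2 : commutator (Cz H.1) ≤ (ZK.zhom (k := k) H x).ker :=
        Abelianization.commutator_subset_ker _
      exact h2 h
    exact congrArg Multiplicative.toAdd h1
  | zero => exact ⟨1, one_pos, smul_zero _⟩
  | add x y _ _ hx hy =>
    obtain ⟨m, hm, hx⟩ := hx
    obtain ⟨n, hn, hy⟩ := hy
    refine ⟨m * n, Nat.mul_pos hm hn, ?_⟩
    rw [smul_add, mul_comm, mul_smul, hx, smul_zero, mul_comm, mul_smul, hy, smul_zero, add_zero]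
  | neg x _ hx =>
    obtain ⟨m, hm, hx⟩ := hx
    exact ⟨m, hm, by rw [smul_neg, hx, neg_zero]⟩

end inst


theorem fg_hyp (p : ℕ) [Fact p.Prime] {A : Type} [CommGroup A] [Group.FG A] (a : A)
    (h : ∀ χ : A →* Multiplicative ℤ_[p], χ a = 1) : ∃ m : ℕ, 0 < m ∧ a ^ m = 1 := by
  classical
  let M := Additive A
  have h1 : Module.Finite ℤ M := Module.Finite.iff_addGroup_fg.2 inferInstance
  let T := Submodule.torsion ℤ M
  have h2 : Module.Free ℤ (M ⧸ T) := inferInstance
  let b := Module.Free.chooseBasis ℤ (M ⧸ T)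
  have h3 : T.mkQ (Additive.ofMul a) = 0 := by
    by_contra hne
    obtain ⟨i, hi⟩ : ∃ i, b.repr (T.mkQ (Additive.ofMul a)) i ≠ 0 := by
      by_contra hc
      push Not at hc
      apply hne
      apply b.repr.injective
      ext i
      rw [hc i, map_zero]
      rfl
    let f : M →+ ℤ_[p] := (Int.castAddHom ℤ_[p]).comp
      ((b.coord i).comp T.mkQ).toAddMonoidHom
    have h4 := h (AddMonoidHom.toMultiplicativeRight f)
    have h5 : f (Additive.ofMul a) = 0 := congrArg Multiplicative.toAdd h4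
    apply hi
    have h6 : ((b.repr (T.mkQ (Additive.ofMul a)) i : ℤ) : ℤ_[p]) = 0 := h5
    exact_mod_cast h6
  rw [Submodule.mkQ_apply, Submodule.Quotient.mk_eq_zero, Submodule.mem_torsion_iff] at h3
  obtain ⟨n, hn⟩ := h3
  have h7 : (n : ℤ) • (Additive.ofMul a) = 0 := hn
  refine ⟨(n : ℤ).natAbs, Int.natAbs_pos.2 (nonZeroDivisors.coe_ne_zero n), ?_⟩
  have h8 : a ^ (n : ℤ) = 1 := congrArg Additive.toMul h7
  rcases Int.natAbs_eq (n : ℤ) with h9 | h9
  · rw [h9, zpow_natCast] at h8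
    exact h8
  · rw [h9, zpow_neg, zpow_natCast, inv_eq_one] at h8
    exact h8

section stmt

theorem bt_mk (k G : Type) [Field k] [Group G] (H : FinSub G) (z : Cz H.1) (n : ℕ)
    (e : IdMat (MonoidAlgebra k H.1) n) : bt k G (ZK.of H z (K0.mk e : K0 (MonoidAlgebra k H.1))) =
      K1.mk (tw ((e : Matrix (Fin n) (Fin n) (MonoidAlgebra k H.1)).map
        (mapDomainRingHom k H.1.subtype)) (map_idem _ e.2) (gu k (z : G))
        (cm _ _ (gu_comm H.1.subtype (z : G) (fin_comm G H z)) _)) := by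
  rw [bt_of, ← cl_fin]
  exact nu_mk _ _ _ e

theorem tors_all {k G : Type} [Field k] [Group G] {p : ℕ} [hp : Fact p.Prime] [CharP k p]
    (hyp : ∀ (H : FinSub G) (z : Cz H.1), IsCyclic H.1 → ¬ p ∣ Nat.card H.1 →
      (∀ χ : Cz H.1 →* Multiplicative ℤ_[p], χ z = 1) →
        ∃ m, 0 < m ∧ z ^ m ∈ commutator (Cz H.1))
    (x : K1Colim k G) (ξ : ZK k G) (n : ℕ)
    (hn : 0 < n) (h : n • (K1assembly k G x + bt k G ξ) = 0) :
    ∃ l : ℕ, 0 < l ∧ l • x = 0 ∧ l • ξ = 0 := by
  obtain ⟨l, hl, h1⟩ := main_k p k G x ξ n hn h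
  obtain ⟨m, hm, h2⟩ := dv_tors p hyp h1
  have h3 : (n * (m * l)) • K1assembly k G x = 0 := by
    have h4 : (m * l) • (n • (K1assembly k G x + bt k G ξ)) = 0 := by rw [h, smul_zero]
    rw [smul_add, smul_add, ← mul_smul, ← mul_smul] at h4
    have h5 : (m * l * n) • bt k G ξ = 0 := by
      rw [← map_nsmul, mul_comm (m * l) n, mul_smul, mul_smul, h2, smul_zero, map_zero]
    rw [h5, add_zero, mul_comm] at h4
    exact h4
  obtain ⟨l', hl', h6⟩ := Pool.Agent.Y69.TP.main_fieldP (G := G) k p x (n * (m * l))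
    (Nat.mul_pos hn (Nat.mul_pos hm hl)) h3
  refine ⟨l' * (m * l), Nat.mul_pos hl' (Nat.mul_pos hm hl), ?_, ?_⟩
  · rw [mul_comm, mul_smul, h6, smul_zero]
  · rw [mul_smul, mul_smul, h2, smul_zero]

end stmt

end

end Pool.Agent.T9h42
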