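import Mathlib

/-!
# Traces of idempotent matrices over commutative rings
-/

namespace Pool.Agent.T9h42

open Matrix Polynomial

noncomputable section

section gold

variable {A : Type} [CommRing A] {ι : Type} [Fintype ι] [DecidableEq ι]

/-- the rank polynomial -/
def rkP (E : Matrix ι ι A) : A[X] := (1 + (X - 1 : A[X]) • E.map C).det

theorem aeval_rkP {B : Type} [CommRing B] [Algebra A B] (E : Matrix ι ι A) (b : B) :
    aeval b (rkP E) = (1 + (b - 1) • E.map (algebraMap A B)).det := by
  unfold rkP
  rw [AlgHom.map_det]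
  congr 1
  ext i j
  simp [Matrix.one_apply, apply_ite]

theorem rkP_mul {B : Type} [CommRing B] [Algebra A B] (E : Matrix ι ι A) (hE : E * E = E)
    (b c : B) : aeval b (rkP E) * aeval c (rkP E) = aeval (b * c) (rkP E) := by
  rw [aeval_rkP, aeval_rkP, aeval_rkP, ← Matrix.det_mul]
  congr 1
  have h1 : E.map (algebraMap A B) * E.map (algebraMap A B) = E.map (algebraMap A B) := by
    rw [← Matrix.map_mul, hE]
  rw [Matrix.add_mul, Matrix.mul_add, Matrix.mul_add, Matrix.smul_mul, Matrix.smul_mul,
    Matrix.mul_smul, Matrix.mul_smul, h1, Matrix.mul_one, Matrix.one_mul, smul_smul]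
  have h2 : (b * c - 1) = (c - 1) + ((b - 1) + (b - 1) * (c - 1)) := by ring
  rw [h2, add_smul, add_smul, Matrix.mul_one]
  abel

theorem coeff_aeval_mul (P : A[X]) (i : ℕ) :
    (aeval ((C X : A[X][X]) * X) P).coeff i = C (P.coeff i) * X ^ i := by
  induction P using Polynomial.induction_on' with
  | add p q hp hq => rw [map_add, coeff_add, hp, hq, coeff_add, C_add, add_mul]
  | monomial n a =>
    rw [aeval_monomial, mul_pow, ← C_pow, coeff_monomial]
    have h1 : (algebraMap A A[X][X]) a = C (C a) := rfl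
    rw [h1, ← mul_assoc, ← C_mul, coeff_C_mul_X_pow]
    split_ifs with h1 h2 h2
    · rw [h1]
    · exact absurd h1.symm h2
    · exact absurd h2.symm h1
    · rw [C_0, zero_mul]

theorem rkP_coeff_mul (E : Matrix ι ι A) (hE : E * E = E) (i : ℕ) :
    rkP E * C ((rkP E).coeff i) = C ((rkP E).coeff i) * X ^ i := by
  have h1 : (aeval (C X : A[X][X]) (rkP E) * aeval (X : A[X][X]) (rkP E)).coeff i =
      (aeval (C X * X : A[X][X]) (rkP E)).coeff i :=
    congrArg (fun P => coeff P i) (rkP_mul (B := A[X][X]) E hE (C X) X)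
  rw [coeff_aeval_mul] at h1
  have h2 : aeval (C X : A[X][X]) (rkP E) = C (rkP E) := by
    have : (aeval (C X : A[X][X]) : A[X] →ₐ[A] A[X][X]) =
        (CAlgHom (R := A[X]) (A := A[X])).restrictScalars A := by
      apply Polynomial.algHom_ext
      rw [aeval_X]
      rfl
    rw [this]
    rfl
  have h3 : (aeval (X : A[X][X]) (rkP E)).coeff i = C ((rkP E).coeff i) := by
    have : ∀ P : A[X], (aeval (X : A[X][X]) P).coeff i = C (P.coeff i) := by
      intro P
      induction P using Polynomial.induction_on' with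
      | add p q hp hq => rw [map_add, coeff_add, hp, hq, coeff_add, C_add]
      | monomial n a =>
        rw [aeval_monomial, coeff_monomial]
        have h1 : (algebraMap A A[X][X]) a = C (C a) := rfl
        rw [h1, coeff_C_mul_X_pow]
        split_ifs with h1 h2 h2
        · rfl
        · exact absurd h1.symm h2
        · exact absurd h2.symm h1
        · rw [C_0]
    exact this _
  rw [h2, coeff_C_mul, h3] at h1
  exact h1

theorem rkP_idem (E : Matrix ι ι A) (hE : E * E = E) (i : ℕ) :
    (rkP E).coeff i * (rkP E).coeff i = (rkP E).coeff i := by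
  have h1 : (rkP E * C ((rkP E).coeff i)).coeff i = (C ((rkP E).coeff i) * X ^ i).coeff i :=
    congrArg (fun P => coeff P i) (rkP_coeff_mul E hE i)
  rw [coeff_mul_C, coeff_C_mul_X_pow, if_pos rfl] at h1
  exact h1

theorem trace_eq (E : Matrix ι ι A) :
    E.trace = (rkP E).sum fun i a => i • a := by
  have h1 : (taylor 1 (rkP E)) = (1 + (X : A[X]) • E.map C).det := by
    have h2 := aeval_rkP (B := A[X]) E (X + 1)
    have h3 : (X + 1 - 1 : A[X]) = X := by ring
    rw [h3] at h2
    rw [taylor_apply, C_1]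
    exact h2
  have h4 := Matrix.coeff_det_one_add_X_smul_one E
  rw [← h1, taylor_coeff_one, derivative_eval] at h4
  rw [← h4]
  unfold Polynomial.sum
  refine Finset.sum_congr rfl fun i _ => ?_
  show (rkP E).coeff i * (i : A) * 1 ^ (i - 1) = i • (rkP E).coeff i
  rw [one_pow, mul_one, nsmul_eq_mul, mul_comm]

/-- the subgroup generated by the idempotents -/
def Hn (A : Type) [CommRing A] : AddSubgroup A := AddSubgroup.closure {e : A | e * e = e}

theorem Hn_idem {e : A} (he : e * e = e) : e ∈ Hn A := AddSubgroup.subset_closure he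

/-- traces of idempotent matrices are combinations of idempotents -/
theorem trace_mem (E : Matrix ι ι A) (hE : E * E = E) : E.trace ∈ Hn A := by
  rw [trace_eq]
  unfold Polynomial.sum
  exact AddSubgroup.sum_mem _ fun i _ => AddSubgroup.nsmul_mem _ (Hn_idem (rkP_idem E hE i)) i

end gold

section atoms

variable {A : Type} [CommRing A]

/-- the atoms of the Boolean algebra generated by a finite family of idempotents -/
def atm {N : ℕ} (e : Fin N → A) (S : Finset (Fin N)) : A :=
  (∏ i ∈ S, e i) * ∏ i ∈ Sᶜ, (1 - e i)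

theorem atm_sum {N : ℕ} (e : Fin N → A) : ∑ S : Finset (Fin N), atm e S = 1 := by
  have h := Finset.prod_add e (fun i => 1 - e i) Finset.univ
  simp only [add_sub_cancel, Finset.prod_const_one, Finset.powerset_univ] at h
  rw [h]
  refine Finset.sum_congr rfl fun S _ => ?_
  unfold atm
  rw [Finset.compl_eq_univ_sdiff]

theorem mul_atm {N : ℕ} (e : Fin N → A) (he : ∀ i, e i * e i = e i) (i : Fin N)
    (S : Finset (Fin N)) : e i * atm e S = if i ∈ S then atm e S else 0 := by
  unfold atm
  split_ifs with h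
  · rw [← mul_assoc, ← Finset.mul_prod_erase S e h, ← mul_assoc, he]
  · have h1 : i ∈ Sᶜ := Finset.mem_compl.2 h
    rw [← Finset.mul_prod_erase Sᶜ (fun i => 1 - e i) h1]
    have h2 : e i * (1 - e i) = 0 := by rw [mul_sub, mul_one, he, sub_self]
    calc e i * ((∏ i ∈ S, e i) * ((1 - e i) * ∏ j ∈ Sᶜ.erase i, (1 - e j)))
        = (e i * (1 - e i)) * ((∏ i ∈ S, e i) * ∏ j ∈ Sᶜ.erase i, (1 - e j)) := by ring
      _ = 0 := by rw [h2, zero_mul]

theorem one_sub_mul_atm {N : ℕ} (e : Fin N → A) (he : ∀ i, e i * e i = e i) (i : Fin N)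
    (S : Finset (Fin N)) : (1 - e i) * atm e S = if i ∈ S then 0 else atm e S := by
  rw [sub_mul, one_mul, mul_atm e he]
  split_ifs <;> simp

theorem atm_orth {N : ℕ} (e : Fin N → A) (he : ∀ i, e i * e i = e i) {S T : Finset (Fin N)}
    (h : S ≠ T) : atm e S * atm e T = 0 := by
  have h1 : ∃ i, ¬ (i ∈ S ↔ i ∈ T) := by
    by_contra h2
    push Not at h2
    exact h (Finset.ext h2)
  obtain ⟨i, hi⟩ := h1
  by_cases hS : i ∈ S
  · have hT : i ∉ T := fun h2 => hi ⟨fun _ => h2, fun _ => hS⟩
    have h2 := mul_atm e he i S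
    rw [if_pos hS] at h2
    rw [← h2, mul_comm (e i), mul_assoc, mul_atm e he, if_neg hT, mul_zero]
  · have hT : i ∈ T := by
      by_contra h2
      exact hi ⟨fun h3 => absurd h3 hS, fun h3 => absurd h3 h2⟩
    have h2 := one_sub_mul_atm e he i S
    rw [if_neg hS] at h2
    rw [← h2, mul_comm (1 - e i), mul_assoc, one_sub_mul_atm e he, if_pos hT, mul_zero]

theorem atm_idem {N : ℕ} (e : Fin N → A) (he : ∀ i, e i * e i = e i) (S : Finset (Fin N)) :
    atm e S * atm e S = atm e S := by
  classical
  have h1 := congrArg (fun x => x * atm e S) (atm_sum e)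
  simp only [one_mul] at h1
  rw [Finset.sum_mul, Finset.sum_eq_single S] at h1
  · exact h1
  · intro T _ hT
    exact atm_orth e he hT
  · intro h; exact absurd (Finset.mem_univ _) h

theorem eq_sum_atm {N : ℕ} (e : Fin N → A) (he : ∀ i, e i * e i = e i) (i : Fin N) :
    e i = ∑ S ∈ Finset.univ.filter (fun S : Finset (Fin N) => i ∈ S), atm e S := by
  rw [Finset.sum_filter]
  conv_lhs => rw [← mul_one (e i), ← atm_sum e, Finset.mul_sum]
  exact Finset.sum_congr rfl fun S _ => mul_atm e he i S

/-- elements of `Hn` as finite combinations -/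
theorem Hn_exists {x : A} (hx : x ∈ Hn A) : ∃ (N : ℕ) (e : Fin N → A) (n : Fin N → ℤ),
    (∀ i, e i * e i = e i) ∧ x = ∑ i, n i • e i := by
  unfold Hn at hx
  induction hx using AddSubgroup.closure_induction with
  | mem x hx => exact ⟨1, fun _ => x, fun _ => 1, fun _ => hx, by simp⟩
  | zero => exact ⟨0, Fin.elim0, Fin.elim0, fun i => i.elim0, by simp⟩
  | add x y _ _ hx hy =>
    obtain ⟨N, e, n, he, rfl⟩ := hx
    obtain ⟨M, f, m, hf, rfl⟩ := hy
    refine ⟨N + M, Fin.append e f, Fin.append n m, ?_, ?_⟩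
    · intro i
      refine Fin.addCases (fun i => ?_) (fun i => ?_) i
      · rw [Fin.append_left, he]
      · rw [Fin.append_right, hf]
    · rw [Fin.sum_univ_add]
      simp only [Fin.append_left, Fin.append_right]
  | neg x _ hx =>
    obtain ⟨N, e, n, he, rfl⟩ := hx
    exact ⟨N, e, fun i => - n i, he, by simp⟩

/-- a common family of idempotents -/
theorem Hn_common {J : Type} [Finite J] (x : J → A) (hx : ∀ j, x j ∈ Hn A) :
    ∃ (N : ℕ) (e : Fin N → A) (n : J → Fin N → ℤ),
      (∀ i, e i * e i = e i) ∧ ∀ j, x j = ∑ i, n j i • e i := by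
  classical
  have := Fintype.ofFinite J
  have key : ∀ s : Finset J, ∃ (N : ℕ) (e : Fin N → A) (n : J → Fin N → ℤ),
      (∀ i, e i * e i = e i) ∧ ∀ j ∈ s, x j = ∑ i, n j i • e i := by
    intro s
    induction s using Finset.induction_on with
    | empty => exact ⟨0, Fin.elim0, fun _ => Fin.elim0, fun i => i.elim0, fun j hj =>
        absurd hj (Finset.notMem_empty j)⟩
    | insert a s ha ih =>
      obtain ⟨N, e, n, he, h1⟩ := ih
      obtain ⟨M, f, m, hf, h2⟩ := Hn_exists (hx a)
      refine ⟨N + M, Fin.append e f, fun j => if j = a then Fin.append 0 m else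
        Fin.append (n j) 0, ?_, ?_⟩
      · intro i
        refine Fin.addCases (fun i => ?_) (fun i => ?_) i
        · rw [Fin.append_left, he]
        · rw [Fin.append_right, hf]
      · intro j hj
        rw [Fin.sum_univ_add]
        by_cases hja : j = a
        · subst hja
          simp only [if_true, Fin.append_left, Fin.append_right, Pi.zero_apply, zero_smul,
            Finset.sum_const_zero, zero_add]
          exact h2
        · simp only [if_neg hja, Fin.append_left, Fin.append_right, Pi.zero_apply, zero_smul,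
            Finset.sum_const_zero, add_zero]
          exact h1 j ((Finset.mem_insert.1 hj).resolve_left hja)
  obtain ⟨N, e, n, he, h⟩ := key Finset.univ
  exact ⟨N, e, n, he, fun j => h j (Finset.mem_univ j)⟩

/-- a common family of nonzero orthogonal idempotents -/
theorem Hn_atoms {J : Type} [Finite J] (x : J → A) (hx : ∀ j, x j ∈ Hn A) :
    ∃ (L : Type) (_ : Fintype L) (_ : DecidableEq L) (ε : L → A) (n : J → L → ℤ),
      (∀ l, ε l * ε l = ε l) ∧ (∀ l, ε l ≠ 0) ∧ (∀ l l', l ≠ l' → ε l * ε l' = 0) ∧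
      ∀ j, x j = ∑ l, n j l • ε l := by
  classical
  obtain ⟨N, e, n, he, h⟩ := Hn_common x hx
  refine ⟨{S : Finset (Fin N) // atm e S ≠ 0}, inferInstance, inferInstance,
    fun S => atm e S.1, fun j S => ∑ i ∈ S.1, n j i, fun l => atm_idem e he l.1, fun l => l.2,
    fun l l' hl => atm_orth e he (fun h => hl (Subtype.ext h)), ?_⟩
  intro j
  rw [h j]
  have h1 : ∀ i, n j i • e i = ∑ S : Finset (Fin N), if i ∈ S then n j i • atm e S else 0 := by
    intro i
    conv_lhs => rw [eq_sum_atm e he i, Finset.smul_sum, Finset.sum_filter]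
  rw [Finset.sum_congr rfl fun i _ => h1 i, Finset.sum_comm]
  have h2 : ∀ S : Finset (Fin N), (∑ i, if i ∈ S then n j i • atm e S else 0) =
      (∑ i ∈ S, n j i) • atm e S := by
    intro S
    rw [← Finset.sum_filter, Finset.filter_mem_eq_inter, Finset.univ_inter, Finset.sum_smul]
  rw [Finset.sum_congr rfl fun S _ => h2 S,
    ← Fintype.sum_subtype_add_sum_subtype (fun S : Finset (Fin N) => atm e S ≠ 0)]
  have h3 : ∑ S : {S : Finset (Fin N) // ¬ atm e S ≠ 0}, (∑ i ∈ S.1, n j i) • atm e S.1 = 0 := by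
    refine Finset.sum_eq_zero fun S _ => ?_
    rw [not_not.1 S.2, smul_zero]
  rw [h3, add_zero]

end atoms

end

end Pool.Agent.T9h42
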