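import Pool.Agent.T9h42.Dn
import Pool.Agent.Y778.NK.Inj2

/-!
# The map `K₀(S) → K₁(S')`, `[e] ↦ [1 - e + e z]`
-/

set_option linter.unusedSectionVars false

namespace Pool.Agent.T9h42

open Matrix H970SH H842 Pool.Agent.Y69 Pool.Agent.Y778.NK

noncomputable section

section lift

variable {R : Type} [Ring R]

/-- the universal property of `K₀` -/
theorem K0lift_exists {B : Type*} [AddCommGroup B] (F : ∀ n : ℕ, IdMat R n → B)
    (hsum : ∀ (m n : ℕ) (e : IdMat R m) (f : IdMat R n) (d : IdMat R (m + n)),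
      (d : Matrix (Fin (m + n)) (Fin (m + n)) R) =
        Matrix.reindex finSumFinEquiv finSumFinEquiv
          (Matrix.fromBlocks (e : Matrix (Fin m) (Fin m) R) 0 0 (f : Matrix (Fin n) (Fin n) R)) →
      F (m + n) d = F m e + F n f)
    (hswap : ∀ (m n : ℕ) (e : IdMat R m) (f : IdMat R n) (u : Matrix (Fin m) (Fin n) R)
      (v : Matrix (Fin n) (Fin m) R), u * v = e → v * u = f → F m e = F n f) :
    ∃ T : K0 R →+ B, ∀ (n : ℕ) (e : IdMat R n), T (K0.mk e) = F n e := by
  let g : FreeAbelianGroup (Σ n : ℕ, IdMat R n) →+ B :=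
    FreeAbelianGroup.lift fun x => F x.1 x.2
  have hg : AddSubgroup.closure (K0Rel R) ≤ g.ker := by
    rw [AddSubgroup.closure_le]
    rintro x (⟨m, n, e, f, d, hd, rfl⟩ | ⟨m, n, e, f, u, v, h1, h2, rfl⟩)
    · show g _ = 0
      rw [map_sub, map_add]
      simp only [g, FreeAbelianGroup.lift_apply_of]
      rw [hsum m n e f d hd, sub_self]
    · show g _ = 0
      rw [map_sub]
      simp only [g, FreeAbelianGroup.lift_apply_of]
      rw [hswap m n e f u v h1 h2, sub_self]
  refine ⟨QuotientAddGroup.lift _ g hg, ?_⟩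
  intro n e
  show g _ = _
  simp only [g, FreeAbelianGroup.lift_apply_of]

end lift

section nu

variable {S S' : Type} [Ring S] [Ring S']

/-- the scalar matrix -/
def sc (ι : Type) [DecidableEq ι] (z : S') : Matrix ι ι S' := Matrix.diagonal fun _ => z

theorem sc_one (ι : Type) [DecidableEq ι] : sc ι (1 : S') = 1 := by
  unfold sc
  exact Matrix.diagonal_one

variable {ι κ : Type} [Fintype ι] [DecidableEq ι] [Fintype κ] [DecidableEq κ]

theorem sc_mul_sc (z w : S') : sc ι z * sc ι w = sc ι (z * w) := by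
  unfold sc
  rw [Matrix.diagonal_mul_diagonal]

theorem sc_mul (z : S') (E : Matrix ι κ S') (h : ∀ i j, z * E i j = E i j * z) :
    sc ι z * E = E * sc κ z := by
  ext i j
  unfold sc
  rw [Matrix.diagonal_mul, Matrix.mul_diagonal, h]

/-- the unit `1 - E + E z` -/
def tw (E : Matrix ι ι S') (hE : E * E = E) (z : S'ˣ)
    (hz : ∀ i j, (z : S') * E i j = E i j * z) : (Matrix ι ι S')ˣ where
  val := 1 - E + E * sc ι (z : S')
  inv := 1 - E + E * sc ι ((z⁻¹ : S'ˣ) : S')
  val_inv := by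
    have h1 : sc ι (z : S') * E = E * sc ι (z : S') := sc_mul _ _ hz
    have h2 : sc ι (z : S') * sc ι ((z⁻¹ : S'ˣ) : S') = 1 := by
      rw [sc_mul_sc, Units.mul_inv, sc_one]
    calc (1 - E + E * sc ι (z : S')) * (1 - E + E * sc ι ((z⁻¹ : S'ˣ) : S'))
        = 1 - E - E + E * E + (E - E * E) * sc ι ((z⁻¹ : S'ˣ) : S') +
          E * (sc ι (z : S')) - E * (sc ι (z : S') * E) +
          E * (sc ι (z : S') * E) * sc ι ((z⁻¹ : S'ˣ) : S') := by noncomm_ring
      _ = 1 := by
          rw [h1, ← Matrix.mul_assoc, hE, sub_self, Matrix.zero_mul, Matrix.mul_assoc, h2]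
          noncomm_ring
  inv_val := by
    have h1 : sc ι ((z⁻¹ : S'ˣ) : S') * E = E * sc ι ((z⁻¹ : S'ˣ) : S') := by
      apply sc_mul
      intro i j
      have h3 := hz i j
      calc ((z⁻¹ : S'ˣ) : S') * E i j = ((z⁻¹ : S'ˣ) : S') * (E i j * z) * ((z⁻¹ : S'ˣ) : S') := by
            rw [mul_assoc, mul_assoc, Units.mul_inv, mul_one]
        _ = E i j * ((z⁻¹ : S'ˣ) : S') := by
            rw [← h3, ← mul_assoc, Units.inv_mul, one_mul]
    have h2 : sc ι ((z⁻¹ : S'ˣ) : S') * sc ι (z : S') = 1 := by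
      rw [sc_mul_sc, Units.inv_mul, sc_one]
    calc (1 - E + E * sc ι ((z⁻¹ : S'ˣ) : S')) * (1 - E + E * sc ι (z : S'))
        = 1 - E - E + E * E + (E - E * E) * sc ι (z : S') +
          E * (sc ι ((z⁻¹ : S'ˣ) : S')) - E * (sc ι ((z⁻¹ : S'ˣ) : S') * E) +
          E * (sc ι ((z⁻¹ : S'ˣ) : S') * E) * sc ι (z : S') := by noncomm_ring
      _ = 1 := by
          rw [h1, ← Matrix.mul_assoc, hE, sub_self, Matrix.zero_mul, Matrix.mul_assoc, h2]
          noncomm_ring

theorem tw_val (E : Matrix ι ι S') (hE : E * E = E) (z : S'ˣ)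
    (hz : ∀ i j, (z : S') * E i j = E i j * z) :
    (tw E hE z hz).val = 1 - E + E * sc ι (z : S') := rfl

theorem tw_inv (E : Matrix ι ι S') (hE : E * E = E) (z : S'ˣ)
    (hz : ∀ i j, (z : S') * E i j = E i j * z) :
    ((tw E hE z hz)⁻¹).val = 1 - E + E * sc ι ((z⁻¹ : S'ˣ) : S') := rfl

theorem cl_tw_mul (E : Matrix ι ι S') (hE : E * E = E) (z w : S'ˣ)
    (hz : ∀ i j, (z : S') * E i j = E i j * z) (hw : ∀ i j, (w : S') * E i j = E i j * w)
    (hzw : ∀ i j, ((z * w : S'ˣ) : S') * E i j = E i j * ((z * w : S'ˣ) : S')) :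
    cl (tw E hE (z * w) hzw) = cl (tw E hE z hz) + cl (tw E hE w hw) := by
  rw [← cl_mul]
  congr 1
  apply Units.ext
  rw [Units.val_mul, tw_val, tw_val, tw_val]
  have h1 : sc ι (z : S') * E = E * sc ι (z : S') := sc_mul _ _ hz
  have h2 : sc ι ((z * w : S'ˣ) : S') = sc ι (z : S') * sc ι (w : S') := by
    rw [sc_mul_sc]; rfl
  rw [h2]
  symm
  calc (1 - E + E * sc ι (z : S')) * (1 - E + E * sc ι (w : S'))
      = 1 - E - E + E * E + (E - E * E) * sc ι (w : S') +
        E * (sc ι (z : S')) - E * (sc ι (z : S') * E) +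
        E * (sc ι (z : S') * E) * sc ι (w : S') := by noncomm_ring
    _ = _ := by
        rw [h1, ← Matrix.mul_assoc, hE, sub_self, Matrix.zero_mul, Matrix.mul_assoc]
        noncomm_ring

/-- equivalent idempotents -/
theorem cl_tw_swap {E : Matrix ι ι S'} (hE : E * E = E) {F : Matrix κ κ S'} (hF : F * F = F)
    (z : S'ˣ) (hz : ∀ i j, (z : S') * E i j = E i j * z)
    (hz' : ∀ i j, (z : S') * F i j = F i j * z) (u : Matrix ι κ S') (v : Matrix κ ι S')
    (hu : ∀ i j, (z : S') * u i j = u i j * z) (h1 : u * v = E) (h2 : v * u = F) :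
    cl (tw E hE z hz) = cl (tw F hF z hz') := by
  have h3 : sc ι (z : S') * u = u * sc κ (z : S') := sc_mul _ _ hu
  apply cl_one_add_mul_comm u (v * (sc ι (z : S') - 1))
  · rw [tw_val, ← Matrix.mul_assoc, h1]
    noncomm_ring
  · rw [tw_val, Matrix.mul_assoc, Matrix.sub_mul, h3, Matrix.one_mul, ← h2, Matrix.mul_sub,
      Matrix.mul_assoc]
    abel

variable (f : S →+* S') (z : S'ˣ) (hz : ∀ s, (z : S') * f s = f s * z)

include hz in
theorem cm (e : Matrix ι κ S) : ∀ i j, (z : S') * (e.map f) i j = (e.map f) i j * z :=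
  fun i j => by
    rw [Matrix.map_apply]
    exact hz _

include hz in
theorem nu_exists : ∃ T : K0 S →+ K1 S', ∀ (n : ℕ) (e : IdMat S n),
    T (K0.mk e) = cl (tw ((e : Matrix (Fin n) (Fin n) S).map f) (map_idem f e.2) z
      (cm f z hz _)) := by
  apply K0lift_exists (F := fun (n : ℕ) (e : IdMat S n) =>
    cl (tw ((e : Matrix (Fin n) (Fin n) S).map f) (map_idem f e.2) z (cm f z hz _)))
  · intro m n e e' d hd
    rw [← cl_diagU]
    symm
    apply cl_congr finSumFinEquiv
    intro i j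
    rw [diagU_val, tw_val, tw_val, tw_val, hd]
    rcases i with i | i <;> rcases j with j | j
    · rw [Matrix.fromBlocks_apply₁₁]
      simp [sc, Matrix.one_apply]
    · rw [Matrix.fromBlocks_apply₁₂]
      simp [sc, Matrix.one_apply]
      intro h
      have h1 := congrArg Fin.val h
      rw [Fin.val_castAdd, Fin.val_natAdd] at h1
      omega
    · rw [Matrix.fromBlocks_apply₂₁]
      simp [sc, Matrix.one_apply]
      intro h
      have h1 := congrArg Fin.val h
      rw [Fin.val_castAdd, Fin.val_natAdd] at h1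
      omega
    · rw [Matrix.fromBlocks_apply₂₂]
      simp [sc, Matrix.one_apply]
  · intro m n e e' u v h1 h2
    apply cl_tw_swap _ _ _ _ _ (u.map f) (v.map f)
    · exact cm f z hz u
    · rw [← Matrix.map_mul, h1]
    · rw [← Matrix.map_mul, h2]

/-- `K₀(S) → K₁(S')`, `[e] ↦ [1 - f(e) + f(e) z]`, for a unit `z` commuting with the image of `f` -/
def nu : K0 S →+ K1 S' := (nu_exists f z hz).choose

theorem nu_mk {n : ℕ} (e : IdMat S n) : nu f z hz (K0.mk e) =
    cl (tw ((e : Matrix (Fin n) (Fin n) S).map f) (map_idem f e.2) z (cm f z hz _)) :=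
  (nu_exists f z hz).choose_spec n e

theorem nu_cl0 {e : Matrix ι ι S} (he : e * e = e) : nu f z hz (cl0 e he) =
    cl (tw (e.map f) (map_idem f he) z (cm f z hz _)) := by
  unfold cl0
  rw [nu_mk]
  apply cl_congr (Fintype.equivFin ι).symm
  intro i j
  rw [tw_val, tw_val]
  simp [sc, Matrix.one_apply]

theorem nu_mul (w : S'ˣ) (hw : ∀ s, (w : S') * f s = f s * w)
    (hzw : ∀ s, ((z * w : S'ˣ) : S') * f s = f s * ((z * w : S'ˣ) : S')) (x : K0 S) :
    nu f (z * w) hzw x = nu f z hz x + nu f w hw x := by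
  induction x using K0.induction with
  | hadd x y hx hy => rw [map_add, map_add, map_add, hx, hy]; abel
  | hneg x hx => rw [map_neg, map_neg, map_neg, hx]; abel
  | hcl n e he =>
    rw [nu_cl0, nu_cl0, nu_cl0]
    exact cl_tw_mul _ _ _ _ _ _ _

/-- naturality in the source -/
theorem nu_comp {S₀ : Type} [Ring S₀] (g : S₀ →+* S) (hz' : ∀ s, (z : S') * (f.comp g) s =
    (f.comp g) s * z) (x : K0 S₀) : nu f z hz (K0.map g x) = nu (f.comp g) z hz' x := by
  induction x using K0.induction with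
  | hadd x y hx hy => rw [map_add, map_add, map_add, hx, hy]
  | hneg x hx => rw [map_neg, map_neg, map_neg, hx]
  | hcl n e he =>
    rw [K0map_cl0, nu_cl0, nu_cl0]
    congr 1

/-- naturality in the target -/
theorem nu_target {T : Type} [Ring T] (g : S' →+* T) (z' : Tˣ) (hzz : (z' : T) = g z)
    (hz' : ∀ s, (z' : T) * (g.comp f) s = (g.comp f) s * z') (x : K0 S) :
    K1map g (nu f z hz x) = nu (g.comp f) z' hz' x := by
  induction x using K0.induction with
  | hadd x y hx hy => rw [map_add, map_add, map_add, hx, hy]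
  | hneg x hx => rw [map_neg, map_neg, map_neg, hx]
  | hcl n e he =>
    rw [nu_cl0, nu_cl0, K1map_cl]
    congr 1
    apply Units.ext
    rw [mapUnit_val, tw_val, tw_val]
    ext i j
    simp [sc, Matrix.one_apply, hzz, apply_ite g]

/-- conjugation -/
theorem nu_conj (f' : S →+* S') (g : S'ˣ) (hff : ∀ s, f' s = g * f s * ((g⁻¹ : S'ˣ) : S'))
    (z' : S'ˣ) (hzz : (z' : S') = g * z * ((g⁻¹ : S'ˣ) : S'))
    (hz' : ∀ s, (z' : S') * f' s = f' s * z') (x : K0 S) : nu f' z' hz' x = nu f z hz x := by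
  induction x using K0.induction with
  | hadd x y hx hy => rw [map_add, map_add, hx, hy]
  | hneg x hx => rw [map_neg, map_neg, hx]
  | hcl n e he =>
    rw [nu_cl0, nu_cl0]
    let D : (Matrix (Fin n) (Fin n) S')ˣ :=
      { val := sc (Fin n) (g : S')
        inv := sc (Fin n) ((g⁻¹ : S'ˣ) : S')
        val_inv := by rw [sc_mul_sc, Units.mul_inv, sc_one]
        inv_val := by rw [sc_mul_sc, Units.inv_mul, sc_one] }
    have h : tw (e.map f') (map_idem f' he) z' (cm f' z' hz' _) =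
        D * tw (e.map f) (map_idem f he) z (cm f z hz _) * D⁻¹ := by
      apply Units.ext
      rw [Units.val_mul, Units.val_mul, tw_val, tw_val]
      have h1 : e.map f' = sc (Fin n) (g : S') * e.map f * sc (Fin n) ((g⁻¹ : S'ˣ) : S') := by
        ext i j
        unfold sc
        rw [Matrix.mul_diagonal, Matrix.diagonal_mul, Matrix.map_apply, Matrix.map_apply, hff]
      have h2 : sc (Fin n) (z' : S') =
          sc (Fin n) (g : S') * sc (Fin n) (z : S') * sc (Fin n) ((g⁻¹ : S'ˣ) : S') := by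
        rw [sc_mul_sc, sc_mul_sc, hzz]
      have h3 : sc (Fin n) ((g⁻¹ : S'ˣ) : S') * sc (Fin n) (g : S') = 1 := D.inv_val
      have h4 : sc (Fin n) (g : S') * sc (Fin n) ((g⁻¹ : S'ˣ) : S') = 1 := D.val_inv
      show _ = sc (Fin n) (g : S') * (1 - e.map f + e.map f * sc (Fin n) (z : S')) *
        sc (Fin n) ((g⁻¹ : S'ˣ) : S')
      rw [h1, h2]
      calc 1 - sc (Fin n) (g : S') * e.map f * sc (Fin n) ((g⁻¹ : S'ˣ) : S') +
          sc (Fin n) (g : S') * e.map f * sc (Fin n) ((g⁻¹ : S'ˣ) : S') *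
            (sc (Fin n) (g : S') * sc (Fin n) (z : S') * sc (Fin n) ((g⁻¹ : S'ˣ) : S'))
          = sc (Fin n) (g : S') * sc (Fin n) ((g⁻¹ : S'ˣ) : S') -
            sc (Fin n) (g : S') * e.map f * sc (Fin n) ((g⁻¹ : S'ˣ) : S') +
          sc (Fin n) (g : S') * e.map f * (sc (Fin n) ((g⁻¹ : S'ˣ) : S') *
            sc (Fin n) (g : S')) * sc (Fin n) (z : S') * sc (Fin n) ((g⁻¹ : S'ˣ) : S') := by
              rw [h4]; simp only [Matrix.mul_assoc]
        _ = _ := by
          rw [h3, Matrix.mul_one, Matrix.mul_add, Matrix.mul_sub, Matrix.mul_one, Matrix.add_mul,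
            Matrix.sub_mul]
          simp only [Matrix.mul_assoc]
    rw [h, cl_conj]

end nu

end

end Pool.Agent.T9h42
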